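import Mathlib

set_option autoImplicit false

namespace Pool.Agent.P.MP_114da7_co

/-- Abstract data: a vector space with evaluation functionals and two positive operators. -/
structure Sys (E X : Type) [AddCommGroup E] [Module ℝ E] where
  ev : X → E →ₗ[ℝ] ℝ
  one : E
  T : E →ₗ[ℝ] E
  S : E →ₗ[ℝ] E
  nu : E →ₗ[ℝ] ℝ
  t0 : ℕ
  c1 : ℝ
  C2 : ℝ
  t0_pos : 0 < t0
  c1_pos : 0 < c1
  C2_pos : 0 < C2
  ev_one : ∀ x, ev x one = 1
  T_pos : ∀ f, (∀ x, 0 ≤ ev x f) → ∀ x, 0 ≤ ev x (T f)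
  S_pos : ∀ f, (∀ x, 0 ≤ ev x f) → ∀ x, 0 ≤ ev x (S f)
  nu_pos : ∀ f, (∀ x, 0 ≤ ev x f) → 0 ≤ nu f
  T_one : ∀ x, ev x (T one) ≤ 1
  S_one : ∀ x, ev x (S one) ≤ 1
  A1 : ∀ g, (∀ x, 0 ≤ ev x g) → ∀ x, c1 * nu g * ev x ((T ^ t0) one) ≤ ev x ((T ^ t0) g)
  A2 : ∀ N x, ev x ((T ^ N) one) ≤ C2 * nu ((T ^ N) one)
  A3 : ∀ N, 0 < nu ((T ^ N) one)
  A4 : ∀ m, ∃ j, 0 < nu ((T ^ j) (S ((T ^ m) one)))

namespace Sys

variable {E X : Type} [AddCommGroup E] [Module ℝ E] (σ : Sys E X)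

/-- survival functions -/
def u (N : ℕ) : E := (σ.T ^ N) σ.one

def IsPos (L : E →ₗ[ℝ] E) : Prop := ∀ f, (∀ x, 0 ≤ σ.ev x f) → ∀ x, 0 ≤ σ.ev x (L f)

variable {σ}

lemma IsPos.mono {L : E →ₗ[ℝ] E} (hL : σ.IsPos L) {f g : E} {a b : ℝ}
    (h : ∀ x, a * σ.ev x f ≤ b * σ.ev x g) (x : X) : a * σ.ev x (L f) ≤ b * σ.ev x (L g) := by
  have := hL (b • g - a • f) (fun x => by
    simp only [map_sub, map_smul, smul_eq_mul]; linarith [h x]) x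
  simp only [map_sub, map_smul, smul_eq_mul] at this
  linarith

lemma IsPos.comp {L M : E →ₗ[ℝ] E} (hL : σ.IsPos L) (hM : σ.IsPos M) : σ.IsPos (L * M) :=
  fun f hf => hL _ (hM f hf)

variable (σ)

lemma pos_pow (n : ℕ) : σ.IsPos (σ.T ^ n) := by
  induction n with
  | zero => intro f hf; simpa using hf
  | succ n ih => rw [pow_succ]; exact ih.comp σ.T_pos

lemma nu_mono {f g : E} {a b : ℝ} (h : ∀ x, a * σ.ev x f ≤ b * σ.ev x g) :
    a * σ.nu f ≤ b * σ.nu g := by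
  have := σ.nu_pos (b • g - a • f) (fun x => by
    simp only [map_sub, map_smul, smul_eq_mul]; linarith [h x])
  simp only [map_sub, map_smul, smul_eq_mul] at this
  linarith

lemma pow_u (m N : ℕ) : (σ.T ^ m) (σ.u N) = σ.u (m + N) := by
  simp only [u, pow_add, Module.End.mul_apply]

lemma u_nonneg (N : ℕ) (x : X) : 0 ≤ σ.ev x (σ.u N) :=
  σ.pos_pow N _ (fun x => by rw [σ.ev_one]; norm_num) x

lemma u_succ_le (N : ℕ) (x : X) : σ.ev x (σ.u (N + 1)) ≤ σ.ev x (σ.u N) := by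
  have h := (σ.pos_pow N).mono (f := σ.u 1) (g := σ.u 0) (a := 1) (b := 1) (fun x => by
    simpa [u, σ.ev_one] using σ.T_one x) x
  simpa [pow_u] using h

lemma u_add_le (N j : ℕ) (x : X) : σ.ev x (σ.u (N + j)) ≤ σ.ev x (σ.u N) := by
  induction j with
  | zero => simp
  | succ j ih => exact (σ.u_succ_le (N + j) x).trans ih

lemma nu_u_pos (N : ℕ) : 0 < σ.nu (σ.u N) := σ.A3 N

lemma upper (M : ℕ) (x : X) :
    σ.ev x (σ.u (σ.t0 + M)) ≤ σ.C2 * σ.nu (σ.u M) * σ.ev x (σ.u σ.t0) := by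
  have h := (σ.pos_pow σ.t0).mono (f := σ.u M) (g := σ.u 0) (a := 1) (b := σ.C2 * σ.nu (σ.u M))
    (fun x => by simpa [u, σ.ev_one] using σ.A2 M x) x
  simpa [pow_u] using h

lemma lower (M : ℕ) (x : X) :
    σ.c1 * σ.nu (σ.u M) * σ.ev x (σ.u σ.t0) ≤ σ.ev x (σ.u (σ.t0 + M)) := by
  have h := σ.A1 (σ.u M) (σ.u_nonneg M) x
  rwa [pow_u] at h

/-- two-sided comparison -/
def Btw (f g : E) (a b : ℝ) : Prop := ∀ x, a * σ.ev x g ≤ σ.ev x f ∧ σ.ev x f ≤ b * σ.ev x g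

variable {σ}

lemma Btw.map {L : E →ₗ[ℝ] E} (hL : σ.IsPos L) {f g : E} {a b : ℝ} (h : σ.Btw f g a b) :
    σ.Btw (L f) (L g) a b := fun x =>
  ⟨by simpa using hL.mono (a := a) (b := 1) (f := g) (g := f) (fun x => by simpa using (h x).1) x,
   by simpa using hL.mono (a := 1) (b := b) (f := f) (g := g) (fun x => by simpa using (h x).2) x⟩

lemma Btw.nu {f g : E} {a b : ℝ} (h : σ.Btw f g a b) :
    a * σ.nu g ≤ σ.nu f ∧ σ.nu f ≤ b * σ.nu g :=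
  ⟨by simpa using σ.nu_mono (a := a) (b := 1) (f := g) (g := f) (fun x => by simpa using (h x).1),
   by simpa using σ.nu_mono (a := 1) (b := b) (f := f) (g := g) (fun x => by simpa using (h x).2)⟩

variable (σ)

/-- contraction rate -/
noncomputable def δ : ℝ := min (σ.c1 / σ.C2) 1

lemma δ_pos : 0 < σ.δ := lt_min (div_pos σ.c1_pos σ.C2_pos) one_pos
lemma δ_le_one : σ.δ ≤ 1 := min_le_right _ _

lemma contract {f : E} {M : ℕ} {a b : ℝ} (h : σ.Btw f (σ.u M) a b) :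
    ∃ a' b', a ≤ a' ∧ b' ≤ b ∧ b' - a' ≤ (1 - σ.δ) * (b - a) ∧
      σ.Btw ((σ.T ^ σ.t0) f) (σ.u (σ.t0 + M)) a' b' := by
  have hn := σ.nu_u_pos M
  obtain ⟨h1, h2⟩ := h.nu
  have hδ := σ.δ_pos
  have hδ' : σ.δ * σ.C2 ≤ σ.c1 := by
    have : σ.δ ≤ σ.c1 / σ.C2 := min_le_left _ _
    rwa [le_div_iff₀ σ.C2_pos] at this
  set p := (σ.nu f - a * σ.nu (σ.u M)) / σ.nu (σ.u M) with hp
  set q := (b * σ.nu (σ.u M) - σ.nu f) / σ.nu (σ.u M) with hq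
  have hp0 : 0 ≤ p := div_nonneg (by linarith) hn.le
  have hq0 : 0 ≤ q := div_nonneg (by linarith) hn.le
  have hpq : p + q = b - a := by rw [hp, hq]; field_simp; ring
  have key : ∀ (g : E) (r : ℝ), (∀ x, 0 ≤ σ.ev x g) → 0 ≤ r → σ.nu g = r * σ.nu (σ.u M) →
      ∀ x, σ.δ * r * σ.ev x (σ.u (σ.t0 + M)) ≤ σ.ev x ((σ.T ^ σ.t0) g) := by
    intro g r hg hr hgr x
    refine le_trans ?_ (σ.A1 g hg x)
    have h3 := σ.upper M x
    have h4 := σ.u_nonneg σ.t0 x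
    calc σ.δ * r * σ.ev x (σ.u (σ.t0 + M))
        ≤ σ.δ * r * (σ.C2 * σ.nu (σ.u M) * σ.ev x (σ.u σ.t0)) := by gcongr
      _ = (σ.δ * σ.C2) * (r * σ.nu (σ.u M) * σ.ev x (σ.u σ.t0)) := by ring
      _ ≤ σ.c1 * (r * σ.nu (σ.u M) * σ.ev x (σ.u σ.t0)) := by gcongr
      _ = _ := by rw [hgr]; simp only [u]; ring
  refine ⟨a + σ.δ * p, b - σ.δ * q, by nlinarith, by nlinarith, by rw [← hpq]; nlinarith, fun x => ⟨?_, ?_⟩⟩
  · have := key (f - a • σ.u M) p (fun x => by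
      simp only [map_sub, map_smul, smul_eq_mul]; linarith [(h x).1]) hp0 (by
      simp only [map_sub, map_smul, smul_eq_mul]; rw [hp]; field_simp) x
    simp only [map_sub, map_smul, smul_eq_mul, pow_u] at this
    linarith
  · have := key (b • σ.u M - f) q (fun x => by
      simp only [map_sub, map_smul, smul_eq_mul]; linarith [(h x).2]) hq0 (by
      simp only [map_sub, map_smul, smul_eq_mul]; rw [hq]; field_simp) x
    simp only [map_sub, map_smul, smul_eq_mul, pow_u] at this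
    linarith

lemma contract_iter {f : E} {M : ℕ} {a b : ℝ} (h : σ.Btw f (σ.u M) a b) (j : ℕ) :
    ∃ a' b', a ≤ a' ∧ b' ≤ b ∧ b' - a' ≤ (1 - σ.δ) ^ j * (b - a) ∧
      σ.Btw ((σ.T ^ (j * σ.t0)) f) (σ.u (j * σ.t0 + M)) a' b' := by
  induction j with
  | zero => exact ⟨a, b, le_rfl, le_rfl, by simp, by simpa using h⟩
  | succ j ih =>
    obtain ⟨a1, b1, h1, h2, h3, h4⟩ := ih
    obtain ⟨a2, b2, h5, h6, h7, h8⟩ := σ.contract h4
    refine ⟨a2, b2, h1.trans h5, h6.trans h2, ?_, ?_⟩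
    · have := σ.δ_le_one
      calc b2 - a2 ≤ (1 - σ.δ) * (b1 - a1) := h7
        _ ≤ (1 - σ.δ) * ((1 - σ.δ) ^ j * (b - a)) := by gcongr
        _ = _ := by ring
    · have e1 : (j + 1) * σ.t0 = σ.t0 + j * σ.t0 := by ring
      rw [e1, pow_add, Module.End.mul_apply, add_assoc]
      exact h8

lemma pow_le_div (N : ℕ) : (1 - σ.δ) ^ (N / σ.t0) ≤ (σ.t0 / σ.δ) / (N + 1) := by
  set j := N / σ.t0 with hj
  have hδ := σ.δ_pos
  have hδ1 := σ.δ_le_one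
  have ht : (0 : ℝ) < σ.t0 := by exact_mod_cast σ.t0_pos
  have h1 : 1 + (j : ℝ) * σ.δ ≤ (1 + σ.δ) ^ j := one_add_mul_le_pow (by linarith) j
  have h2 : (1 - σ.δ) ^ j * (1 + σ.δ) ^ j ≤ 1 := by
    rw [← mul_pow]; apply pow_le_one₀ <;> nlinarith
  have h3 : (N : ℝ) + 1 ≤ (j + 1) * σ.t0 := by
    have := Nat.lt_div_mul_add (a := N) σ.t0_pos
    rw [← hj] at this
    have h4 : N + 1 ≤ (j + 1) * σ.t0 := by rw [add_mul, one_mul]; omega
    exact_mod_cast h4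
  have h5 : 0 ≤ (1 - σ.δ) ^ j := pow_nonneg (by linarith) j
  have hj0 : (0 : ℝ) ≤ j := Nat.cast_nonneg j
  rw [le_div_iff₀ (by positivity), le_div_iff₀ hδ]
  calc (1 - σ.δ) ^ j * (N + 1) * σ.δ ≤ (1 - σ.δ) ^ j * ((j + 1) * σ.t0) * σ.δ := by gcongr
    _ = (1 - σ.δ) ^ j * ((j + 1) * σ.δ) * σ.t0 := by ring
    _ ≤ (1 - σ.δ) ^ j * (1 + σ.δ) ^ j * σ.t0 := by gcongr; nlinarith
    _ ≤ 1 * σ.t0 := by gcongr
    _ = _ := one_mul _

lemma contract_all {f : E} {M : ℕ} {a b : ℝ} (hab : a ≤ b) (h : σ.Btw f (σ.u M) a b) (N : ℕ) :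
    ∃ a' b', a ≤ a' ∧ b' ≤ b ∧ b' - a' ≤ (σ.t0 / σ.δ) / (N + 1) * (b - a) ∧
      σ.Btw ((σ.T ^ N) f) (σ.u (N + M)) a' b' := by
  obtain ⟨a1, b1, h1, h2, h3, h4⟩ := σ.contract_iter h (N / σ.t0)
  refine ⟨a1, b1, h1, h2, h3.trans ?_, ?_⟩
  · exact mul_le_mul_of_nonneg_right (σ.pow_le_div N) (by linarith)
  · have h5 := h4.map (σ.pos_pow (N % σ.t0))
    rw [pow_u, ← Module.End.mul_apply, ← pow_add, ← add_assoc] at h5
    have e : N % σ.t0 + N / σ.t0 * σ.t0 = N := Nat.mod_add_div' N σ.t0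
    rwa [e] at h5

/-- the ratio -/
noncomputable def r (m m' : ℕ) : ℝ := σ.nu ((σ.T ^ m) (σ.S (σ.u m'))) / σ.nu (σ.u (m + 1 + m'))

lemma r_mem {m m' : ℕ} {a b : ℝ}
    (h : σ.Btw ((σ.T ^ m) (σ.S (σ.u m'))) (σ.u (m + 1 + m')) a b) : a ≤ σ.r m m' ∧ σ.r m m' ≤ b := by
  obtain ⟨h1, h2⟩ := h.nu
  have := σ.nu_u_pos (m + 1 + m')
  exact ⟨by rw [r, le_div_iff₀ this]; exact h1, by rw [r, div_le_iff₀ this]; exact h2⟩

lemma TS_pos (m : ℕ) : σ.IsPos (σ.T ^ m * σ.S) := (σ.pos_pow m).comp σ.S_pos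

lemma init : ∃ B : ℝ, 0 < B ∧ ∀ m', σ.t0 ≤ m' →
    σ.Btw ((σ.T ^ σ.t0) (σ.S (σ.u m'))) (σ.u (σ.t0 + 1 + m')) 0 B := by
  have h1 := σ.nu_u_pos 1
  have hc := σ.c1_pos
  have hC := σ.C2_pos
  refine ⟨σ.C2 / (σ.c1 * (σ.c1 * σ.nu (σ.u 1))), by positivity, fun m' hm x => ⟨?_, ?_⟩⟩
  · rw [zero_mul]
    exact σ.TS_pos σ.t0 _ (σ.u_nonneg m') x
  · obtain ⟨j, rfl⟩ := Nat.exists_eq_add_of_le' hm
    have hn := σ.nu_u_pos (j + σ.t0)
    have e1 : ∀ x, σ.c1 * σ.nu (σ.u 1) * σ.ev x (σ.u (j + σ.t0)) ≤ 1 * σ.ev x (σ.u (1 + (j + σ.t0))) := by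
      intro x
      have := (σ.pos_pow j).mono (f := σ.u σ.t0) (g := σ.u (σ.t0 + 1)) (a := σ.c1 * σ.nu (σ.u 1))
        (b := 1) (fun x => by simpa using σ.lower 1 x) x
      rw [pow_u, pow_u] at this
      have e : j + (σ.t0 + 1) = 1 + (j + σ.t0) := by ring
      rwa [e] at this
    have e2 := σ.nu_mono e1
    have e3 := σ.lower (1 + (j + σ.t0)) x
    have e4 : ∀ x, 1 * σ.ev x (σ.S (σ.u (j + σ.t0))) ≤ (σ.C2 * σ.nu (σ.u (j + σ.t0))) * σ.ev x (σ.u 0) := by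
      intro x
      have := IsPos.mono (σ := σ) σ.S_pos (f := σ.u (j + σ.t0)) (g := σ.one) (a := 1)
        (b := σ.C2 * σ.nu (σ.u (j + σ.t0))) (fun x => by simpa [u, σ.ev_one] using σ.A2 (j + σ.t0) x) x
      refine this.trans ?_
      have h5 := σ.S_one x
      have h6 : σ.ev x (σ.u 0) = 1 := by simp [u, σ.ev_one]
      rw [h6]; gcongr
    have e5 := (σ.pos_pow σ.t0).mono e4 x
    rw [pow_u, add_zero, one_mul] at e5
    have h0 := σ.u_nonneg σ.t0 x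
    rw [← add_assoc σ.t0] at e3
    refine e5.trans ?_
    rw [div_mul_eq_mul_div, le_div_iff₀ (by positivity)]
    calc σ.C2 * σ.nu (σ.u (j + σ.t0)) * σ.ev x (σ.u σ.t0) * (σ.c1 * (σ.c1 * σ.nu (σ.u 1)))
        = σ.C2 * (σ.c1 * (σ.c1 * σ.nu (σ.u 1) * σ.nu (σ.u (j + σ.t0))) * σ.ev x (σ.u σ.t0)) := by ring
      _ ≤ σ.C2 * (σ.c1 * (1 * σ.nu (σ.u (1 + (j + σ.t0)))) * σ.ev x (σ.u σ.t0)) := by gcongr
      _ ≤ σ.C2 * σ.ev x (σ.u (σ.t0 + 1 + (j + σ.t0))) := by rw [one_mul]; gcongr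

lemma first_var : ∃ B K : ℝ, 0 < B ∧ 0 < K ∧ ∀ N m' : ℕ, σ.t0 ≤ m' → ∃ a b : ℝ, 0 ≤ a ∧ b ≤ B ∧
    b - a ≤ K / (N + 1) ∧
    ∀ j, σ.Btw ((σ.T ^ (j + (N + σ.t0))) (σ.S (σ.u m'))) (σ.u (j + (N + σ.t0) + 1 + m')) a b := by
  obtain ⟨B, hB, h⟩ := σ.init
  have hδ := σ.δ_pos
  have ht : (0 : ℝ) < σ.t0 := by exact_mod_cast σ.t0_pos
  refine ⟨B, σ.t0 / σ.δ * B, hB, by positivity, fun N m' hm => ?_⟩
  obtain ⟨a, b, h1, h2, h3, h4⟩ := σ.contract_all hB.le (h m' hm) N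
  refine ⟨a, b, h1, h2, by rw [mul_div_right_comm]; simpa using h3, fun j => ?_⟩
  have h5 := h4.map (σ.pos_pow j)
  rw [pow_u, ← Module.End.mul_apply, ← pow_add, ← Module.End.mul_apply, ← pow_add] at h5
  have e : j + (N + (σ.t0 + 1 + m')) = j + (N + σ.t0) + 1 + m' := by ring
  rw [e, add_assoc j N] at h5
  exact h5

lemma second_var : ∃ K : ℝ, 0 < K ∧ ∀ N j : ℕ, ∃ a b : ℝ, 0 < a ∧ b - a ≤ K / (N + 1) * a ∧
    σ.Btw (σ.u (N + σ.t0 + j)) (σ.u (N + σ.t0)) a b := by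
  have hδ := σ.δ_pos
  have ht : (0 : ℝ) < σ.t0 := by exact_mod_cast σ.t0_pos
  have hc := σ.c1_pos
  have hC := σ.C2_pos
  refine ⟨σ.t0 / σ.δ * ((σ.c1 + σ.C2) / σ.c1), by positivity, fun N j => ?_⟩
  have hn := σ.nu_u_pos j
  have h0 : σ.Btw (σ.u (σ.t0 + j)) (σ.u σ.t0) (σ.c1 * σ.nu (σ.u j)) ((σ.c1 + σ.C2) * σ.nu (σ.u j)) := by
    intro x
    refine ⟨σ.lower j x, (σ.upper j x).trans ?_⟩
    have := σ.u_nonneg σ.t0 x
    gcongr; linarith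
  obtain ⟨a, b, h1, h2, h3, h4⟩ := σ.contract_all (by gcongr; linarith) h0 N
  refine ⟨a, b, lt_of_lt_of_le (by positivity) h1, h3.trans ?_, by rwa [pow_u, ← add_assoc] at h4⟩
  have h5 : (σ.c1 + σ.C2) * σ.nu (σ.u j) - σ.c1 * σ.nu (σ.u j) ≤ (σ.c1 + σ.C2) / σ.c1 * a := by
    calc _ ≤ (σ.c1 + σ.C2) * σ.nu (σ.u j) := by nlinarith [mul_pos hc hn]
      _ = (σ.c1 + σ.C2) / σ.c1 * (σ.c1 * σ.nu (σ.u j)) := by field_simp
      _ ≤ _ := by gcongr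
  calc _ ≤ σ.t0 / σ.δ / (N + 1) * ((σ.c1 + σ.C2) / σ.c1 * a) := by gcongr
    _ = _ := by ring

lemma r_nonneg (m m' : ℕ) : 0 ≤ σ.r m m' :=
  div_nonneg (σ.nu_pos _ (σ.TS_pos m _ (σ.u_nonneg m'))) (σ.nu_u_pos _).le

lemma r_second : ∃ K : ℝ, 0 < K ∧ ∀ m N j : ℕ,
    σ.r m (N + σ.t0 + j) ≤ (1 + K / (N + 1)) * σ.r m (N + σ.t0) ∧
    σ.r m (N + σ.t0) ≤ (1 + K / (N + 1)) * σ.r m (N + σ.t0 + j) := by
  obtain ⟨K, hK, h⟩ := σ.second_var
  refine ⟨K, hK, fun m N j => ?_⟩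
  obtain ⟨a, b, ha, hb, h1⟩ := h N j
  obtain ⟨p1, p2⟩ := (h1.map (σ.TS_pos m)).nu
  obtain ⟨q1, q2⟩ := (h1.map (σ.pos_pow (m + 1))).nu
  rw [pow_u, pow_u] at q1 q2
  simp only [Module.End.mul_apply] at p1 p2
  have n1 := σ.nu_u_pos (m + 1 + (N + σ.t0 + j))
  have n2 := σ.nu_u_pos (m + 1 + (N + σ.t0))
  have s1 := σ.nu_pos _ (σ.TS_pos m _ (σ.u_nonneg (N + σ.t0 + j)))
  have s2 := σ.nu_pos _ (σ.TS_pos m _ (σ.u_nonneg (N + σ.t0)))
  simp only [Module.End.mul_apply] at s1 s2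
  have hb' : b ≤ (1 + K / (N + 1)) * a := by linarith
  unfold r
  set A1 := σ.nu ((σ.T ^ m) (σ.S (σ.u (N + σ.t0 + j))))
  set A2 := σ.nu ((σ.T ^ m) (σ.S (σ.u (N + σ.t0))))
  set U1 := σ.nu (σ.u (m + 1 + (N + σ.t0 + j)))
  set U2 := σ.nu (σ.u (m + 1 + (N + σ.t0)))
  set w := 1 + K / (N + 1) with hw
  have hw0 : 0 ≤ w := by positivity
  constructor
  · rw [← mul_div_assoc, div_le_div_iff₀ n1 n2]
    calc A1 * U2 ≤ b * A2 * U2 := by gcongr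
      _ ≤ w * a * A2 * U2 := by gcongr
      _ = w * A2 * (a * U2) := by ring
      _ ≤ w * A2 * U1 := by gcongr
  · rw [← mul_div_assoc, div_le_div_iff₀ n2 n1]
    calc A2 * U1 ≤ A2 * (b * U2) := by gcongr
      _ ≤ A2 * (w * a * U2) := by gcongr
      _ = w * (a * A2) * U2 := by ring
      _ ≤ w * A1 * U2 := by gcongr

lemma r_lower : ∃ (c : ℝ) (n0 : ℕ), 0 < c ∧ ∀ m m', n0 ≤ m → σ.t0 ≤ m' → c ≤ σ.r m m' := by
  obtain ⟨K, hK, h⟩ := σ.r_second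
  obtain ⟨j0, hj⟩ := σ.A4 σ.t0
  have hc := σ.c1_pos
  set a := σ.c1 * σ.nu ((σ.T ^ j0) (σ.S ((σ.T ^ σ.t0) σ.one))) with ha
  have ha0 : 0 < a := by positivity
  refine ⟨a / (1 + K), σ.t0 + j0, by positivity, fun m m' hm hm' => ?_⟩
  obtain ⟨i, rfl⟩ := Nat.exists_eq_add_of_le' hm
  obtain ⟨j, rfl⟩ := Nat.exists_eq_add_of_le hm'
  have h1 := (h (i + (σ.t0 + j0)) 0 j).2
  simp only [zero_add, Nat.cast_zero, div_one] at h1
  rw [div_le_iff₀' (by positivity)]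
  refine le_trans ?_ h1
  have h2 : ∀ x, a * σ.ev x (σ.u (σ.t0 + (j0 + 1 + σ.t0))) ≤
      1 * σ.ev x ((σ.T ^ σ.t0) ((σ.T ^ j0) (σ.S (σ.u σ.t0)))) := by
    intro x
    have h3 := σ.A1 _ (σ.TS_pos j0 _ (σ.u_nonneg σ.t0)) x
    simp only [Module.End.mul_apply] at h3
    rw [one_mul]
    refine le_trans ?_ h3
    have := σ.u_add_le σ.t0 (j0 + 1 + σ.t0) x
    exact mul_le_mul_of_nonneg_left this ha0.le
  have h4 := σ.nu_mono ((σ.pos_pow i).mono h2)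
  rw [pow_u, one_mul, ← Module.End.mul_apply (σ.T ^ σ.t0), ← pow_add, ← Module.End.mul_apply,
    ← pow_add] at h4
  have e : i + (σ.t0 + (j0 + 1 + σ.t0)) = i + (σ.t0 + j0) + 1 + σ.t0 := by ring
  rw [e] at h4
  rw [r, le_div_iff₀ (σ.nu_u_pos _)]
  exact h4

lemma key0 : ∃ c K : ℝ, 0 < c ∧ 0 < K ∧ ∀ g m m' : ℕ, g + σ.t0 ≤ m → g + σ.t0 ≤ m' →
    σ.Btw ((σ.T ^ m) (σ.S (σ.u m'))) (σ.u (m + 1 + m')) (c - K / (g + 1)) (c + K / (g + 1)) := by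
  obtain ⟨B, K1, hB, hK1, h1⟩ := σ.first_var
  obtain ⟨K2, hK2, h2⟩ := σ.r_second
  obtain ⟨c0, n0, hc0, h3⟩ := σ.r_lower
  have rB : ∀ m m', σ.t0 ≤ m → σ.t0 ≤ m' → σ.r m m' ≤ B := by
    intro m m' hm hm'
    obtain ⟨a, b, -, hb, -, h⟩ := h1 0 m' hm'
    obtain ⟨j, rfl⟩ := Nat.exists_eq_add_of_le' hm
    have := h j
    rw [zero_add] at this
    exact (σ.r_mem this).2.trans hb
  have d1 : ∀ g m1 m2 m' : ℕ, g + σ.t0 ≤ m1 → g + σ.t0 ≤ m2 → σ.t0 ≤ m' →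
      σ.r m1 m' - σ.r m2 m' ≤ K1 / (g + 1) := by
    intro g m1 m2 m' hm1 hm2 hm'
    obtain ⟨a, b, -, -, hab, h⟩ := h1 g m' hm'
    obtain ⟨j1, rfl⟩ := Nat.exists_eq_add_of_le' hm1
    obtain ⟨j2, rfl⟩ := Nat.exists_eq_add_of_le' hm2
    linarith [(σ.r_mem (h j1)).2, (σ.r_mem (h j2)).1]
  have d2 : ∀ g m m' : ℕ, σ.t0 ≤ m → g + σ.t0 ≤ m' →
      |σ.r m m' - σ.r m (g + σ.t0)| ≤ K2 * B / (g + 1) := by
    intro g m m' hm hm'
    obtain ⟨j, rfl⟩ := Nat.exists_eq_add_of_le hm'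
    obtain ⟨p1, p2⟩ := h2 m g j
    have b1 := rB m (g + σ.t0 + j) hm (by omega)
    have b2 := rB m (g + σ.t0) hm (by omega)
    have hw : 0 ≤ K2 / (g + 1) := by positivity
    have e : K2 * B / (g + 1) = K2 / (g + 1) * B := by ring
    rw [abs_le, e]
    constructor <;> nlinarith [mul_le_mul_of_nonneg_left b1 hw, mul_le_mul_of_nonneg_left b2 hw]
  set K3 := K1 + 2 * (K2 * B) with hK3
  have d3 : ∀ g m1 m1' m2 m2' : ℕ, g + σ.t0 ≤ m1 → g + σ.t0 ≤ m1' → g + σ.t0 ≤ m2 → g + σ.t0 ≤ m2' →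
      σ.r m1 m1' - σ.r m2 m2' ≤ K3 / (g + 1) := by
    intro g m1 m1' m2 m2' a1 a2 a3 a4
    have e : K3 / (g + 1) = K1 / (g + 1) + 2 * (K2 * B / (g + 1)) := by rw [hK3]; ring
    have p1 := abs_le.mp (d2 g m1 m1' (by omega) a2)
    have p2 := abs_le.mp (d2 g m2 m2' (by omega) a4)
    have p3 := d1 g m1 m2 (g + σ.t0) a1 a3 (by omega)
    rw [e]; linarith [p1.2, p2.1]
  have hcauchy : CauchySeq fun n : ℕ => σ.r (n + σ.t0) (n + σ.t0) := by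
    refine cauchySeq_of_le_tendsto_0 (fun g : ℕ => K3 / (g + 1)) (fun n m N hn hm => ?_) ?_
    · rw [Real.dist_eq, abs_le]
      constructor
      · linarith [d3 N (m + σ.t0) (m + σ.t0) (n + σ.t0) (n + σ.t0) (by omega) (by omega) (by omega)
          (by omega)]
      · exact d3 N _ _ _ _ (by omega) (by omega) (by omega) (by omega)
    · simpa [div_eq_mul_inv] using
        (tendsto_one_div_add_atTop_nhds_zero_nat (𝕜 := ℝ)).const_mul K3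
  obtain ⟨c, hc⟩ := cauchySeq_tendsto_of_complete hcauchy
  have hcpos : c0 ≤ c := ge_of_tendsto hc (Filter.eventually_atTop.mpr
    ⟨n0, fun n hn => h3 _ _ (by omega) (by omega)⟩)
  have d4 : ∀ g m m' : ℕ, g + σ.t0 ≤ m → g + σ.t0 ≤ m' →
      σ.r m m' - K3 / (g + 1) ≤ c ∧ c ≤ σ.r m m' + K3 / (g + 1) := by
    intro g m m' hm hm'
    constructor
    · exact ge_of_tendsto hc (Filter.eventually_atTop.mpr ⟨g, fun n hn => by
        linarith [d3 g m m' (n + σ.t0) (n + σ.t0) hm hm' (by omega) (by omega)]⟩)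
    · exact le_of_tendsto hc (Filter.eventually_atTop.mpr ⟨g, fun n hn => by
        linarith [d3 g (n + σ.t0) (n + σ.t0) m m' (by omega) (by omega) hm hm']⟩)
  refine ⟨c, K1 + K3, by linarith, by positivity, fun g m m' hm hm' x => ?_⟩
  obtain ⟨a, b, -, -, hab, h⟩ := h1 g m' (by omega)
  obtain ⟨p1, p2⟩ := d4 g m m' hm hm'
  obtain ⟨j, rfl⟩ := Nat.exists_eq_add_of_le' hm
  obtain ⟨q1, q2⟩ := σ.r_mem (h j)
  obtain ⟨s1, s2⟩ := h j x
  have h0 := σ.u_nonneg (j + (g + σ.t0) + 1 + m') x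
  have e : (K1 + K3) / (g + 1) = K1 / (g + 1) + K3 / (g + 1) := by ring
  rw [e]
  constructor
  · refine le_trans ?_ s1
    gcongr; linarith
  · refine s2.trans ?_
    gcongr; linarith

open Classical in
/-- the product of operators along the windows `i, i+1, ..., i+m-1` -/
noncomputable def G (I : Finset ℕ) : ℕ → ℕ → E
  | _, 0 => σ.one
  | i, m + 1 => (if i ∈ I then σ.S else σ.T) (G I (i + 1) m)

lemma G_skip (I : Finset ℕ) (j : ℕ) : ∀ i m, (∀ x ∈ I, i ≤ x → i + j ≤ x) →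
    σ.G I i (j + m) = (σ.T ^ j) (σ.G I (i + j) m) := by
  induction j with
  | zero => intro i m _; simp
  | succ j ih =>
    intro i m h
    have hi : i ∉ I := fun hi => by have := h i hi le_rfl; omega
    have e : j + 1 + m = (j + m) + 1 := by ring
    rw [e, G, if_neg hi, ih (i + 1) m (fun x hx hix => by have := h x hx (by omega); omega),
      pow_succ', Module.End.mul_apply]
    congr 3; ring

lemma main : ∃ c : ℝ, 0 < c ∧ ∀ a : ℕ, ∃ K : ℝ, 0 < K ∧ ∀ (g : ℕ) (I : Finset ℕ) (i m : ℕ),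
    (I.filter (fun x => i ≤ x)).card = a →
    (∀ x ∈ I, i ≤ x → i + (g + σ.t0) ≤ x ∧ x + (g + σ.t0) < i + m) →
    (∀ x ∈ I, ∀ y ∈ I, i ≤ x → x < y → x + (g + σ.t0) < y) →
    σ.Btw (σ.G I i m) (σ.u m) (c ^ a - K / (g + 1)) (c ^ a + K / (g + 1)) := by
  obtain ⟨c, K0, hc, hK0, h0⟩ := σ.key0
  refine ⟨c, hc, fun a => ?_⟩
  induction a with
  | zero =>
    refine ⟨1, one_pos, fun g I i m hcard _ _ x => ?_⟩
    have he : ∀ x ∈ I, i ≤ x → i + m ≤ x := fun x hx hix => by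
      have : x ∈ I.filter (fun x => i ≤ x) := Finset.mem_filter.mpr ⟨hx, hix⟩
      rw [Finset.card_eq_zero.mp hcard] at this
      simp at this
    have := σ.G_skip I m i 0 he
    rw [add_zero] at this
    rw [this]
    have h1 := σ.u_nonneg m x
    have h2 : (0 : ℝ) ≤ 1 / (g + 1) := by positivity
    change _ ≤ σ.ev x (σ.u m) ∧ σ.ev x (σ.u m) ≤ _
    constructor <;> nlinarith
  | succ a ih =>
    obtain ⟨K, hK, ih⟩ := ih
    refine ⟨K * (c + K0) + c ^ a * K0, by positivity, fun g I i m hcard h1 h2 => ?_⟩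
    have hne : (I.filter (fun x => i ≤ x)).Nonempty := Finset.card_pos.mp (by omega)
    set y := (I.filter (fun x => i ≤ x)).min' hne with hy
    have hym : y ∈ I.filter (fun x => i ≤ x) := Finset.min'_mem _ _
    obtain ⟨hyI, hiy⟩ := Finset.mem_filter.mp hym
    have hymin : ∀ x ∈ I, i ≤ x → y ≤ x := fun x hx hix =>
      Finset.min'_le _ _ (Finset.mem_filter.mpr ⟨hx, hix⟩)
    obtain ⟨hy1, hy2⟩ := h1 y hyI hiy
    obtain ⟨j, hj⟩ := Nat.exists_eq_add_of_le hiy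
    obtain ⟨m', hm'⟩ : ∃ m', m = j + (m' + 1) := ⟨m - j - 1, by omega⟩
    have hcard' : (I.filter (fun x => y + 1 ≤ x)).card = a := by
      have : I.filter (fun x => y + 1 ≤ x) = (I.filter (fun x => i ≤ x)).erase y := by
        ext x
        simp only [Finset.mem_filter, Finset.mem_erase]
        constructor
        · rintro ⟨hx, h⟩; exact ⟨by omega, hx, by omega⟩
        · rintro ⟨hne, hx, h⟩; have := hymin x hx h; exact ⟨hx, by omega⟩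
      rw [this, Finset.card_erase_of_mem hym, hcard]; rfl
    have hb := ih g I (y + 1) m' hcard' (fun x hx hyx => by
      have := h2 y hyI x hx hiy (by omega)
      have := (h1 x hx (by omega)).2
      omega) (fun x hx z hz hyx hxz => h2 x hx z hz (by omega) hxz)
    have hG : σ.G I i m = (σ.T ^ j * σ.S) (σ.G I (y + 1) m') := by
      rw [hm', σ.G_skip I j i (m' + 1) (fun x hx hix => by have := hymin x hx hix; omega), ← hj, G,
        if_pos hyI, Module.End.mul_apply]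
    have hk := h0 g j m' (by omega) (by omega)
    have e : j + 1 + m' = m := by omega
    rw [e] at hk
    have hb' := hb.map (σ.TS_pos j)
    rw [← hG] at hb'
    intro x
    obtain ⟨p1, p2⟩ := hb' x
    obtain ⟨q1, q2⟩ := hk x
    simp only [Module.End.mul_apply] at p1 p2
    have hu := σ.u_nonneg m x
    have hL := σ.TS_pos j _ (σ.u_nonneg m') x
    simp only [Module.End.mul_apply] at hL
    set L := σ.ev x ((σ.T ^ j) (σ.S (σ.u m')))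
    set U := σ.ev x (σ.u m)
    have hg1 : (1 : ℝ) ≤ g + 1 := by have := Nat.cast_nonneg (α := ℝ) g; linarith
    have hε : K0 / (g + 1) ≤ K0 := div_le_self hK0.le hg1
    have hη : 0 ≤ K / (g + 1) := by positivity
    have hca : 0 ≤ c ^ a := by positivity
    have hLU : L ≤ (c + K0) * U := q2.trans (by gcongr)
    have e2 : (K * (c + K0) + c ^ a * K0) / (g + 1) = K / (g + 1) * (c + K0) + c ^ a * (K0 / (g + 1)) := by
      ring
    rw [e2, pow_succ]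
    have r1 := mul_le_mul_of_nonneg_left hLU hη
    have r2 := mul_le_mul_of_nonneg_left q1 hca
    have r3 := mul_le_mul_of_nonneg_left q2 hca
    constructor <;> nlinarith

end Sys

end Pool.Agent.P.MP_114da7_co
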