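import Pool.Agent.P.MP_114da7_co.Abstract

set_option autoImplicit false

namespace Pool.Agent.P.MP_114da7_co

namespace Sys

variable {E X : Type} [AddCommGroup E] [Module ℝ E] (σ : Sys E X)

open Classical in
/-- the operator word along the windows `i, ..., i+m-1` -/
noncomputable def op (I : Finset ℕ) : ℕ → ℕ → (E →ₗ[ℝ] E)
  | _, 0 => 1
  | i, m + 1 => (if i ∈ I then σ.S else σ.T) * op I (i + 1) m

lemma op_pos (I : Finset ℕ) (m : ℕ) : ∀ i, σ.IsPos (σ.op I i m) := by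
  induction m with
  | zero => intro i f hf; simpa [op] using hf
  | succ m ih =>
    intro i
    rw [op]
    split_ifs
    · exact IsPos.comp σ.S_pos (ih _)
    · exact IsPos.comp σ.T_pos (ih _)

lemma G_add (I : Finset ℕ) (l m : ℕ) : ∀ i, σ.G I i (l + m) = σ.op I i l (σ.G I (i + l) m) := by
  induction l with
  | zero => intro i; simp [op]
  | succ l ih =>
    intro i
    rw [add_right_comm, G, op, ih, Module.End.mul_apply]
    congr 3; ring

lemma op_congr {I I' : Finset ℕ} (m : ℕ) : ∀ i i', (∀ l < m, i + l ∈ I ↔ i' + l ∈ I') →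
    σ.op I i m = σ.op I' i' m := by
  induction m with
  | zero => intro i i' _; rfl
  | succ m ih =>
    intro i i' h
    have h0 : i ∈ I ↔ i' ∈ I' := by simpa using h 0 (by omega)
    rw [op, op, ih (i + 1) (i' + 1) fun l hl => by
      have := h (l + 1) (by omega)
      rwa [← add_assoc, ← add_assoc, add_right_comm i, add_right_comm i'] at this]
    by_cases hi : i ∈ I
    · rw [if_pos hi, if_pos (h0.mp hi)]
    · rw [if_neg hi, if_neg fun h' => hi (h0.mpr h')]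

lemma G_u (I : Finset ℕ) (i m : ℕ) (h : ∀ x ∈ I, x < i) : σ.G I i m = σ.u m := by
  have := σ.G_skip I m i 0 (fun x hx hix => absurd (h x hx) (by omega))
  rw [add_zero] at this
  rw [this]; rfl

lemma G_nonneg (I : Finset ℕ) (i m : ℕ) (x : X) : 0 ≤ σ.ev x (σ.G I i m) := by
  have := σ.G_add I m 0 i
  rw [add_zero] at this
  rw [this]
  exact σ.op_pos I m i _ (fun x => by rw [G, σ.ev_one]; norm_num) x

/-- intrinsic ultracontractivity on words -/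
def IU (t2 : ℕ) (C : ℝ) : Prop := ∀ (I : Finset ℕ) (i m : ℕ) (x : X),
  σ.ev x ((σ.T ^ t2) (σ.G I i m)) ≤ C * σ.nu ((σ.T ^ t2) (σ.G I i m))

/-- the error after a gap `g` -/
noncomputable def eps (C : ℝ) (g : ℕ) : ℝ := (C / σ.c1) ^ 2 * (1 - σ.δ) ^ (g / σ.t0)

lemma eps_nonneg (C : ℝ) (g : ℕ) : 0 ≤ σ.eps C g :=
  mul_nonneg (sq_nonneg _) (pow_nonneg (by linarith [σ.δ_le_one]) _)

variable {σ} {t2 : ℕ} {C : ℝ}

lemma IU.btw (H : σ.IU t2 C) (I : Finset ℕ) (i m : ℕ) :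
    σ.Btw ((σ.T ^ (σ.t0 + t2)) (σ.G I i m)) (σ.u σ.t0)
      (σ.c1 * σ.nu ((σ.T ^ t2) (σ.G I i m))) (C * σ.nu ((σ.T ^ t2) (σ.G I i m))) := by
  intro x
  rw [pow_add, Module.End.mul_apply]
  refine ⟨σ.A1 _ (σ.pos_pow t2 _ (σ.G_nonneg I i m)) x, ?_⟩
  have := (σ.pos_pow σ.t0).mono (f := (σ.T ^ t2) (σ.G I i m)) (g := σ.one) (a := 1)
    (b := C * σ.nu ((σ.T ^ t2) (σ.G I i m))) (fun x => by simpa [σ.ev_one] using H I i m x) x
  simpa [u] using this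

lemma IU.first (H : σ.IU t2 C) (hC : 0 < C) (g : ℕ) (I : Finset ℕ) (i l M : ℕ) :
    ∃ a b : ℝ, 0 ≤ a ∧ b ≤ (1 + σ.eps C g) * a ∧ ∀ m, g + (σ.t0 + t2) ≤ m →
      σ.Btw ((σ.T ^ m) (σ.G I i l)) (σ.u (m + M)) a b := by
  have h1 := H.btw I i l
  have h2 := H.btw ∅ 0 M
  have e0 : σ.G ∅ 0 M = σ.u M := σ.G_u ∅ 0 M (by simp)
  rw [e0, pow_u, pow_u] at h2
  have hn := σ.nu_u_pos (t2 + M)
  have hb : 0 ≤ σ.nu ((σ.T ^ t2) (σ.G I i l)) := σ.nu_pos _ (σ.pos_pow t2 _ (σ.G_nonneg I i l))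
  have hc := σ.c1_pos
  set nb := σ.nu ((σ.T ^ t2) (σ.G I i l))
  set n0 := σ.nu (σ.u (t2 + M))
  have h3 : σ.Btw ((σ.T ^ (σ.t0 + t2)) (σ.G I i l)) (σ.u (σ.t0 + t2 + M))
      (σ.c1 * nb / (C * n0)) ((C / σ.c1) ^ 2 * (σ.c1 * nb / (C * n0))) := by
    intro x
    obtain ⟨p1, p2⟩ := h1 x
    obtain ⟨q1, q2⟩ := h2 x
    constructor
    · refine le_trans ?_ p1
      calc _ ≤ σ.c1 * nb / (C * n0) * (C * n0 * σ.ev x (σ.u σ.t0)) := by gcongr
        _ = _ := by field_simp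
    · refine p2.trans ?_
      calc _ = (C / σ.c1) ^ 2 * (σ.c1 * nb / (C * n0)) * (σ.c1 * n0 * σ.ev x (σ.u σ.t0)) := by
            field_simp
        _ ≤ _ := by gcongr
  obtain ⟨a, b, p1, -, p3, p4⟩ := σ.contract_iter h3 (g / σ.t0)
  have h0 : 0 ≤ σ.c1 * nb / (C * n0) := by positivity
  refine ⟨a, b, h0.trans p1, ?_, fun m hm => ?_⟩
  · have hd : 0 ≤ (1 - σ.δ) ^ (g / σ.t0) := pow_nonneg (by linarith [σ.δ_le_one]) _
    have : (C / σ.c1) ^ 2 * (σ.c1 * nb / (C * n0)) - σ.c1 * nb / (C * n0) ≤ (C / σ.c1) ^ 2 * a := by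
      have := mul_le_mul_of_nonneg_left p1 (sq_nonneg (C / σ.c1))
      linarith
    have := mul_le_mul_of_nonneg_left this hd
    unfold eps
    nlinarith
  · have hle := Nat.div_mul_le_self g σ.t0
    obtain ⟨j, rfl⟩ : ∃ j, m = j + (g / σ.t0 * σ.t0 + (σ.t0 + t2)) :=
      ⟨m - (g / σ.t0 * σ.t0 + (σ.t0 + t2)), by omega⟩
    have h5 := p4.map (σ.pos_pow j)
    rw [pow_u, ← Module.End.mul_apply (σ.T ^ (g / σ.t0 * σ.t0)), ← pow_add, ← Module.End.mul_apply,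
      ← pow_add] at h5
    have e : j + (g / σ.t0 * σ.t0 + (σ.t0 + t2 + M)) = j + (g / σ.t0 * σ.t0 + (σ.t0 + t2)) + M := by
      ring
    rwa [e] at h5

variable (σ)

/-- the ratio for a block -/
noncomputable def rr (J : Finset ℕ) (i l m m' : ℕ) : ℝ :=
  σ.nu ((σ.T ^ m) (σ.op J i l (σ.u m'))) / σ.nu (σ.u (m + (l + m')))

lemma rr_nonneg (J : Finset ℕ) (i l m m' : ℕ) : 0 ≤ σ.rr J i l m m' :=
  div_nonneg (σ.nu_pos _ (σ.pos_pow m _ (σ.op_pos J l i _ (σ.u_nonneg m')))) (σ.nu_u_pos _).le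

variable {σ}

lemma rr_mem {J : Finset ℕ} {i l m m' : ℕ} {a b : ℝ}
    (h : σ.Btw ((σ.T ^ m) (σ.op J i l (σ.u m'))) (σ.u (m + (l + m'))) a b) :
    a ≤ σ.rr J i l m m' ∧ σ.rr J i l m m' ≤ b := by
  obtain ⟨h1, h2⟩ := h.nu
  have := σ.nu_u_pos (m + (l + m'))
  exact ⟨by rw [rr, le_div_iff₀ this]; exact h1, by rw [rr, div_le_iff₀ this]; exact h2⟩

lemma IU.second (H : σ.IU t2 C) (hC : 0 < C) (g : ℕ) (J : Finset ℕ) (i l m m' : ℕ)
    (hm : g + (σ.t0 + t2) ≤ m') :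
    σ.rr J i l m m' ≤ (1 + σ.eps C g) * σ.rr J i l m (g + (σ.t0 + t2)) ∧
    σ.rr J i l m (g + (σ.t0 + t2)) ≤ (1 + σ.eps C g) * σ.rr J i l m m' := by
  obtain ⟨j, rfl⟩ := Nat.exists_eq_add_of_le hm
  obtain ⟨a, b, ha, hb, h⟩ := H.first hC g ∅ 0 j 0
  have h1 := h _ le_rfl
  rw [σ.G_u ∅ 0 j (by simp), pow_u, add_zero] at h1
  set N := g + (σ.t0 + t2)
  have hP : σ.IsPos (σ.T ^ m * σ.op J i l) := (σ.pos_pow m).comp (σ.op_pos J l i)
  obtain ⟨p1, p2⟩ := (h1.map hP).nu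
  obtain ⟨q1, q2⟩ := (h1.map (σ.pos_pow (m + l))).nu
  rw [pow_u, pow_u, add_assoc m, add_assoc m] at q1 q2
  simp only [Module.End.mul_apply] at p1 p2
  have n1 := σ.nu_u_pos (m + (l + (N + j)))
  have n2 := σ.nu_u_pos (m + (l + N))
  have s1 := σ.nu_pos _ (hP _ (σ.u_nonneg (N + j)))
  have s2 := σ.nu_pos _ (hP _ (σ.u_nonneg N))
  simp only [Module.End.mul_apply] at s1 s2
  unfold rr
  set A1 := σ.nu ((σ.T ^ m) (σ.op J i l (σ.u (N + j))))
  set A2 := σ.nu ((σ.T ^ m) (σ.op J i l (σ.u N)))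
  set U1 := σ.nu (σ.u (m + (l + (N + j))))
  set U2 := σ.nu (σ.u (m + (l + N)))
  set w := 1 + σ.eps C g with hw
  have hw0 : 0 ≤ w := by linarith [σ.eps_nonneg C g]
  constructor
  · rw [← mul_div_assoc, div_le_div_iff₀ n1 n2]
    calc A1 * U2 ≤ b * A2 * U2 := by gcongr
      _ ≤ w * a * A2 * U2 := by gcongr
      _ = w * A2 * (a * U2) := by ring
      _ ≤ w * A2 * U1 := by gcongr
  · rw [← mul_div_assoc, div_le_div_iff₀ n2 n1]
    calc A2 * U1 ≤ A2 * (b * U2) := by gcongr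
      _ ≤ A2 * (w * a * U2) := by gcongr
      _ = w * (a * A2) * U2 := by ring
      _ ≤ w * A1 * U2 := by gcongr

lemma IU.first' (H : σ.IU t2 C) (hC : 0 < C) (g : ℕ) {J : Finset ℕ} {i l : ℕ}
    (hJ : ∀ x ∈ J, x < i + l) (m' : ℕ) :
    ∃ a b : ℝ, 0 ≤ a ∧ b ≤ (1 + σ.eps C g) * a ∧ ∀ m, g + (σ.t0 + t2) ≤ m →
      σ.Btw ((σ.T ^ m) (σ.op J i l (σ.u m'))) (σ.u (m + (l + m'))) a b := by
  have := H.first hC g J i (l + m') (l + m')
  rwa [σ.G_add, σ.G_u J _ _ hJ] at this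

lemma IU.third (H : σ.IU t2 C) (hC : 0 < C) (g : ℕ) {J : Finset ℕ} {i l : ℕ}
    (hJ : ∀ x ∈ J, x < i + l) {m1 m1' m2 m2' : ℕ} (a1 : g + (σ.t0 + t2) ≤ m1)
    (a2 : g + (σ.t0 + t2) ≤ m1') (a3 : g + (σ.t0 + t2) ≤ m2) (a4 : g + (σ.t0 + t2) ≤ m2') :
    σ.rr J i l m1 m1' ≤ (1 + σ.eps C g) ^ 3 * σ.rr J i l m2 m2' := by
  obtain ⟨a, b, -, hb, h⟩ := H.first' hC g hJ (g + (σ.t0 + t2))
  have p1 := (H.second hC g J i l m1 m1' a2).1
  have p2 := (H.second hC g J i l m2 m2' a4).2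
  have p3 := (rr_mem (h m1 a1)).2
  have p4 := (rr_mem (h m2 a3)).1
  have hw0 : 0 ≤ 1 + σ.eps C g := by linarith [σ.eps_nonneg C g]
  set w := 1 + σ.eps C g
  calc _ ≤ w * σ.rr J i l m1 (g + (σ.t0 + t2)) := p1
    _ ≤ w * (w * a) := by gcongr; exact p3.trans hb
    _ ≤ w * (w * (w * σ.rr J i l m2 m2')) := by gcongr; exact p4.trans p2
    _ = _ := by ring

variable (σ)

/-- the constant of a block -/
noncomputable def cc (J : Finset ℕ) : ℝ :=
  Filter.limsup (fun n => σ.rr J (sInf (J : Set ℕ)) (J.sup id + 1 - sInf (J : Set ℕ)) n n)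
    Filter.atTop

variable {σ}

lemma lt_end {J : Finset ℕ} {x : ℕ} (hx : x ∈ J) :
    x < sInf (J : Set ℕ) + (J.sup id + 1 - sInf (J : Set ℕ)) := by
  have : x ≤ J.sup id := Finset.le_sup (f := id) hx
  omega

lemma IU.cc_cmp (H : σ.IU t2 C) (hC : 0 < C) (J : Finset ℕ) :
    (∀ A : ℝ, (∀ᶠ n in Filter.atTop,
      A ≤ σ.rr J (sInf (J : Set ℕ)) (J.sup id + 1 - sInf (J : Set ℕ)) n n) → A ≤ σ.cc J) ∧
    (∀ B : ℝ, (∀ᶠ n in Filter.atTop,
      σ.rr J (sInf (J : Set ℕ)) (J.sup id + 1 - sInf (J : Set ℕ)) n n ≤ B) → σ.cc J ≤ B) := by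
  constructor
  · intro A hA
    refine Filter.le_limsup_of_frequently_le hA.frequently ?_
    exact ⟨_, Filter.eventually_map.mpr (Filter.eventually_atTop.mpr ⟨0 + (σ.t0 + t2), fun n hn =>
      H.third hC 0 (fun x hx => lt_end hx) hn hn le_rfl le_rfl⟩)⟩
  · intro B hB
    refine Filter.limsup_le_of_le ?_ hB
    exact Filter.isCoboundedUnder_le_of_le _ fun n => σ.rr_nonneg _ _ _ _ _

lemma IU.cc_nonneg (H : σ.IU t2 C) (hC : 0 < C) (J : Finset ℕ) : 0 ≤ σ.cc J :=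
  (H.cc_cmp hC J).1 0 (Filter.Eventually.of_forall fun _ => σ.rr_nonneg _ _ _ _ _)

lemma IU.key (H : σ.IU t2 C) (hC : 0 < C) (g : ℕ) (J : Finset ℕ) {m m' : ℕ}
    (hm : g + (σ.t0 + t2) ≤ m) (hm' : g + (σ.t0 + t2) ≤ m') :
    σ.Btw ((σ.T ^ m) (σ.op J (sInf (J : Set ℕ)) (J.sup id + 1 - sInf (J : Set ℕ)) (σ.u m')))
      (σ.u (m + (J.sup id + 1 - sInf (J : Set ℕ) + m')))
      (σ.cc J / (1 + σ.eps C g) ^ 4) (σ.cc J * (1 + σ.eps C g) ^ 4) := by
  have hJ : ∀ x ∈ J, _ := fun x hx => lt_end hx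
  obtain ⟨a, b, -, hb, h⟩ := H.first' hC g hJ m'
  obtain ⟨p1, p2⟩ := rr_mem (h m hm)
  have hw0 : 0 < 1 + σ.eps C g := by linarith [σ.eps_nonneg C g]
  have q1 := (H.cc_cmp hC J).2 _ (Filter.eventually_atTop.mpr ⟨g + (σ.t0 + t2), fun n hn =>
    H.third hC g hJ hn hn hm hm'⟩)
  have q2 := (H.cc_cmp hC J).1 (σ.rr J (sInf (J : Set ℕ)) (J.sup id + 1 - sInf (J : Set ℕ)) m m' /
    (1 + σ.eps C g) ^ 3) (Filter.eventually_atTop.mpr ⟨g + (σ.t0 + t2), fun n hn => by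
      rw [div_le_iff₀' (by positivity)]; exact H.third hC g hJ hm hm' hn hn⟩)
  rw [div_le_iff₀' (by positivity)] at q2
  set w := 1 + σ.eps C g
  intro x
  obtain ⟨s1, s2⟩ := h m hm x
  have h0 := σ.u_nonneg (m + (J.sup id + 1 - sInf (J : Set ℕ) + m')) x
  constructor
  · refine le_trans (mul_le_mul_of_nonneg_right ?_ h0) s1
    rw [div_le_iff₀' (by positivity)]
    calc _ ≤ _ := q1
      _ ≤ w ^ 3 * (w * a) := by gcongr; exact p2.trans hb
      _ = _ := by ring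
  · refine s2.trans (mul_le_mul_of_nonneg_right ?_ h0)
    calc b ≤ w * a := hb
      _ ≤ w * (w ^ 3 * σ.cc J) := by gcongr; exact p1.trans q2
      _ = _ := by ring

lemma IU.cc_single (H : σ.IU t2 C) (hC : 0 < C) (x : ℕ) : 0 < σ.cc {x} := by
  obtain ⟨c0, n0, hc0, h⟩ := σ.r_lower
  refine hc0.trans_le ((H.cc_cmp hC {x}).1 c0 (Filter.eventually_atTop.mpr ⟨n0 + σ.t0, fun n hn => ?_⟩))
  have := h n n (by omega) (by omega)
  simpa [rr, r, op, add_assoc] using this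

lemma cc_shift (J : Finset ℕ) (t : ℕ) : σ.cc (J.image (· + t)) = σ.cc J := by
  rcases J.eq_empty_or_nonempty with rfl | hJ
  · simp
  have hm : sInf (J : Set ℕ) ∈ J := Nat.sInf_mem (Finset.coe_nonempty.mpr hJ)
  have e1 : sInf ((J.image (· + t) : Finset ℕ) : Set ℕ) = sInf (J : Set ℕ) + t := by
    apply le_antisymm
    · exact Nat.sInf_le (Finset.mem_coe.mpr (Finset.mem_image_of_mem _ hm))
    · have := Nat.sInf_mem (Finset.coe_nonempty.mpr (hJ.image (· + t)))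
      obtain ⟨y, hy, e⟩ := Finset.mem_image.mp this
      have := Nat.sInf_le (Finset.mem_coe.mpr hy)
      omega
  have e2 : (J.image (· + t)).sup id = J.sup id + t := by
    apply le_antisymm
    · refine Finset.sup_le fun x hx => ?_
      obtain ⟨y, hy, rfl⟩ := Finset.mem_image.mp hx
      exact Nat.add_le_add_right (Finset.le_sup (f := id) hy) t
    · obtain ⟨y, hy, e⟩ := Finset.exists_mem_eq_sup J hJ id
      rw [e]
      exact Finset.le_sup (f := id) (Finset.mem_image_of_mem (· + t) hy)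
  have e3 : J.sup id + t + 1 - (sInf (J : Set ℕ) + t) = J.sup id + 1 - sInf (J : Set ℕ) := by omega
  unfold cc rr
  rw [e1, e2, e3, σ.op_congr (I' := J) _ _ (sInf (J : Set ℕ)) fun l _ => ?_]
  simp only [Finset.mem_image]
  constructor
  · rintro ⟨y, hy, e⟩
    rwa [show sInf (J : Set ℕ) + l = y by omega]
  · exact fun h => ⟨_, h, by omega⟩

lemma IU.blocks (H : σ.IU t2 C) (hC : 0 < C) (g : ℕ) (I : Finset ℕ) (r : ℕ) :
    ∀ (J : Fin r → Finset ℕ) (i m : ℕ), (∀ a, (J a).Nonempty) →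
    (∀ x, i ≤ x → (x ∈ I ↔ ∃ a, x ∈ J a)) →
    (∀ a, ∀ x ∈ J a, i + (g + (σ.t0 + t2)) ≤ x ∧ x + (g + (σ.t0 + t2)) < i + m) →
    (∀ a b, a < b → ∀ x ∈ J a, ∀ y ∈ J b, x + (g + (σ.t0 + t2)) < y) →
    σ.Btw (σ.G I i m) (σ.u m) ((∏ a, σ.cc (J a)) / ((1 + σ.eps C g) ^ 4) ^ r)
      ((∏ a, σ.cc (J a)) * ((1 + σ.eps C g) ^ 4) ^ r) := by
  induction r with
  | zero =>
    intro J i m _ hI _ _ x
    have := σ.G_skip I m i 0 (fun x hx hix => by simpa using (hI x hix).mp hx)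
    rw [add_zero] at this
    rw [this]
    simp [u, G]
  | succ r ih =>
    intro J i m hne hI h1 h2
    set lo := sInf (J 0 : Set ℕ) with hlo
    set hi := (J 0).sup id with hhi
    have hlom : lo ∈ J 0 := Nat.sInf_mem (Finset.coe_nonempty.mpr (hne 0))
    have hhim : hi ∈ J 0 := by
      obtain ⟨y, hy, e⟩ := Finset.exists_mem_eq_sup (J 0) (hne 0) id
      rw [hhi, e]; exact hy
    have hlo' : ∀ x ∈ J 0, lo ≤ x := fun x hx => Nat.sInf_le (Finset.mem_coe.mpr hx)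
    have hhi' : ∀ x ∈ J 0, x ≤ hi := fun x hx => Finset.le_sup (f := id) hx
    have hs : ∀ a : Fin r, ∀ y ∈ J a.succ, hi + (g + (σ.t0 + t2)) < y :=
      fun a y hy => h2 0 a.succ (Fin.succ_pos a) hi hhim y hy
    have b1 := h1 0 lo hlom
    have b2 := h1 0 hi hhim
    have b3 := hlo' hi hhim
    obtain ⟨j, hj⟩ : ∃ j, lo = i + j := ⟨lo - i, by omega⟩
    obtain ⟨m', hm'⟩ : ∃ m', m = j + (hi + 1 - lo + m') := ⟨m - j - (hi + 1 - lo), by omega⟩
    have hb := ih (fun a => J a.succ) (hi + 1) m' (fun a => hne _) (fun x hx => by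
      rw [hI x (by omega), Fin.exists_fin_succ]
      exact ⟨fun h => h.resolve_left fun h0 => by have := hhi' x h0; omega, Or.inr⟩)
      (fun a x hx => by
        have := hs a x hx
        have := (h1 _ x hx).2
        omega)
      (fun a b hab => h2 _ _ (Fin.succ_lt_succ_iff.mpr hab))
    have hG : σ.G I i m = (σ.T ^ j * σ.op (J 0) lo (hi + 1 - lo)) (σ.G I (hi + 1) m') := by
      rw [hm', σ.G_skip I j i _ (fun x hx hix => by
        rcases Fin.exists_fin_succ.mp ((hI x hix).mp hx) with h0 | ⟨a, ha⟩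
        · have := hlo' x h0; omega
        · have := hs a x ha; omega), ← hj, σ.G_add, Module.End.mul_apply,
        σ.op_congr (I' := J 0) _ lo lo fun l hl => ?_, show lo + (hi + 1 - lo) = hi + 1 by omega]
      rw [hI _ (by omega), Fin.exists_fin_succ]
      exact ⟨fun h => h.resolve_right fun ⟨a, ha⟩ => by have := hs a _ ha; omega, Or.inl⟩
    have hk := H.key hC g (J 0) (m := j) (m' := m') (by omega) (by omega)
    rw [← hlo, ← hhi, ← hm'] at hk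
    have hb' := hb.map ((σ.pos_pow j).comp (σ.op_pos (J 0) (hi + 1 - lo) lo))
    rw [← hG] at hb'
    have hw0 : 0 < (1 + σ.eps C g) ^ 4 := by have := σ.eps_nonneg C g; positivity
    have hp : 0 ≤ ∏ a : Fin r, σ.cc (J a.succ) := Finset.prod_nonneg fun a _ => H.cc_nonneg hC _
    intro x
    obtain ⟨p1, p2⟩ := hb' x
    obtain ⟨q1, q2⟩ := hk x
    simp only [Module.End.mul_apply] at p1 p2
    rw [Fin.prod_univ_succ]
    set w := (1 + σ.eps C g) ^ 4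
    constructor
    · refine le_trans (le_of_eq ?_) ((mul_le_mul_of_nonneg_left q1 (by positivity)).trans p1)
      rw [pow_succ]; field_simp
    · refine (p2.trans (mul_le_mul_of_nonneg_left q2 (by positivity))).trans (le_of_eq ?_)
      rw [pow_succ]; ring

lemma eps_le (σ : Sys E X) (C : ℝ) : ∃ K ρ : ℝ, 0 ≤ K ∧ 0 < ρ ∧ ρ < 1 ∧
    ∀ g, (1 + σ.eps C g) ^ 4 ≤ 1 + K * ρ ^ g := by
  have hδ := σ.δ_pos
  have hδ1 := σ.δ_le_one
  have ht : (1 : ℝ) ≤ σ.t0 := by exact_mod_cast σ.t0_pos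
  set η := min σ.δ (1 / 2) with hη
  have h0 : 0 < η := lt_min hδ (by norm_num)
  have h1 : η ≤ σ.δ := min_le_left _ _
  have h2 : η ≤ 1 / 2 := min_le_right _ _
  have h3 : η / σ.t0 ≤ η := div_le_self h0.le ht
  have h4 : 0 < η / σ.t0 := by positivity
  set D := (C / σ.c1) ^ 2 with hD
  have hD0 : 0 ≤ D := sq_nonneg _
  refine ⟨2 * D * (4 + 6 * D + 4 * D ^ 2 + D ^ 3), 1 - η / σ.t0, by positivity, by linarith,
    by linarith, fun g => ?_⟩
  have h5 : 1 - η ≤ (1 - η / σ.t0) ^ σ.t0 := by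
    have := one_add_mul_le_pow (a := -(η / σ.t0)) (by linarith) σ.t0
    have e : (σ.t0 : ℝ) * -(η / σ.t0) = -η := by field_simp
    rw [e] at this
    simpa [sub_eq_add_neg] using this
  have h6 : (1 - σ.δ) ^ (g / σ.t0) ≤ 2 * (1 - η / σ.t0) ^ g := by
    have a1 : (1 - σ.δ) ^ (g / σ.t0) ≤ (1 - η) ^ (g / σ.t0) :=
      pow_le_pow_left₀ (by linarith) (by linarith) _
    have a2 : (1 - η) ^ (g / σ.t0 + 1) ≤ (1 - η / σ.t0) ^ g := by
      refine (pow_le_pow_left₀ (by linarith) h5 _).trans ?_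
      rw [← pow_mul]
      exact pow_le_pow_of_le_one (by linarith) (by linarith) (Nat.lt_mul_div_succ g σ.t0_pos).le
    have a3 : 0 ≤ (1 - η) ^ (g / σ.t0) := pow_nonneg (by linarith) _
    rw [pow_succ] at a2
    nlinarith
  have h7 : σ.eps C g ≤ D := mul_le_of_le_one_right hD0 (pow_le_one₀ (by linarith) (by linarith))
  have h8 : σ.eps C g ≤ D * (2 * (1 - η / σ.t0) ^ g) := mul_le_mul_of_nonneg_left h6 hD0
  have h9 := σ.eps_nonneg C g
  have h10 := h9.trans h8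
  set e := σ.eps C g
  calc (1 + e) ^ 4 = 1 + e * (4 + 6 * e + 4 * e ^ 2 + e ^ 3) := by ring
    _ ≤ 1 + D * (2 * (1 - η / σ.t0) ^ g) * (4 + 6 * D + 4 * D ^ 2 + D ^ 3) := by gcongr
    _ = _ := by ring

end Sys

end Pool.Agent.P.MP_114da7_co
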