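import Pool.Agent.P.MP_114da7_co.ClRev

set_option autoImplicit false

namespace Pool.Agent.P.MP_114da7_co

open MeasureTheory Set

variable {s : ℕ}

namespace Pat

variable (ρ : Pat s)

lemma RR_word (σ : Sys (V s) Om) (h1 : σ.one = oneV s) (h2 : σ.T = ρ.T) (h3 : σ.S = ρ.S)
    (I : Finset ℕ) (i j m : ℕ) {B : Set Om} (hB : Adm s B) (Mf : ℕ → Prop) (hM : ∀ l, s ≤ l → ¬ Mf l)
    (hB' : ∀ l < s, B = {y | Mf l → y 0 ∈ MM}) :
    RR _ (ρ.adm_Aof (fun l => s + j ≤ l ∧ i + (l - (s + j)) ∈ I) Mf) 0 (s + (j + m)) =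
      (Q hB ^ s) ((ρ.T ^ j) (σ.G I i m)) := by
  rw [RR_pow _ hB s _ 0 fun l _ hl => ?_, RR_pow _ ρ.adm_nocc j _ _ fun l p1 p2 => ?_,
    RR_G ρ σ h1 h2 h3 _ I m i _ fun l => ⟨fun p => ?_, fun p => ?_⟩]
  · rfl
  · ext y; simp [Aof, p, hM (s + j + l) (by omega), show s ≤ s + j + l by omega]
  · ext y; simp [Aof, p, hM (s + j + l) (by omega), show s ≤ s + j + l by omega]
  · ext y
    simp [Aof, hM l (by omega), show s ≤ l by omega, show ¬ s + j ≤ l by omega]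
  · ext y; simp [Aof, hB' l (by omega), show ¬ s ≤ l by omega]

lemma IUaux : ∃ (t2 : ℕ) (C : ℝ), 0 < C ∧ ∀ σ : Sys (V s) Om, σ.one = oneV s → σ.T = ρ.T →
    σ.S = ρ.S → ∀ I i m x,
      ((ρ.T ^ t2) (σ.G I i m)).1 x ≤ C * nuM s ((ρ.T ^ t2) (σ.G I i m)) := by
  obtain ⟨ρ', τ, d1, d2, d3⟩ := ρ.exists_dual
  obtain ⟨j, c, hc, hL⟩ := ρ'.L1
  have hν := nuM_one (s := s)
  refine ⟨s + j, 1 / (c * nuM s (oneV s)), by positivity, fun σ h1 h2 h3 I i m x => ?_⟩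
  have hb : ∀ x, 0 ≤ (σ.G I i m).1 x := by
    rw [← RR_G ρ σ h1 h2 h3 (A := fun l => if l ∈ I then ρ.occ else ρ.occᶜ) (fun l => by
      split_ifs; exacts [ρ.adm_occ, ρ.adm_nocc]) I m i i fun l => ⟨fun p => if_pos p, fun p => if_neg p⟩]
    intro x; rw [RR_eq]; exact measureReal_nonneg
  set I' : ℕ → Prop := fun l => l < s + m ∧ i + (s + m - 1 - l) ∈ I with hI'
  have e1 := ρ.RR_word σ h1 h2 h3 I i j m (adm_first MeasurableSet.univ) (fun _ => False) (by simp)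
    (by simp)
  have e2 := ρ.RR_word σ h1 h2 h3 I i (s + j) m (adm_first meas_MM) (fun l => l < s) (by simp)
    (fun l hl => by simp [hl])
  have r1 := ρ.RR_rev d1 d2 d3 (I := fun l => s + j ≤ l ∧ i + (l - (s + j)) ∈ I) (Mf := fun _ => False)
    (I' := I') (Mf' := fun _ => False) (n := s + (j + m)) (fun l l' p1 p2 p3 => by
      rw [hI']
      exact and_congr (by omega) (by rw [show l - (s + j) = s + m - 1 - l' by omega])) (by simp)
  have r2 := ρ.RR_rev d1 d2 d3 (I := fun l => s + (s + j) ≤ l ∧ i + (l - (s + (s + j))) ∈ I)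
    (Mf := fun l => l < s) (I' := I') (Mf' := fun l => s + m + j ≤ l) (n := s + (s + j + m))
    (fun l l' p1 p2 p3 => by
      rw [hI']
      exact and_congr (by omega) (by rw [show l - (s + (s + j)) = s + m - 1 - l' by omega]))
    (fun l l' p => by omega)
  have cmp := RR_mono (ρ'.adm_Aof I' fun _ => False) (ρ'.adm_Aof I' fun l => s + m + j ≤ l)
    (c * nuM s (oneV s)) 1 (s + m) (j + 0) (j + (s + 0)) 0
    (fun l hl => by ext y; simp [Aof, show ¬ s + m + j ≤ l by omega]) (fun x => by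
      rw [RR_pow _ ρ'.adm_nocc j _ _ fun l p1 p2 => ?_, RR_pow _ ρ'.adm_nocc j _ _ fun l p1 p2 => ?_,
        RR_pow _ ρ'.adm_AM s _ _ fun l p1 p2 => ?_, one_mul]
      · exact hL (oneV s) (by simp) x
      · ext y
        simp [Aof, AM, hI', show s ≤ l by omega, show ¬ l < s + m by omega, show s + m + j ≤ l by omega]
      · ext y
        simp [Aof, hI', show s ≤ l by omega, show ¬ l < s + m by omega, show ¬ s + m + j ≤ l by omega]
      · ext y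
        simp [Aof, hI', show s ≤ l by omega, show ¬ l < s + m by omega]) x1
  rw [show s + m + (j + 0) = s + (j + m) by ring, show s + m + (j + (s + 0)) = s + (s + j + m) by ring,
    ← r1, ← r2, e1, e2, one_mul, ← QF_FM s 0, ← nuM_apply] at cmp
  rw [one_div, ← div_eq_inv_mul, le_div_iff₀' (by positivity)]
  refine le_trans (mul_le_mul_of_nonneg_left ?_ (by positivity)) cmp
  rw [pow_add, Module.End.mul_apply]
  exact (pow_le_P _ _ (ρ.Tpow_nonneg j _ hb) s x).trans (P_const _ le_rfl x x1).le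

lemma exists_sys' : ∃ (σ : Sys (V s) Om) (t2 : ℕ) (C : ℝ), σ.ev = evV s ∧ σ.one = oneV s ∧
    σ.T = ρ.T ∧ σ.S = ρ.S ∧ 0 < C ∧ σ.IU t2 C := by
  obtain ⟨σ, h0, h1, h2, h3⟩ := ρ.exists_sys
  obtain ⟨t, c, hc, hL⟩ := ρ.L1
  obtain ⟨t2, C, hC, hI⟩ := ρ.IUaux
  have hu : ∀ N, σ.u N = ρ.u N := fun N => by rw [Sys.u, h1, h2]; rfl
  have hA2 : ∀ N x, (ρ.u (t2 + N)).1 x ≤ C * nuM s (ρ.u (t2 + N)) := fun N x => by
    have := hI σ h1 h2 h3 ∅ 0 N x
    rwa [σ.G_u _ _ _ (by simp), hu, pow_u] at this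
  have νmono : ∀ N j, nuM s (ρ.u (N + j)) ≤ nuM s (ρ.u N) := fun N j => by
    have := QF_mono FM (ρ.u (N + j)) (ρ.u N) 1 1 s 0 x1 fun z _ => by
      simpa using ρ.u_add_le N j z
    rwa [one_mul, one_mul] at this
  have upos : ∀ N, 0 < (ρ.u N).1 x1 := fun N => by
    obtain ⟨b, hb, h3⟩ := ρ.u_lower N (a := 1) one_pos le_rfl
    exact hb.trans_le (h3 x1 le_rfl)
  have νpos : ∀ N, 0 < nuM s (ρ.u N) := fun N => by
    have h5 := νmono N t2
    rw [add_comm] at h5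
    exact (pos_of_mul_pos_right ((upos _).trans_le (hA2 N x1)) hC.le).trans_le h5
  have hn0 := νpos t2
  refine ⟨⟨evV s, oneV s, ρ.T, ρ.S, nuM s, t + s, c, C + 1 / nuM s (ρ.u t2),
    by have := ρ.hs; omega, hc, by positivity, fun _ => rfl, fun f hf => Q_nonneg ρ.adm_nocc f hf,
    fun f hf => Q_nonneg ρ.adm_occ f hf, nuM_nonneg,
    fun x => Q_le_of_le ρ.adm_nocc _ x zero_le_one (by simp),
    fun x => Q_le_of_le ρ.adm_occ _ x zero_le_one (by simp),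
    fun g hg x => ?_, fun N x => ?_, νpos, fun m => ?_⟩, t2, C, rfl, rfl, rfl, rfl, hC,
    fun I i m x => hI _ rfl rfl rfl I i m x⟩
  · have hν := nuM_nonneg g hg
    have h4 := ρ.Tpow_mono t ((Q ρ.adm_AM ^ s) g) ((ρ.T ^ s) g) 1 1 (fun x => by
      rw [one_mul, one_mul]
      exact pow_le_pow_sub ρ.adm_AM ρ.adm_nocc (fun y hy => hy.1) g hg s x) x
    rw [one_mul, one_mul] at h4
    rw [pow_add, Module.End.mul_apply (ρ.T ^ t) _ g]
    refine le_trans ?_ ((hL g hg x).trans h4)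
    rw [← pow_add]
    exact mul_le_mul_of_nonneg_left (ρ.u_add_le t s x) (by positivity)
  · change (ρ.u N).1 x ≤ _ * nuM s (ρ.u N)
    have h4 := νpos N
    by_cases hN : t2 ≤ N
    · obtain ⟨j, rfl⟩ := Nat.exists_eq_add_of_le hN
      refine (hA2 j x).trans ?_
      gcongr
      exact le_add_of_nonneg_right (by positivity)
    · obtain ⟨j, hj⟩ := Nat.exists_eq_add_of_le (not_le.mp hN).le
      have h5 := νmono N j
      rw [← hj] at h5
      refine (ρ.u_le_one N x).trans ?_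
      have h6 : 1 ≤ 1 / nuM s (ρ.u t2) * nuM s (ρ.u N) := by
        rw [one_div, ← div_eq_inv_mul, le_div_iff₀ hn0]; linarith
      nlinarith [mul_pos hC h4]
  · obtain ⟨j, hj⟩ := σ.A4 m
    refine ⟨t2 + (σ.t0 + j), ?_⟩
    have p1 := hI σ h1 h2 h3 {σ.t0 + j} 0 (σ.t0 + j + (m + 1)) x1
    rw [σ.G_skip _ _ _ _ (by simp), Sys.G, if_pos (by simp), σ.G_u _ _ _ (by simp)] at p1
    have p2 := (σ.pos_pow t2).mono (a := σ.c1 * σ.nu ((σ.T ^ j) (σ.S (σ.u m)))) (b := 1)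
      (f := σ.u σ.t0) (g := (σ.T ^ σ.t0) ((σ.T ^ j) (σ.S (σ.u m)))) (fun x => by
        rw [one_mul]; exact σ.A1 _ (σ.TS_pos j _ (σ.u_nonneg m)) x) x1
    rw [σ.pow_u, hu (t2 + σ.t0), one_mul, h0, ← Module.End.mul_apply (σ.T ^ σ.t0), ← pow_add] at p2
    have p3 := (mul_pos (mul_pos σ.c1_pos hj) (upos _)).trans_le p2
    rw [h2] at p3 p1
    have p4 := pos_of_mul_pos_right (p3.trans_le p1) hC.le
    rwa [h3, hu, ← Module.End.mul_apply, ← pow_add] at p4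

end Pat

/-- the cluster statement -/
def Cl {k : ℕ} (π : Equiv.Perm (Fin k)) : Prop :=
  ∃ (c : Finset ℕ → ℝ) (g0 : ℕ) (K ρ : ℝ), 0 ≤ K ∧ 0 < ρ ∧ ρ < 1 ∧ (∀ J, 0 ≤ c J) ∧
    (∀ J t, c (J.image (· + t)) = c J) ∧ (∀ x, 0 < c {x}) ∧
    ∀ (n g r : ℕ) (J : Fin r → Finset ℕ), g0 ≤ g → (∀ a, (J a).Nonempty) →
      (∀ a, ∀ x ∈ J a, g ≤ x ∧ x + g ≤ n) → (∀ a b, a < b → ∀ x ∈ J a, ∀ y ∈ J b, x + g ≤ y) →
      (count π (Finset.univ.biUnion J) n : ℝ) ≤ (1 + K * ρ ^ g) ^ r * (∏ a, c (J a)) * count π ∅ n ∧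
      (∏ a, c (J a)) * count π ∅ n ≤ (1 + K * ρ ^ g) ^ r * count π (Finset.univ.biUnion J) n

lemma cl_asc (π : Equiv.Perm (Fin (s + 1))) (hs : 2 ≤ s)
    (h : π ⟨s - 1, by omega⟩ < π ⟨s, by omega⟩) : Cl π := by
  obtain ⟨σ, t2, C, h0, h1, h2, h3, hC, H⟩ := (toPat π hs h).exists_sys'
  obtain ⟨K, ρ, hK, r0, r1, he⟩ := σ.eps_le C
  set d := σ.t0 + t2 + s + 1 with hd
  refine ⟨σ.cc, d, K / ρ ^ d, ρ, by positivity, r0, r1, H.cc_nonneg hC, fun J t => Sys.cc_shift J t,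
    H.cc_single hC, fun n g r J hg hne hJ1 hJ2 => ?_⟩
  rcases Nat.eq_zero_or_pos r with rfl | hr
  · simp
  obtain ⟨g, rfl⟩ := Nat.exists_eq_add_of_le' hg
  obtain ⟨y, hy⟩ := hne ⟨0, hr⟩
  obtain ⟨m, rfl⟩ : ∃ m, n = s + m := ⟨n - s, by have := hJ1 _ y hy; omega⟩
  have hb := H.blocks hC g (Finset.univ.biUnion J) r J 1 m hne (fun x _ => by simp)
    (fun a x hx => by have := hJ1 a x hx; omega)
    (fun a b hab x hx y hy => by have := hJ2 a b hab x hx y hy; omega)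
  have hpos : σ.IsPos (PP s ^ s) := by
    intro f hf x
    rw [h0] at hf ⊢
    exact pow_nonneg' _ s f hf x
  have hb' := hb.map hpos Pat.x1
  have hu : σ.u m = σ.G ∅ 1 m := (σ.G_u ∅ 1 m (by simp)).symm
  rw [h0, hu] at hb'
  simp only [Pat.evV_apply] at hb'
  rw [count_eq π hs h σ h1 h2 h3 (Finset.univ.biUnion J) m (fun i hi => by
      obtain ⟨a, -, ha⟩ := Finset.mem_biUnion.mp hi
      have := hJ1 a i ha; omega),
    count_eq π hs h σ h1 h2 h3 ∅ m (by simp)] at hb'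
  have hD := mu_D_pos (s + m)
  obtain ⟨p1, p2⟩ := hb'
  rw [← mul_assoc] at p1 p2
  have q1 := le_of_mul_le_mul_right p1 hD
  have q2 := le_of_mul_le_mul_right p2 hD
  have e : K / ρ ^ d * ρ ^ (g + d) = K * ρ ^ g := by
    rw [pow_add ρ g d, mul_comm (ρ ^ g), ← mul_assoc, div_mul_cancel₀ _ (pow_pos r0 d).ne']
  have hw : 0 < (1 + σ.eps C g) ^ 4 := by have := σ.eps_nonneg C g; positivity
  have hle : ((1 + σ.eps C g) ^ 4) ^ r ≤ (1 + K * ρ ^ g) ^ r := pow_le_pow_left₀ hw.le (he g) r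
  have hp : 0 ≤ ∏ a, σ.cc (J a) := Finset.prod_nonneg fun a _ => H.cc_nonneg hC _
  rw [e]
  constructor
  · refine q2.trans ?_
    rw [mul_comm (∏ a, σ.cc (J a))]
    gcongr
  · rw [div_mul_eq_mul_div, div_le_iff₀' (by positivity)] at q1
    refine q1.trans ?_
    gcongr

theorem cl_main (k : ℕ) (hk : 3 ≤ k) (π : Equiv.Perm (Fin k)) : Cl π := by
  obtain ⟨s, rfl⟩ : ∃ s, k = s + 1 := ⟨k - 1, by omega⟩
  have hs : 2 ≤ s := by omega
  rcases lt_trichotomy (π ⟨s - 1, by omega⟩) (π ⟨s, by omega⟩) with h | h | h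
  · exact cl_asc π hs h
  · have := π.injective h
    simp only [Fin.mk.injEq] at this
    omega
  · have := cl_asc (Fin.revPerm * π) hs (by simpa using h)
    simpa only [Cl, count_rev] using this

end Pool.Agent.P.MP_114da7_co
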