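import Pool.Agent.P.MP_114da7_co.Main
import Pool.Agent.P.MP_114da7_co.ClAbs

set_option autoImplicit false

namespace Pool.Agent.P.MP_114da7_co

open MeasureTheory Set

variable {s : ℕ}

/-- the middle third -/
def MM : Set ℝ := Ioo (1 / 3) (2 / 3)

lemma meas_MM : MeasurableSet MM := measurableSet_Ioo

/-- the constant family -/
def FM : Fam := ⟨fun _ => MM, fun _ => meas_MM⟩

lemma QF_FM (m : ℕ) : ∀ i, QF s FM i m = Q (adm_first meas_MM) ^ m := by
  induction m with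
  | zero => intro i; rfl
  | succ m ih => intro i; rw [pow_succ', QF, ih]; rfl

/-- reference functional -/
noncomputable def nuM (s : ℕ) : V s →ₗ[ℝ] ℝ := (Pat.evV s Pat.x1).comp (QF s FM 0 s)

lemma nuM_apply (f : V s) : nuM s f = (QF s FM 0 s f).1 Pat.x1 := rfl

lemma nuM_nonneg (f : V s) (hf : ∀ x, 0 ≤ f.1 x) : 0 ≤ nuM s f := QF_nonneg _ f hf _ _ _

lemma nuM_one : 0 < nuM s (oneV s) := by
  obtain ⟨c, hc, h⟩ := QF_one_pos (s := s) FM s 0 fun l _ => by
    change 0 < U.real (Ioo (1 / 3) (2 / 3))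
    rw [U_Ioo] <;> norm_num
  exact hc.trans_le (h _)

lemma pow_le_pow_sub {A B : Set Om} (hA : Adm s A) (hB : Adm s B) (hAB : A ⊆ B) (g : V s)
    (hg : ∀ x, 0 ≤ g.1 x) (m : ℕ) : ∀ x, ((Q hA ^ m) g).1 x ≤ ((Q hB ^ m) g).1 x := by
  induction m with
  | zero => intro x; exact le_rfl
  | succ m ih =>
    intro x
    rw [pow_succ', pow_succ']
    have := Q_le hA hB ((Q hA ^ m) g) ((Q hB ^ m) g) x x 1 1 fun t _ => by
      by_cases h : push t x ∈ A
      · rw [indicator_of_mem h, indicator_of_mem (hAB h), one_mul, one_mul]; exact ih _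
      · rw [indicator_of_notMem h, one_mul, one_mul]
        exact indicator_nonneg (fun y _ => pow_nonneg' hB m g hg y) _
    rwa [one_mul, one_mul] at this

lemma Q_congr {B C : Set Om} (hB : Adm s B) (hC : Adm s C) (h : B = C) : Q hB = Q hC := by
  subst h; rfl

lemma RR_pow {A : ℕ → Set Om} (hA : ∀ i, Adm s (A i)) {B : Set Om} (hB : Adm s B) (j m : ℕ) :
    ∀ i, (∀ l, i ≤ l → l < i + j → A l = B) →
      RR A hA i (j + m) = (Q hB ^ j) (RR A hA (i + j) m) := by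
  induction j with
  | zero => intro i _; simp
  | succ j ih =>
    intro i h
    rw [add_right_comm, RR, ih (i + 1) fun l h1 h2 => h l (by omega) (by omega), pow_succ',
      Q_congr (hA i) hB (h i le_rfl (by omega)), Module.End.mul_apply]
    congr 3; ring

lemma RR_mono {A A' : ℕ → Set Om} (hA : ∀ i, Adm s (A i)) (hA' : ∀ i, Adm s (A' i)) (a b : ℝ)
    (k m m' : ℕ) : ∀ i, (∀ l, l < i + k → A l = A' l) →
      (∀ x, a * (RR A hA (i + k) m).1 x ≤ b * (RR A' hA' (i + k) m').1 x) →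
      ∀ x, a * (RR A hA i (k + m)).1 x ≤ b * (RR A' hA' i (k + m')).1 x := by
  induction k with
  | zero => intro i _ h; simpa using h
  | succ k ih =>
    intro i h1 h2 x
    rw [add_right_comm k 1 m, add_right_comm k 1 m', RR, RR, Q_congr (hA' i) (hA i) (h1 i (by omega)).symm]
    exact Q_mono _ _ _ x a b fun t _ _ => ih (i + 1) (fun l hl => h1 l (by omega))
      (by rwa [add_assoc, add_comm 1 k]) _

lemma RR_G (ρ : Pat s) (σ : Sys (V s) Om) (h1 : σ.one = oneV s) (h2 : σ.T = ρ.T) (h3 : σ.S = ρ.S)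
    {A : ℕ → Set Om} (hA : ∀ i, Adm s (A i)) (I : Finset ℕ) (m : ℕ) : ∀ i j,
    (∀ l, (i + l ∈ I → A (j + l) = ρ.occ) ∧ (i + l ∉ I → A (j + l) = ρ.occᶜ)) →
      RR A hA j m = σ.G I i m := by
  induction m with
  | zero => intro i j _; rw [RR, Sys.G, h1]
  | succ m ih =>
    intro i j h
    rw [RR, Sys.G, ih (i + 1) (j + 1) fun l => by
      have := h (l + 1)
      rwa [← add_assoc, ← add_assoc, add_right_comm i, add_right_comm j] at this]
    split_ifs with hi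
    · rw [h3, Q_congr (hA j) ρ.adm_occ ((h 0).1 hi)]; rfl
    · rw [h2, Q_congr (hA j) ρ.adm_nocc ((h 0).2 hi)]; rfl

lemma mu_rev (n : ℕ) {τ : ℝ → ℝ} (hτ : MeasurePreserving τ U U) :
    MeasurePreserving (fun (t : Fin n → ℝ) (i : Fin n) => τ (t i.rev)) (mu n) (mu n) := by
  have h1 : MeasurePreserving (MeasurableEquiv.piCongrLeft (fun _ : Fin n => ℝ) Fin.revPerm)
      (mu n) (mu n) := measurePreserving_piCongrLeft (fun _ : Fin n => U) Fin.revPerm
  have h2 : MeasurePreserving (fun (t : Fin n → ℝ) (i : Fin n) => τ (t i)) (mu n) (mu n) :=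
    measurePreserving_pi _ _ fun _ => hτ
  have e : (fun (t : Fin n → ℝ) (i : Fin n) => τ (t i.rev)) =
      (fun (t : Fin n → ℝ) (i : Fin n) => τ (t i)) ∘
        MeasurableEquiv.piCongrLeft (fun _ : Fin n => ℝ) Fin.revPerm := by
    funext t i
    have := MeasurableEquiv.piCongrLeft_apply_apply (β := fun _ : Fin n => ℝ) Fin.revPerm t i.rev
    simp only [Fin.revPerm_apply, Fin.rev_rev] at this
    simp only [Function.comp, this]
  rw [e]
  exact h2.comp h1

namespace Pat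

variable (ρ : Pat s)

/-- constraint sets -/
def Aof (I Mf : ℕ → Prop) (l : ℕ) : Set Om :=
  {y | (s ≤ l → (y ∈ ρ.occ ↔ I l)) ∧ (Mf l → y 0 ∈ MM)}

lemma adm_Aof (I Mf : ℕ → Prop) (l : ℕ) : Adm s (ρ.Aof I Mf l) := by
  refine ⟨?_, fun x y h hx => ⟨fun hl => ?_, fun hl => ?_⟩⟩
  · have h1 := ρ.meas_occ
    have h2 : MeasurableSet {y : Om | y 0 ∈ MM} := measurable_pi_apply 0 meas_MM
    refine MeasurableSet.inter (s₁ := {y | s ≤ l → (y ∈ ρ.occ ↔ I l)}) (s₂ := {y | Mf l → y 0 ∈ MM})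
      ?_ ?_
    · by_cases p1 : s ≤ l <;> by_cases p2 : I l <;> simp [p1, p2, h1]
      exact measurableSet_setOfPred.mp h1.compl
    · by_cases p1 : Mf l <;> simp [p1, h2]
  · rw [← hx.1 hl]
    exact ⟨ρ.occ_dep y x fun i hi => (h i hi).symm, ρ.occ_dep x y h⟩
  · rw [← h 0 (by omega)]; exact hx.2 hl

/-- no occurrence and a middle value -/
def AM : Set Om := {y | y ∉ ρ.occ ∧ y 0 ∈ MM}

lemma adm_AM : Adm s ρ.AM := by
  have : ρ.AM = ρ.Aof (fun _ => False) (fun _ => True) s := by ext y; simp [AM, Aof]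
  rw [this]; exact ρ.adm_Aof _ _ _

lemma L1 : ∃ (t : ℕ) (c : ℝ), 0 < c ∧ ∀ g : V s, (∀ x, 0 ≤ g.1 x) → ∀ x,
    c * nuM s g * (ρ.u t).1 x ≤ ((ρ.T ^ t) ((Q ρ.adm_AM ^ s) g)).1 x := by
  obtain ⟨t1, hG⟩ := ρ.G2
  have h2 : (0 : ℝ) < 2 ^ t1 := by positivity
  set e : ℝ := min (1 / 3) (1 / 2 / 2 ^ t1) with he
  have he0 : 0 < e := by positivity
  have he3 : 2 ^ t1 * e ≤ 1 / 2 := by
    have : e ≤ 1 / 2 / 2 ^ t1 := min_le_right _ _
    rwa [le_div_iff₀' h2] at this
  obtain ⟨K⟩ := ρ.exists_conn he0 (min_le_left _ _)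
  obtain ⟨c1, hc1, h1⟩ := hG e he0 he3
  obtain ⟨d, hd, h4⟩ := QF_one_pos (s := s) K.F (2 * s) 0 (fun l _ => K.pos _)
  refine ⟨t1 + 2 * s, c1 * d, by positivity, fun g hg x => ?_⟩
  have hν := nuM_nonneg g hg
  have hw := pow_nonneg' ρ.adm_AM s g hg
  have h3 := h1 ((ρ.T ^ (2 * s)) ((Q ρ.adm_AM ^ s) g)) (d * nuM s g) (ρ.Tpow_nonneg _ _ hw)
    (by positivity) (fun y hy => by
      refine le_trans ?_ (QF_le_pow ρ.adm_nocc K.F _ hw _ 0 y (K.safe1 y hy))
      have := QF_mono K.F (oneV s) ((Q ρ.adm_AM ^ s) g) (nuM s g) 1 (2 * s) 0 y fun z hz => by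
        rw [oneV_apply, mul_one, one_mul, nuM_apply, QF_const FM g le_rfl 0 x1 z]
        exact QF_le_pow ρ.adm_AM FM g hg s 0 z fun l hl w hw =>
          ⟨K.safe2 _ _ hz FM (Ioo_subset_Icc_self.trans K.sub) l hl w hw, hw.1 0 (by omega)⟩
      rw [one_mul] at this
      rw [mul_comm]
      exact (mul_le_mul_of_nonneg_left (h4 y) hν).trans this) x
  rw [pow_add, Module.End.mul_apply]
  refine le_trans ?_ h3
  rw [← mul_assoc]
  exact mul_le_mul_of_nonneg_left (ρ.u_add_le t1 (2 * s) x) (by positivity)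

lemma exists_dual : ∃ (ρ' : Pat s) (τ : ℝ → ℝ), MeasurePreserving τ U U ∧
    (∀ x, τ x ∈ MM ↔ x ∈ MM) ∧
    ∀ y y' : Om, (∀ i ≤ s, y' i = τ (y (s - i))) → (y' ∈ ρ'.occ ↔ y ∈ ρ.occ) := by
  have hs := ρ.hs
  have key : ∀ P : ℕ → ℕ → Prop, (∀ i ≤ s, ∀ j ≤ s, P (s - i) (s - j)) ↔ ∀ i ≤ s, ∀ j ≤ s, P i j :=
    fun P => ⟨fun h i hi j hj => by
      have := h (s - i) (by omega) (s - j) (by omega)
      rwa [Nat.sub_sub_self hi, Nat.sub_sub_self hj] at this,
      fun h i _ j _ => h _ (by omega) _ (by omega)⟩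
  rcases lt_trichotomy (ρ.p (s - 1)) (ρ.p s) with h | h | h
  · refine ⟨⟨fun i => ρ.p (s - i), hs, fun i hi j hj e => ?_, fun i _ => ρ.bd _ (by omega), h⟩, id,
      MeasurePreserving.id _, fun _ => Iff.rfl, fun y y' hy => ?_⟩
    · have := ρ.inj _ (by omega) _ (by omega) e; omega
    · rw [occ, occ, mem_ofPred_eq, mem_ofPred_eq, ← key fun i j => y i < y j ↔ ρ.p i < ρ.p j]
      refine forall₂_congr fun i hi => forall₂_congr fun j hj => ?_
      rw [hy i hi, hy j hj]; rfl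
  · have := ρ.inj _ (by omega) _ le_rfl h; omega
  · refine ⟨⟨fun i => s - ρ.p (s - i), hs, fun i hi j hj e => ?_, fun i _ => by omega, ?_⟩,
      fun x => 1 - x, ?_, fun x => ?_, fun y y' hy => ?_⟩
    · have p1 := ρ.bd (s - i) (by omega)
      have p2 := ρ.bd (s - j) (by omega)
      have := ρ.inj (s - i) (by omega) (s - j) (by omega) (by omega); omega
    · have := ρ.bd (s - 1) (by omega)
      simp only [tsub_zero]; omega
    · have := (Measure.measurePreserving_sub_left (volume : Measure ℝ) 1).restrict_preimage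
        (s := Icc 0 1) measurableSet_Icc
      simpa [U] using this
    · simp only [MM, mem_Ioo]
      constructor <;> rintro ⟨p1, p2⟩ <;> constructor <;> linarith
    · rw [occ, occ, mem_ofPred_eq, mem_ofPred_eq, forall₂_comm (p := fun i _ j _ => y i < y j ↔ _),
        ← key fun i j => y j < y i ↔ ρ.p j < ρ.p i]
      refine forall₂_congr fun i hi => forall₂_congr fun j hj => ?_
      have p1 := ρ.bd (s - i) (by omega)
      have p2 := ρ.bd (s - j) (by omega)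
      rw [hy i hi, hy j hj, sub_lt_sub_iff_left]
      exact iff_congr Iff.rfl (by dsimp only; omega)

lemma RR_rev {ρ' : Pat s} {τ : ℝ → ℝ} (h1 : MeasurePreserving τ U U) (h2 : ∀ x, τ x ∈ MM ↔ x ∈ MM)
    (h3 : ∀ y y' : Om, (∀ i ≤ s, y' i = τ (y (s - i))) → (y' ∈ ρ'.occ ↔ y ∈ ρ.occ))
    {I Mf I' Mf' : ℕ → Prop} {n : ℕ}
    (hI : ∀ l l', s ≤ l → s ≤ l' → l + l' + 1 = n + s → (I l ↔ I' l'))
    (hM : ∀ l l', l + l' + 1 = n → (Mf l ↔ Mf' l')) :
    (RR _ (ρ.adm_Aof I Mf) 0 n).1 x1 = (RR _ (ρ'.adm_Aof I' Mf') 0 n).1 x1 := by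
  rw [RR_eq, RR_eq, ← (mu_rev n h1).measureReal_preimage
    (meas_okSet _ (ρ'.adm_Aof I' Mf') _ _ _).nullMeasurableSet]
  congr 1
  ext t
  have hv : ∀ (t : Fin n → ℝ) l i (hl : l < n), i ≤ l → histAt x1 t l i = t ⟨l - i, by omega⟩ :=
    fun t l i hl hi => by rw [histAt, if_pos hi, dif_pos (by omega)]
  have K1 : ∀ l l', s ≤ l → s ≤ l' → l + l' + 1 = n + s →
      (histAt x1 (fun i : Fin n => τ (t i.rev)) l' ∈ ρ'.occ ↔ histAt x1 t l ∈ ρ.occ) :=
    fun l l' p1 p2 p3 => h3 _ _ fun i hi => by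
      rw [hv _ l' i (by omega) (by omega), hv _ l _ (by omega) (by omega)]
      congr 2; ext; simp only [Fin.val_rev]; omega
  have K2 : ∀ l l', l + l' + 1 = n →
      (histAt x1 (fun i : Fin n => τ (t i.rev)) l' 0 ∈ MM ↔ histAt x1 t l 0 ∈ MM) :=
    fun l l' p => by
      rw [hv _ l' 0 (by omega) (by omega), hv _ l _ (by omega) (by omega), h2]
      refine iff_of_eq ?_
      congr 2; ext; simp only [Fin.val_rev]; omega
  simp only [okSet, Aof, mem_preimage, mem_ofPred_eq, zero_add]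
  constructor
  · intro h l' hl
    refine ⟨fun p => ?_, fun p => ?_⟩
    · rw [K1 (n + s - 1 - l') l' (by omega) p (by omega), ← hI (n + s - 1 - l') l' (by omega) p (by omega)]
      exact (h _ (by omega)).1 (by omega)
    · rw [K2 (n - 1 - l') l' (by omega)]
      exact (h _ (by omega)).2 ((hM _ _ (by omega)).mpr p)
  · intro h l hl
    refine ⟨fun p => ?_, fun p => ?_⟩
    · rw [← K1 l (n + s - 1 - l) p (by omega) (by omega), hI l (n + s - 1 - l) p (by omega) (by omega)]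
      exact (h _ (by omega)).1 (by omega)
    · rw [← K2 l (n - 1 - l) (by omega)]
      exact (h _ (by omega)).2 ((hM _ _ (by omega)).mp p)

end Pat

end Pool.Agent.P.MP_114da7_co
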