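import Pool.Agent.P.MP_114da7_co.Pat
import Pool.Agent.P.MP_114da7_co.Abstract

set_option autoImplicit false

namespace Pool.Agent.P.MP_114da7_co

open MeasureTheory Set

def dec (a b : ℝ) (i : ℕ) : Set ℝ := Ioo (a + (b - a) / (i + 2)) (a + (b - a) / (i + 1))
def inc (a b : ℝ) (i : ℕ) : Set ℝ := Ioo (b - (b - a) / (i + 1)) (b - (b - a) / (i + 2))

lemma frac_facts {a b : ℝ} (h : a < b) (i : ℕ) : 0 < (b - a) / (i + 2) ∧
    (b - a) / (i + 2) < (b - a) / (i + 1) ∧ (b - a) / (i + 1) ≤ b - a := by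
  have h0 : (0 : ℝ) ≤ i := Nat.cast_nonneg i
  have h1 : 0 < b - a := by linarith
  exact ⟨by positivity, div_lt_div_of_pos_left h1 (by positivity) (by linarith),
    div_le_self h1.le (by linarith)⟩

lemma dec_sub {a b : ℝ} (h : a < b) {i : ℕ} {x : ℝ} (hx : x ∈ dec a b i) : a < x ∧ x < b := by
  obtain ⟨h1, h2, h3⟩ := frac_facts h i
  exact ⟨by linarith [hx.1], by linarith [hx.2]⟩

lemma inc_sub {a b : ℝ} (h : a < b) {i : ℕ} {x : ℝ} (hx : x ∈ inc a b i) : a < x ∧ x < b := by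
  obtain ⟨h1, h2, h3⟩ := frac_facts h i
  exact ⟨by linarith [hx.1], by linarith [hx.2]⟩

lemma dec_pos {a b : ℝ} (ha : 0 ≤ a) (h : a < b) (hb : b ≤ 1) (i : ℕ) : 0 < U.real (dec a b i) := by
  obtain ⟨h1, h2, h3⟩ := frac_facts h i
  rw [dec, U_Ioo] <;> linarith

lemma inc_pos {a b : ℝ} (ha : 0 ≤ a) (h : a < b) (hb : b ≤ 1) (i : ℕ) : 0 < U.real (inc a b i) := by
  obtain ⟨h1, h2, h3⟩ := frac_facts h i
  rw [inc, U_Ioo] <;> linarith

lemma dec_step {a b : ℝ} {i : ℕ} {x y : ℝ} (hx : x ∈ dec a b i) (hy : y ∈ dec a b (i + 1)) : y ≤ x := by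
  have h1 := hx.1
  have h2 := hy.2
  have e : ((i + 1 : ℕ) : ℝ) + 1 = i + 2 := by push_cast; ring
  rw [e] at h2
  linarith

lemma inc_step {a b : ℝ} {i : ℕ} {x y : ℝ} (hx : x ∈ inc a b i) (hy : y ∈ inc a b (i + 1)) : x ≤ y := by
  have h1 := hx.2
  have h2 := hy.1
  have e : ((i + 1 : ℕ) : ℝ) + 1 = i + 2 := by push_cast; ring
  rw [e] at h2
  linarith

namespace Pat

variable {s : ℕ} (π : Pat s)

structure Conn (e : ℝ) where
  F : Fam
  Mid : Set ℝ
  pos : ∀ l, 0 < U.real (F.J l)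
  measMid : MeasurableSet Mid
  sub : Icc (1 / 3) (2 / 3) ⊆ Mid
  small : U.real Midᶜ ≤ e
  safe1 : ∀ x : Om, e ≤ x 0 → ∀ l < 2 * s, ∀ z, Path F 0 (l + 1) x z → z ∈ π.occᶜ
  safe2 : ∀ x z, Path F 0 (2 * s) x z → ∀ F' : Fam, F'.J 0 ⊆ Mid → ∀ l < s, ∀ w,
    Path F' 0 (l + 1) z w → w ∈ π.occᶜ

lemma mkConn {e a b : ℝ} (ha : 0 ≤ a) (hab : a < b) (hbe : b ≤ e) (he : e ≤ 1)
    (B : ℕ → Set ℝ) (hBm : ∀ i, MeasurableSet (B i)) (hBp : ∀ i, 0 < U.real (B i))
    (Mid : Set ℝ) (measMid : MeasurableSet Mid) (sub : Icc (1 / 3) (2 / 3) ⊆ Mid)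
    (small : U.real Midᶜ ≤ e)
    (h2 : ∀ l < s, ∀ z : Om, z 0 ∈ B l → z s ∈ dec a b l → (l = 0 → z (s - 1) ∈ dec a b 1) →
      (∀ l', l = l' + 1 → z 1 ∈ B l') → z ∈ π.occᶜ)
    (h3 : ∀ l < s, ∀ w : Om, w s ∈ B l → (l + 1 < s → w (s - 1) ∈ B (l + 1)) →
      (l + 1 = s → w (s - 1) ∈ Mid) → w ∈ π.occᶜ) : Nonempty (π.Conn e) := by
  have hs := π.hs
  set F : Fam := ⟨fun l => if l < s then dec a b l else B (l - s), fun l => by
    split_ifs
    · exact measurableSet_Ioo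
    · exact hBm _⟩ with hF
  have FA : ∀ l < s, F.J l = dec a b l := fun l hl => if_pos hl
  have FB : ∀ l, F.J (s + l) = B l := fun l => by
    have : ¬ s + l < s := by omega
    simp only [hF, if_neg this, add_tsub_cancel_left]
  refine ⟨⟨F, Mid, fun l => ?_, measMid, sub, small, fun x hx l hl z hz => ?_,
    fun x z hz F' hF' l hl w hw => ?_⟩⟩
  · by_cases hl : l < s
    · rw [FA l hl]; exact dec_pos ha hab (hbe.trans he) l
    · obtain ⟨j, rfl⟩ := Nat.exists_eq_add_of_le (not_lt.mp hl)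
      rw [FB]; exact hBp j
  · have hz1 : ∀ i j, i + j = l → z i ∈ F.J j := fun i j hij => by
      have := hz.1 i (by omega)
      have e : 0 + (l + 1 - 1 - i) = j := by omega
      rwa [e] at this
    by_cases hls : l < s
    · apply π.desc_safe
      have h0 := hz1 0 l (by omega)
      rw [FA l hls] at h0
      cases l with
      | zero =>
        have h1 : z 1 = x 0 := hz.2 0
        linarith [(dec_sub hab h0).2]
      | succ l =>
        have h1 := hz1 1 l (by omega)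
        rw [FA l (by omega)] at h1
        exact dec_step h1 h0
    · obtain ⟨j, rfl⟩ := Nat.exists_eq_add_of_le (not_lt.mp hls)
      refine h2 j (by omega) z ?_ ?_ (fun hj => ?_) (fun l' hl' => ?_)
      · rw [← FB]; exact hz1 0 _ (by omega)
      · rw [← FA j (by omega)]; exact hz1 s j rfl
      · rw [← FA 1 (by omega)]; exact hz1 _ _ (by omega)
      · rw [← FB]; exact hz1 _ _ (by omega)
  · have hz1 : ∀ i j, i + j + 1 = s → z i ∈ B j := fun i j hij => by
      have := hz.1 i (by omega)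
      have e : 0 + (2 * s - 1 - i) = s + j := by omega
      rwa [e, FB] at this
    have hw1 : ∀ i j, j = l + 1 + i → w j = z i := fun i j hij => by rw [hij]; exact hw.2 i
    refine h3 l hl w ?_ (fun h => ?_) (fun h => ?_)
    · rw [hw1 (s - l - 1) s (by omega)]; exact hz1 _ _ (by omega)
    · rw [hw1 (s - l - 2) (s - 1) (by omega)]; exact hz1 _ _ (by omega)
    · have := hw.1 l (by omega)
      have e : 0 + (l + 1 - 1 - l) = 0 := by omega
      have e2 : s - 1 = l := by omega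
      rw [e] at this
      rw [e2]; exact hF' this

lemma U_compl_le {M : Set ℝ} {p q : ℝ} (hpq : p ≤ q) (h : ∀ t ∈ Icc (0 : ℝ) 1, t ∉ M → t ∈ Icc p q) :
    U.real Mᶜ ≤ q - p := by
  refine le_trans ?_ (U_Icc_le hpq)
  refine ENNReal.toReal_mono (measure_ne_top _ _) (measure_mono_ae ?_)
  filter_upwards [U_ae] with t ht h1 using h t ht h1

lemma exists_conn {e : ℝ} (he : 0 < e) (he' : e ≤ 1 / 3) : Nonempty (π.Conn e) := by
  have hs := π.hs
  rcases lt_trichotomy (π.p s) (π.p (s - 1)) with h1 | h1 | h1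
  · refine π.mkConn (a := 0) (b := e) le_rfl he le_rfl (by linarith) (dec (1 - e) 1)
      (fun _ => measurableSet_Ioo) (dec_pos (by linarith) (by linarith) le_rfl) (Iic (1 - e))
      measurableSet_Iic (fun t ht => by simp only [mem_Iic]; linarith [ht.2]) ?_ ?_ ?_
    · have := U_compl_le (M := Iic (1 - e)) (p := 1 - e) (q := 1) (by linarith) fun t ht h =>
        ⟨(not_le.mp h).le, ht.2⟩
      linarith
    · intro l _ z h0 hs' hs1 h1'
      cases l with
      | zero => exact π.not_occ le_rfl (by omega) h1 (dec_step hs' (hs1 rfl))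
      | succ l => exact π.desc_safe (dec_step (h1' l rfl) h0)
    · intro l hl w h0 ha hb
      refine π.not_occ le_rfl (by omega) h1 ?_
      rcases Nat.lt_or_eq_of_le (Nat.succ_le_of_lt hl) with h | h
      · exact dec_step h0 (ha h)
      · exact le_trans (hb h) (dec_sub (by linarith) h0).1.le
  · have := π.inj _ le_rfl _ (by omega) h1; omega
  · have hsm : U.real (Ici e)ᶜ ≤ e := by
      have := U_compl_le (M := Ici e) (p := 0) (q := e) he.le fun t ht h =>
        ⟨ht.1, (not_le.mp h).le⟩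
      linarith
    have hsub : Icc (1 / 3) (2 / 3) ⊆ Ici e := fun t ht => by simp only [mem_Ici]; linarith [ht.1]
    have h3 : ∀ a b : ℝ, a < b → b ≤ e → ∀ l < s, ∀ w : Om, w s ∈ inc a b l →
        (l + 1 < s → w (s - 1) ∈ inc a b (l + 1)) → (l + 1 = s → w (s - 1) ∈ Ici e) → w ∈ π.occᶜ := by
      intro a b hab hbe l hl w h0 ha hb
      refine π.not_occ (by omega) le_rfl h1 ?_
      rcases Nat.lt_or_eq_of_le (Nat.succ_le_of_lt hl) with h | h
      · exact inc_step h0 (ha h)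
      · exact le_trans ((inc_sub hab h0).2.le.trans hbe) (hb h)
    rcases lt_trichotomy (π.p s) (π.p 0) with h2 | h2 | h2
    · refine π.mkConn (a := e / 2) (b := e) (by linarith) (by linarith) le_rfl (by linarith)
        (inc 0 (e / 2)) (fun _ => measurableSet_Ioo) (inc_pos le_rfl (by linarith) (by linarith))
        (Ici e) measurableSet_Ici hsub hsm ?_ (h3 _ _ (by linarith) (by linarith))
      intro l _ z h0 hs' _ _
      refine π.not_occ le_rfl (by omega) h2 ?_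
      linarith [(inc_sub (by linarith) h0).2, (dec_sub (by linarith) hs').1]
    · have := π.inj _ le_rfl _ (by omega) h2; omega
    · refine π.mkConn (a := 0) (b := e / 2) le_rfl (by linarith) (by linarith) (by linarith)
        (inc (e / 2) e) (fun _ => measurableSet_Ioo) (inc_pos (by linarith) (by linarith) (by linarith))
        (Ici e) measurableSet_Ici hsub hsm ?_ (h3 _ _ (by linarith) le_rfl)
      intro l _ z h0 hs' _ _
      refine π.not_occ (by omega) le_rfl h2 ?_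
      linarith [(inc_sub (by linarith) h0).1, (dec_sub (by linarith) hs').2]

lemma u_lower (m : ℕ) {a : ℝ} (ha : 0 < a) (ha1 : a ≤ 1) :
    ∃ c, 0 < c ∧ ∀ y : Om, a ≤ y 0 → c ≤ (π.u m).1 y := by
  have h2 : (0 : ℝ) < 2 ^ m := by positivity
  have e : 2 ^ m * (a / 2 ^ m) = a := by field_simp
  refine ⟨(a / 2 ^ m) ^ m * 1, by positivity, fun y hy => ?_⟩
  exact π.halving (a := a / 2 ^ m) (b := 1) (by positivity) zero_le_one (oneV s) (by simp)
    (by simp) m (by rwa [e]) y (by rwa [e])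

lemma ratio : ∃ (t1 : ℕ) (c : ℝ), 0 < c ∧ ∀ N x, c * (π.u (N + t1)).1 x ≤ (π.u (N + t1 + 1)).1 x := by
  obtain ⟨t1, h⟩ := π.G2
  have h2 : (0 : ℝ) < 2 ^ t1 := by positivity
  have h3 : (1 : ℝ) ≤ 2 ^ t1 := one_le_pow₀ (by norm_num)
  obtain ⟨c, hc, h1⟩ := h (1 / 2 / 2 ^ t1) (by positivity) (le_of_eq (by field_simp))
  obtain ⟨b, hb, h4⟩ := π.u_lower 1 (a := 1 / 2 / 2 ^ t1) (by positivity) (by
    rw [div_le_one h2]; linarith)
  refine ⟨t1, c * b, by positivity, fun N x => ?_⟩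
  have h5 := π.Tpow_mono N (π.u t1) (π.u (t1 + 1)) (c * b) 1 (fun x => by
    have := h1 (π.u 1) b (π.u_nonneg 1) hb.le h4 x
    rwa [pow_u, ← one_mul ((π.u (t1 + 1)).1 x)] at this) x
  rwa [pow_u, pow_u, one_mul, ← add_assoc] at h5

/-- base history -/
def x1 : Om := fun _ => 1

/-- evaluation functional -/
def evV (s : ℕ) (x : Om) : V s →ₗ[ℝ] ℝ := (LinearMap.proj x).comp (V s).subtype

@[simp] lemma evV_apply (x : Om) (f : V s) : evV s x f = f.1 x := rfl

lemma A2aux {e : ℝ} (K : π.Conn e) {c : ℝ} (hc : 0 < c) (hec : e ≤ c / 2) {t1 : ℕ}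
    (hr : ∀ N x, c * (π.u (N + t1)).1 x ≤ (π.u (N + t1 + 1)).1 x) :
    ∃ C, 0 < C ∧ ∀ N x, (π.u (s + (N + t1 + 1))).1 x ≤
      C * (QF s K.F 0 (2 * s) (π.u (s + (N + t1 + 1)))).1 x1 := by
  obtain ⟨d, hd, h1⟩ := QF_one_pos (s := s) K.F (2 * s) 0 (fun l _ => K.pos _)
  refine ⟨2 / d, by positivity, fun N x => ?_⟩
  obtain ⟨s', hs'⟩ : ∃ s', s = s' + 1 := ⟨s - 1, by have := π.hs; omega⟩
  set h := π.u (N + t1 + 1) with hh
  set μ1 := ((PP s ^ s) h).1 x1 with hμ1
  set μ0 := ((PP s ^ s) (π.u (N + t1))).1 x1 with hμ0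
  have hμ0n : 0 ≤ μ0 := pow_nonneg' _ s _ (π.u_nonneg _) _
  have hμ : c * μ0 ≤ μ1 := by
    have := pow_mono (adm_first MeasurableSet.univ) s (π.u (N + t1)) h c 1
      (fun x => by rw [one_mul]; exact hr N x) x1
    rwa [one_mul] at this
  have hup : (π.u (s + (N + t1 + 1))).1 x ≤ μ1 := by
    rw [← pow_u, hμ1, P_const h le_rfl x1 x]
    exact pow_le_P _ h (π.u_nonneg _) s x
  set F' : Fam := ⟨fun l => if l = 0 then K.Mid else univ, fun l => by
    split_ifs
    · exact K.measMid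
    · exact MeasurableSet.univ⟩ with hF'
  have hf : ∀ y, ((PP s ^ s') h).1 y ≤ μ0 := by
    intro y
    have h2 := pow_mono (adm_first MeasurableSet.univ) s' h (PP s (π.u (N + t1))) 1 1 (fun x => by
      rw [one_mul, one_mul, hh, u_succ]
      exact Q_le_P _ _ (π.u_nonneg _) x) y
    rw [one_mul, one_mul] at h2
    refine h2.trans (le_of_eq ?_)
    rw [hμ0, P_const _ le_rfl x1 y]
    rw [show PP s ^ s = PP s ^ (s' + 1) from congrArg _ hs', pow_succ]
    rfl
  have hz : ∀ z, Path K.F 0 (2 * s) x1 z → μ1 / 2 * (oneV s).1 z ≤ 1 * (π.u (s + (N + t1 + 1))).1 z := by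
    intro z hz
    rw [← pow_u, one_mul, oneV_apply, mul_one]
    refine le_trans ?_ (QF_le_pow π.adm_nocc F' h (π.u_nonneg _) s 0 z
      (fun l hl w hw => K.safe2 _ _ hz F' (by simp [hF']) l hl w hw))
    have e1 : QF s F' 0 s = Q (adm_first (F'.meas 0)) * PP s ^ s' := by
      rw [← QF_univ F' s' 1 (fun l hl => if_neg (by omega)),
        show QF s F' 0 s = QF s F' 0 (s' + 1) from congrArg _ hs']
      rfl
    have h3 := Q_cmp (adm_first MeasurableSet.univ) (adm_first (F'.meas 0)) ((PP s ^ s') h)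
      ((PP s ^ s') h) z z 1 1 μ0 K.measMid.compl (fun t _ => by
        by_cases ht : t ∈ K.Mid
        · simp [hF', ht]
        · simp [hF', ht, hf])
    have e2 : (Q (adm_first MeasurableSet.univ) ((PP s ^ s') h)).1 z = μ1 := by
      rw [hμ1, P_const _ le_rfl x1 z]
      rw [show PP s ^ s = PP s ^ (s' + 1) from congrArg _ hs', pow_succ']
      rfl
    rw [e2, one_mul, one_mul] at h3
    rw [e1]
    have h4 : U.real K.Midᶜ * μ0 ≤ c / 2 * μ0 := mul_le_mul_of_nonneg_right (K.small.trans hec) hμ0n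
    rw [Module.End.mul_apply]
    linarith
  have h6 := QF_mono K.F _ _ _ _ (2 * s) 0 x1 hz
  have hμ1n : 0 ≤ μ1 := (by positivity : 0 ≤ c * μ0).trans hμ
  have h7 : μ1 / 2 * d ≤ μ1 / 2 * (QF s K.F 0 (2 * s) (oneV s)).1 x1 := by gcongr; exact h1 _
  rw [div_mul_eq_mul_div, le_div_iff₀ hd]
  nlinarith

lemma A4aux {e : ℝ} (K : π.Conn e) (m : ℕ) :
    0 < (QF s K.F 0 (2 * s) ((π.T ^ s) (π.S (π.u m)))).1 x1 := by
  obtain ⟨d, hd, h1⟩ := QF_one_pos (s := s) K.F (2 * s) 0 (fun l _ => K.pos _)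
  obtain ⟨c, hc, h2⟩ := π.u_lower m (a := 1 / 3) (by norm_num) (by norm_num)
  have hD : (0 : ℝ) < 3 * (s + 1) := by positivity
  set lo : ℕ → ℝ := fun v => 1 / 3 + v / (3 * (s + 1)) with hlo
  have lo_mono : ∀ v w : ℕ, v ≤ w → lo v ≤ lo w := fun v w h => by
    simp only [hlo]; gcongr
  have lo_lt : ∀ v : ℕ, lo v < lo (v + 1) := fun v => by
    simp only [hlo]; gcongr; omega
  have lo0 : lo 0 = 1 / 3 := by simp [hlo]
  have los : lo (s + 1) = 2 / 3 := by simp only [hlo]; push_cast; field_simp; ring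
  set F' : Fam := ⟨fun l => Ioo (lo (π.p (s - l))) (lo (π.p (s - l) + 1)),
    fun _ => measurableSet_Ioo⟩ with hF'
  have hsub : ∀ l, ∀ t ∈ F'.J l, t ∈ Icc (1 / 3 : ℝ) (2 / 3) := fun l t ht =>
    ⟨by rw [← lo0]; exact (lo_mono _ _ (by omega)).trans ht.1.le,
     by rw [← los]; exact ht.2.le.trans (lo_mono _ _ (by have := π.bd (s - l) (by omega); omega))⟩
  have hpos : ∀ l, 0 < U.real (F'.J l) := fun l => by
    have h3 := lo_mono 0 (π.p (s - l)) (by omega)
    have h4 := lo_mono (π.p (s - l) + 1) (s + 1) (by have := π.bd (s - l) (by omega); omega)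
    have h5 := lo_lt (π.p (s - l))
    simp only [hF']
    rw [U_Ioo] <;> linarith
  obtain ⟨d', hd', h3⟩ := QF_one_pos (s := s) F' s 0 (fun l _ => hpos _)
  have hS : ∀ x, 0 ≤ (π.S (π.u m)).1 x := Q_nonneg _ _ (π.u_nonneg m)
  have hw : ∀ z w, Path F' 0 s z w →
      U.real (F'.J s) * c * (oneV s).1 w ≤ 1 * (π.S (π.u m)).1 w := by
    intro z w hw
    rw [one_mul, oneV_apply, mul_one]
    refine Q_low π.adm_occ _ (π.u_nonneg m) w (F'.meas s) c fun t _ ht => ⟨?_, h2 _ (hsub _ _ ht).1⟩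
    have hv : ∀ i ≤ s, push t w i ∈ Ioo (lo (π.p i)) (lo (π.p i + 1)) := by
      intro i hi
      cases i with
      | zero => simpa [hF'] using ht
      | succ i =>
        have := hw.1 i (by omega)
        simp only [hF'] at this
        have e : s - (0 + (s - 1 - i)) = i + 1 := by omega
        rwa [e] at this
    have hlt : ∀ i ≤ s, ∀ j ≤ s, π.p i < π.p j → push t w i < push t w j := fun i hi j hj h =>
      (hv i hi).2.trans_le ((lo_mono _ _ h).trans (hv j hj).1.le)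
    intro i hi j hj
    refine ⟨fun h => ?_, hlt i hi j hj⟩
    rcases lt_trichotomy (π.p i) (π.p j) with h4 | h4 | h4
    · exact h4
    · rw [π.inj i hi j hj h4] at h; exact absurd h (lt_irrefl _)
    · exact absurd h (not_lt.mpr (hlt j hj i hi h4).le)
  have hb : 0 < U.real (F'.J s) * c := mul_pos (hpos s) hc
  have hz : ∀ z, Path K.F 0 (2 * s) x1 z →
      U.real (F'.J s) * c * d' * (oneV s).1 z ≤ 1 * ((π.T ^ s) (π.S (π.u m))).1 z := by
    intro z hz
    rw [one_mul, oneV_apply, mul_one]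
    refine le_trans ?_ (QF_le_pow π.adm_nocc F' _ hS s 0 z
      (fun l hl w hw => K.safe2 _ _ hz F' (fun t ht => K.sub (hsub _ _ ht)) l hl w hw))
    have := QF_mono F' _ _ _ _ s 0 z (hw z)
    rw [one_mul] at this
    exact le_trans (mul_le_mul_of_nonneg_left (h3 z) hb.le) this
  have h6 := QF_mono K.F _ _ _ _ (2 * s) 0 x1 hz
  rw [one_mul] at h6
  exact lt_of_lt_of_le (mul_pos (mul_pos hb hd') (hd.trans_le (h1 _))) h6

lemma exists_sys : ∃ σ : Sys (V s) Om, σ.ev = evV s ∧ σ.one = oneV s ∧ σ.T = π.T ∧ σ.S = π.S := by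
  obtain ⟨t1, hG⟩ := π.G2
  obtain ⟨t2, c, hc, hr⟩ := π.ratio
  have h2 : (0 : ℝ) < 2 ^ t1 := by positivity
  set e := min (min (c / 2) (1 / 3)) (1 / 2 / 2 ^ t1) with he
  have he0 : 0 < e := by positivity
  have he1 : e ≤ c / 2 := (min_le_left _ _).trans (min_le_left _ _)
  have he2 : e ≤ 1 / 3 := (min_le_left _ _).trans (min_le_right _ _)
  have he3 : 2 ^ t1 * e ≤ 1 / 2 := by
    have : e ≤ 1 / 2 / 2 ^ t1 := min_le_right _ _
    rwa [le_div_iff₀' h2] at this
  obtain ⟨K⟩ := π.exists_conn he0 he2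
  obtain ⟨c1, hc1, h1⟩ := hG e he0 he3
  obtain ⟨C, hC, hA2⟩ := π.A2aux K hc he1 hr
  set ν : V s →ₗ[ℝ] ℝ := (evV s x1).comp (QF s K.F 0 (2 * s)) with hν
  have νapp : ∀ f, ν f = (QF s K.F 0 (2 * s) f).1 x1 := fun f => rfl
  have νmono : ∀ N j, ν (π.u (N + j)) ≤ ν (π.u N) := fun N j => by
    have := QF_mono K.F (π.u (N + j)) (π.u N) 1 1 (2 * s) 0 x1 fun z _ => by
      simpa using π.u_add_le N j z
    rwa [one_mul, one_mul] at this
  have νpos : ∀ N, 0 < ν (π.u N) := fun N => by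
    obtain ⟨b, hb, h3⟩ := π.u_lower (s + (N + t2 + 1)) (a := 1) one_pos le_rfl
    have h4 := (hb.trans_le (h3 x1 le_rfl)).trans_le (hA2 N x1)
    have h5 := νmono N (s + t2 + 1)
    have e : N + (s + t2 + 1) = s + (N + t2 + 1) := by ring
    rw [e] at h5
    exact (pos_of_mul_pos_right h4 hC.le).trans_le h5
  have hn0 := νpos (s + (t2 + 1))
  refine ⟨⟨evV s, oneV s, π.T, π.S, ν, t1 + 2 * s, c1, C + 1 / ν (π.u (s + (t2 + 1))),
    by have := π.hs; omega, hc1, by positivity, fun _ => rfl, fun f hf => Q_nonneg π.adm_nocc f hf,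
    fun f hf => Q_nonneg π.adm_occ f hf, fun f hf => QF_nonneg _ f hf _ _ _,
    fun x => Q_le_of_le π.adm_nocc _ x zero_le_one (by simp),
    fun x => Q_le_of_le π.adm_occ _ x zero_le_one (by simp),
    fun g hg x => ?_, fun N x => ?_, νpos, fun m => ⟨s, π.A4aux K m⟩⟩, rfl, rfl, rfl, rfl⟩
  · have hνg : 0 ≤ ν g := QF_nonneg _ g hg _ _ _
    have h3 := h1 ((π.T ^ (2 * s)) g) (ν g) (π.Tpow_nonneg _ g hg) hνg (fun y hy => by
      rw [νapp, QF_const K.F g (by omega) 0 x1 y]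
      exact QF_le_pow π.adm_nocc K.F g hg _ 0 y (K.safe1 y hy)) x
    rw [pow_add, Module.End.mul_apply (π.T ^ t1) _ g]
    refine le_trans ?_ h3
    rw [← pow_add]
    exact mul_le_mul_of_nonneg_left (π.u_add_le t1 (2 * s) x) (by positivity)
  · change (π.u N).1 x ≤ _ * ν (π.u N)
    have h4 := νpos N
    by_cases hN : s + (t2 + 1) ≤ N
    · obtain ⟨j, rfl⟩ : ∃ j, N = s + (j + t2 + 1) := ⟨N - (s + (t2 + 1)), by omega⟩
      refine (hA2 j x).trans ?_
      rw [← νapp]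
      gcongr
      exact le_add_of_nonneg_right (by positivity)
    · obtain ⟨j, hj⟩ := Nat.exists_eq_add_of_le (not_le.mp hN).le
      have h5 := νmono N j
      rw [← hj] at h5
      refine (π.u_le_one N x).trans ?_
      have h6 : 1 ≤ 1 / ν (π.u (s + (t2 + 1))) * ν (π.u N) := by
        rw [one_div, ← div_eq_inv_mul, le_div_iff₀ hn0]; linarith
      nlinarith [mul_pos hC h4]

end Pat

end Pool.Agent.P.MP_114da7_co
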