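import Mathlib

set_option autoImplicit false

namespace Pool.Agent.P.MP_114da7_co

/-- The set of (1-based) starting indices of consecutive occurrences of `π` in `w`. -/
def occSet {k n : ℕ} (π : Equiv.Perm (Fin k)) (w : Equiv.Perm (Fin n)) : Set ℕ :=
  {i | 1 ≤ i ∧ i + k ≤ n + 1 ∧ ∀ (a b : Fin k) (x y : Fin n),
    x.val + 1 = i + a.val → y.val + 1 = i + b.val → (w x < w y ↔ π a < π b)}

/-- The number of permutations of length `n` whose set of starting indices is exactly `I`. -/
noncomputable def count {k : ℕ} (π : Equiv.Perm (Fin k)) (I : Finset ℕ) (n : ℕ) : ℕ :=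
  Nat.card {w : Equiv.Perm (Fin n) // occSet π w = (I : Set ℕ)}

end Pool.Agent.P.MP_114da7_co
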