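import Pool.Agent.P.MP_114da7_co.Conn
import Pool.Agent.P.MP_114da7_co.Defs

set_option autoImplicit false

namespace Pool.Agent.P.MP_114da7_co

open MeasureTheory Set

noncomputable def mu (n : ℕ) : Measure (Fin n → ℝ) := Measure.pi fun _ => U

instance (n : ℕ) : IsProbabilityMeasure (mu n) := by unfold mu; infer_instance

/-- history after pushing the first `l+1` values of `t` -/
def histAt {n : ℕ} (x : Om) (t : Fin n → ℝ) (l : ℕ) : Om := fun j =>
  if j ≤ l then (if h : l - j < n then t ⟨l - j, h⟩ else 0) else x (j - l - 1)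

lemma measurable_histAt {n : ℕ} (x : Om) (l : ℕ) : Measurable fun t : Fin n → ℝ => histAt x t l := by
  refine measurable_pi_iff.mpr fun j => ?_
  unfold histAt
  split_ifs
  · exact measurable_pi_apply _
  · exact measurable_const
  · exact measurable_const

lemma histAt_zero {n : ℕ} (x : Om) (t : Fin (n + 1) → ℝ) : histAt x t 0 = push (t 0) x := by
  funext j
  cases j with
  | zero => simp [histAt]
  | succ j => simp [histAt]

lemma histAt_succ {n : ℕ} (x : Om) (t : Fin (n + 1) → ℝ) (l : ℕ) :
    histAt x t (l + 1) = histAt (push (t 0) x) (Fin.tail t) l := by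
  funext j
  unfold histAt
  by_cases h1 : j ≤ l
  · have e : l + 1 - j = l - j + 1 := by omega
    rw [if_pos h1, if_pos (by omega)]
    by_cases h2 : l - j < n
    · rw [dif_pos h2, dif_pos (by omega)]
      simp only [Fin.tail]
      congr 1; ext; simp [e]
    · rw [dif_neg h2, dif_neg (by omega)]
  · rw [if_neg h1]
    by_cases h2 : j = l + 1
    · subst h2; simp
    · rw [if_neg (by omega)]
      have e : j - l - 1 = (j - (l + 1) - 1) + 1 := by omega
      rw [e, push_succ]

variable {s : ℕ}

noncomputable def RR (A : ℕ → Set Om) (hA : ∀ i, Adm s (A i)) : ℕ → ℕ → V s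
  | _, 0 => oneV s
  | i, m + 1 => Q (hA i) (RR A hA (i + 1) m)

def okSet (A : ℕ → Set Om) (m i : ℕ) (x : Om) : Set (Fin m → ℝ) :=
  {t | ∀ l < m, histAt x t l ∈ A (i + l)}

lemma meas_okSet (A : ℕ → Set Om) (hA : ∀ i, Adm s (A i)) (m i : ℕ) (x : Om) :
    MeasurableSet (okSet A m i x) := by
  have : okSet A m i x = ⋂ l, ⋂ (_ : l < m), (fun t => histAt x t l) ⁻¹' A (i + l) := by
    ext t; simp [okSet]
  rw [this]
  exact MeasurableSet.iInter fun l => MeasurableSet.iInter fun _ => measurable_histAt x l (hA _).meas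

lemma okSet_succ (A : ℕ → Set Om) (m i : ℕ) (x : Om) (t : Fin (m + 1) → ℝ) :
    t ∈ okSet A (m + 1) i x ↔ push (t 0) x ∈ A i ∧ Fin.tail t ∈ okSet A m (i + 1) (push (t 0) x) := by
  simp only [okSet, mem_ofPred_eq]
  rw [Nat.forall_lt_succ_left, histAt_zero, add_zero]
  refine and_congr_right fun _ => forall_congr' fun l => forall_congr' fun _ => ?_
  rw [histAt_succ, add_assoc, add_comm 1 l]

lemma RR_eq (A : ℕ → Set Om) (hA : ∀ i, Adm s (A i)) (m : ℕ) : ∀ i x,
    (RR A hA i m).1 x = (mu m).real (okSet A m i x) := by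
  induction m with
  | zero =>
    intro i x
    have : okSet A 0 i x = univ := by ext t; simp [okSet]
    rw [this, probReal_univ]; rfl
  | succ m ih =>
    intro i x
    set e := MeasurableEquiv.piFinSuccAbove (fun _ : Fin (m + 1) => ℝ) 0 with he
    have hp : MeasurePreserving e (mu (m + 1)) (U.prod (mu m)) :=
      measurePreserving_piFinSuccAbove (fun _ : Fin (m + 1) => U) 0
    set W : Set (ℝ × (Fin m → ℝ)) := e.symm ⁻¹' okSet A (m + 1) i x with hW
    have hWm : MeasurableSet W := e.symm.measurable (meas_okSet A hA _ _ _)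
    have h1 : okSet A (m + 1) i x = e ⁻¹' W := by ext t; simp [hW]
    have h2 : ∀ a t', (a, t') ∈ W ↔ push a x ∈ A i ∧ t' ∈ okSet A m (i + 1) (push a x) := by
      intro a t'
      rw [hW, mem_preimage, okSet_succ]
      have e0 : e.symm (a, t') = Fin.cons a t' := by
        simp [he, MeasurableEquiv.piFinSuccAbove, Fin.insertNthEquiv]
      rw [e0]; simp
    rw [h1, hp.measureReal_preimage hWm.nullMeasurableSet, ← integral_indicator_one hWm,
      integral_prod _ ((integrable_const 1).indicator hWm), RR, Q_apply]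
    refine congrArg (integral U) (funext fun a => ?_)
    by_cases ha : push a x ∈ A i
    · rw [indicator_of_mem ha, ih, ← integral_indicator_one (meas_okSet A hA _ _ _)]
      refine congrArg _ (funext fun t' => ?_)
      by_cases ht : t' ∈ okSet A m (i + 1) (push a x)
      · rw [indicator_of_mem ht, indicator_of_mem ((h2 a t').mpr ⟨ha, ht⟩)]; rfl
      · rw [indicator_of_notMem ht, indicator_of_notMem fun h => ht ((h2 a t').mp h).2]
    · rw [indicator_of_notMem ha]
      symm
      have : ∀ t', W.indicator (1 : ℝ × (Fin m → ℝ) → ℝ) (a, t') = 0 := fun t' =>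
        indicator_of_notMem (fun h => ha ((h2 a t').mp h).1) _
      simp [this]

/-- points with order pattern `w` -/
def D {n : ℕ} (w : Equiv.Perm (Fin n)) : Set (Fin n → ℝ) := {t | ∀ a b, t a < t b ↔ w a < w b}

lemma meas_D {n : ℕ} (w : Equiv.Perm (Fin n)) : MeasurableSet (D w) := by
  unfold D
  measurability

lemma D_unique {n : ℕ} {w w' : Equiv.Perm (Fin n)} {t : Fin n → ℝ} (h : t ∈ D w) (h' : t ∈ D w') :
    w = w' := by
  have key : ∀ {w w' : Equiv.Perm (Fin n)}, t ∈ D w → t ∈ D w' → ∀ a, w a ≤ w' a := by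
    intro w w' h h' a
    have : StrictMono (fun i => w' (w.symm i)) := fun i j hij =>
      (h' _ _).mp ((h _ _).mpr (by simpa using hij))
    simpa using this.le_apply (x := w a)
  ext a
  exact congrArg _ (le_antisymm (key h h' a) (key h' h a))

lemma exists_D {n : ℕ} {t : Fin n → ℝ} (ht : Function.Injective t) : ∃ w, t ∈ D w := by
  refine ⟨(Tuple.sort t).symm, fun a b => ?_⟩
  have h : StrictMono (t ∘ Tuple.sort t) :=
    (Tuple.monotone_sort t).strictMono_of_injective (ht.comp (Tuple.sort t).injective)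
  simpa using h.lt_iff_lt (a := (Tuple.sort t).symm a) (b := (Tuple.sort t).symm b)

lemma ae_inj (n : ℕ) : ∀ᵐ t ∂(mu n), Function.Injective t := by
  have hac : mu n ≪ volume := by
    rw [mu, U, ← Measure.restrict_pi_pi, ← volume_pi]
    exact Measure.absolutelyContinuous_of_le Measure.restrict_le_self
  have : ∀ᵐ t ∂(mu n), ∀ a b : Fin n, a ≠ b → t a ≠ t b := by
    refine ae_all_iff.mpr fun a => ae_all_iff.mpr fun b => ?_
    by_cases hab : a = b
    · simp [hab]
    · refine hac.ae_le ?_
      set L : (Fin n → ℝ) →ₗ[ℝ] ℝ := LinearMap.proj (R := ℝ) (φ := fun _ : Fin n => ℝ) a - LinearMap.proj (R := ℝ) (φ := fun _ : Fin n => ℝ) b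
        with hL
      have h0 := Measure.addHaar_submodule (volume : Measure (Fin n → ℝ)) (LinearMap.ker L) (by
        intro h
        have : (Pi.single a 1 : Fin n → ℝ) ∈ LinearMap.ker L := by rw [h]; trivial
        simp [hL, Ne.symm hab] at this)
      refine measure_mono_null (fun t ht => ?_) h0
      simp only [mem_compl_iff, mem_ofPred_eq, not_forall, not_not] at ht
      obtain ⟨-, ht⟩ := ht
      simp [hL, ht]
  filter_upwards [this] with t ht a b hab
  by_contra h
  exact ht a b h hab

lemma mu_D {n : ℕ} (w : Equiv.Perm (Fin n)) : (mu n).real (D w) = (mu n).real (D 1) := by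
  have hp : MeasurePreserving (MeasurableEquiv.piCongrLeft (fun _ : Fin n => ℝ) w) (mu n) (mu n) :=
    measurePreserving_piCongrLeft (fun _ : Fin n => U) w
  rw [← hp.measureReal_preimage (meas_D 1).nullMeasurableSet]
  congr 1
  ext t
  simp only [D, mem_ofPred_eq, mem_preimage, Equiv.Perm.coe_one, id]
  have e : ∀ a, MeasurableEquiv.piCongrLeft (fun _ : Fin n => ℝ) w t (w a) = t a := fun a => by
    simp [MeasurableEquiv.piCongrLeft_apply_apply]
  constructor
  · intro h a b
    obtain ⟨a, rfl⟩ := w.surjective a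
    obtain ⟨b, rfl⟩ := w.surjective b
    rw [e, e]; exact h a b
  · intro h a b
    rw [← e, ← e]; exact h _ _

open Classical in
lemma mu_count {n : ℕ} (Φ : Set (Fin n → ℝ)) (Ψ : Equiv.Perm (Fin n) → Prop)
    (h : ∀ w, ∀ t ∈ D w, t ∈ Φ ↔ Ψ w) :
    (mu n).real Φ = Nat.card {w // Ψ w} * (mu n).real (D 1) := by
  have h1 : Φ =ᵐ[mu n] ⋃ w ∈ Finset.univ.filter Ψ, D w := by
    filter_upwards [ae_inj n] with t ht
    obtain ⟨w, hw⟩ := exists_D ht
    apply propext
    change t ∈ Φ ↔ t ∈ ⋃ w ∈ Finset.univ.filter Ψ, D w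
    simp only [mem_iUnion, Finset.mem_filter, Finset.mem_univ, true_and, exists_prop]
    exact ⟨fun h2 => ⟨w, (h w t hw).mp h2, hw⟩, fun ⟨w', h2, h3⟩ => (h w' t h3).mpr h2⟩
  rw [measureReal_congr h1, measureReal_biUnion_finset (fun w _ w' _ hne =>
    disjoint_left.mpr fun t h1 h2 => hne (D_unique h1 h2)) (fun w _ => meas_D w)]
  simp only [mu_D, Finset.sum_const, nsmul_eq_mul]
  rw [Nat.card_eq_fintype_card, Fintype.card_subtype]

lemma mu_D_pos (n : ℕ) : 0 < (mu n).real (D 1) := by
  have := mu_count (n := n) univ (fun _ => True) (by simp)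
  rw [probReal_univ] at this
  by_contra h
  have h0 : (mu n).real (D 1) = 0 := le_antisymm (not_lt.mp h) measureReal_nonneg
  rw [h0] at this; simp at this

/-- the recency indexed pattern of a permutation ending with an ascent -/
def toPat (π : Equiv.Perm (Fin (s + 1))) (hs : 2 ≤ s)
    (h : π ⟨s - 1, by omega⟩ < π ⟨s, by omega⟩) : Pat s where
  p i := π ⟨s - i, by omega⟩
  hs := hs
  inj i hi j hj hij := by
    have := π.injective (Fin.ext hij)
    simp only [Fin.mk.injEq] at this
    omega
  bd i _ := Nat.lt_succ_iff.mp (π _).2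
  asc := h

open Classical in
lemma count_eq (π : Equiv.Perm (Fin (s + 1))) (hs : 2 ≤ s)
    (h : π ⟨s - 1, by omega⟩ < π ⟨s, by omega⟩) (σ : Sys (V s) Om) (h1 : σ.one = oneV s)
    (h2 : σ.T = (toPat π hs h).T) (h3 : σ.S = (toPat π hs h).S) (I : Finset ℕ) (m : ℕ)
    (hI : ∀ i ∈ I, 1 ≤ i ∧ i ≤ m) :
    ((PP s ^ s) (σ.G I 1 m)).1 Pat.x1 = count π I (s + m) * (mu (s + m)).real (D 1) := by
  set ρ := toPat π hs h with hρ
  set A : ℕ → Set Om := fun l =>
    if l < s then {y | y 0 ∈ univ} else if l - s + 1 ∈ I then ρ.occ else ρ.occᶜ with hA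
  have hAdm : ∀ l, Adm s (A l) := fun l => by
    simp only [hA]
    split_ifs
    · exact adm_first MeasurableSet.univ
    · exact ρ.adm_occ
    · exact ρ.adm_nocc
  have Qc : ∀ {B C : Set Om} (hB : Adm s B) (hC : Adm s C), B = C → Q hB = Q hC := by
    rintro B C hB hC rfl; rfl
  have e1 : ∀ m j, RR A hAdm (s + j) m = σ.G I (j + 1) m := by
    intro m
    induction m with
    | zero => intro j; rw [RR, Sys.G, h1]
    | succ m ih =>
      intro j
      rw [RR, Sys.G, add_assoc, ih]
      have hn : ¬ s + j < s := by omega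
      split_ifs with hj
      · rw [h3, Qc (hAdm _) ρ.adm_occ (by simp [hA, hj])]; rfl
      · rw [h2, Qc (hAdm _) ρ.adm_nocc (by simp [hA, hj])]; rfl
  have e2 : ∀ j i, i + j = s → RR A hAdm i (j + m) = (PP s ^ j) (σ.G I 1 m) := by
    intro j
    induction j with
    | zero => intro i hi; simpa [← hi] using e1 m 0
    | succ j ih =>
      intro i hi
      rw [add_right_comm, RR, ih (i + 1) (by omega), pow_succ',
        Qc (hAdm _) (adm_first MeasurableSet.univ) (if_pos (by omega))]
      rfl
  rw [← e2 s 0 (by omega), RR_eq, count]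
  refine mu_count _ _ fun w t ht => ?_
  have hocc : ∀ j < m, histAt Pat.x1 t (s + j) ∈ ρ.occ ↔ j + 1 ∈ occSet π w := by
    intro j hj
    have hv : ∀ i (hi : i ≤ s), histAt Pat.x1 t (s + j) i = t ⟨s + j - i, by omega⟩ := fun i hi => by
      rw [histAt, if_pos (by omega), dif_pos (by omega)]
    constructor
    · intro ho
      refine ⟨by omega, by omega, fun a b x y hx hy => ?_⟩
      have := ho (s - a) (by omega) (s - b) (by omega)
      rw [hv _ (by omega), hv _ (by omega), ht] at this
      have ea : (⟨s - (s - a), by omega⟩ : Fin (s + 1)) = a := by ext; simp; omega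
      have eb : (⟨s - (s - b), by omega⟩ : Fin (s + 1)) = b := by ext; simp; omega
      have ex : (⟨s + j - (s - a), by omega⟩ : Fin (s + m)) = x := by ext; simp; omega
      have ey : (⟨s + j - (s - b), by omega⟩ : Fin (s + m)) = y := by ext; simp; omega
      simp only [hρ, toPat, ea, eb, ex, ey] at this
      exact this
    · rintro ⟨-, -, ho⟩ a ha b hb
      rw [hv a ha, hv b hb, ht]
      exact ho ⟨s - a, by omega⟩ ⟨s - b, by omega⟩ _ _ (by simp; omega) (by simp; omega)
  constructor
  · intro hok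
    ext i
    have hmem : ∀ j < m, (j + 1 ∈ occSet π w ↔ j + 1 ∈ I) := fun j hj => by
      have := hok (s + j) (by omega)
      have hn : ¬ s + j < s := by omega
      simp only [hA, zero_add, if_neg hn, add_tsub_cancel_left] at this
      rw [← hocc j hj]
      split_ifs at this with hjI
      · exact ⟨fun _ => hjI, fun _ => this⟩
      · exact ⟨fun h => absurd h this, fun h => absurd h hjI⟩
    constructor
    · intro hi
      obtain ⟨j, rfl⟩ : ∃ j, i = j + 1 := ⟨i - 1, by have := hi.1; omega⟩
      exact (hmem j (by have := hi.2.1; omega)).mp hi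
    · intro hi
      obtain ⟨p1, p2⟩ := hI i hi
      obtain ⟨j, rfl⟩ : ∃ j, i = j + 1 := ⟨i - 1, by omega⟩
      exact (hmem j (by omega)).mpr hi
  · intro hw l hl
    simp only [hA, zero_add]
    split_ifs with p1 p2
    · trivial
    · obtain ⟨j, rfl⟩ := Nat.exists_eq_add_of_le (not_lt.mp p1)
      rw [add_tsub_cancel_left] at p2
      rw [hocc j (by omega), hw]; exact p2
    · obtain ⟨j, rfl⟩ := Nat.exists_eq_add_of_le (not_lt.mp p1)
      rw [add_tsub_cancel_left] at p2
      rw [mem_compl_iff, hocc j (by omega), hw]; exact p2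

end Pool.Agent.P.MP_114da7_co
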