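import Pool.Agent.P.MP_114da7_co.Link

set_option autoImplicit false

namespace Pool.Agent.P.MP_114da7_co

open MeasureTheory Set

variable {s : ℕ}

lemma count_le {k : ℕ} (π : Equiv.Perm (Fin k)) (I : Finset ℕ) (n : ℕ) :
    count π I n ≤ n.factorial := by
  have := Finite.card_subtype_le (fun w : Equiv.Perm (Fin n) => occSet π w = (I : Set ℕ))
  rwa [Nat.card_eq_fintype_card (α := Equiv.Perm (Fin n)), Fintype.card_perm, Fintype.card_fin] at this

lemma count_pos (π : Equiv.Perm (Fin (s + 1))) (hs : 2 ≤ s)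
    (h : π ⟨s - 1, by omega⟩ < π ⟨s, by omega⟩) (n : ℕ) : 1 ≤ count π ∅ n := by
  refine Nat.card_pos_iff.mpr ⟨⟨⟨Fin.revPerm, ?_⟩⟩, inferInstance⟩
  rw [Finset.coe_empty, eq_empty_iff_forall_notMem]
  rintro i ⟨h1, h2, h3⟩
  have := (h3 ⟨s - 1, by omega⟩ ⟨s, by omega⟩ ⟨i + s - 2, by omega⟩ ⟨i + s - 1, by omega⟩
    (by simp; omega) (by simp; omega)).mpr h
  simp only [Fin.revPerm_apply, Fin.rev_lt_rev, Fin.mk_lt_mk] at this
  omega

lemma big (π : Equiv.Perm (Fin (s + 1))) (hs : 2 ≤ s)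
    (h : π ⟨s - 1, by omega⟩ < π ⟨s, by omega⟩) (a : ℕ) :
    ∃ (C K : ℝ) (d : ℕ), 0 < C ∧ 0 < K ∧ ∀ (g n : ℕ) (I : Finset ℕ), s ≤ n → I.card = a →
      (∀ i ∈ I, g + d ≤ i ∧ i + (g + d) ≤ n) → (∀ i ∈ I, ∀ j ∈ I, i < j → i + (g + d) ≤ j) →
      |(count π I n : ℝ) - C * count π ∅ n| ≤ K / (g + 1) * count π ∅ n := by
  obtain ⟨σ, h0, h1, h2, h3⟩ := (toPat π hs h).exists_sys
  obtain ⟨c, hc, hmain⟩ := σ.main
  obtain ⟨K, hK, hmain⟩ := hmain a
  refine ⟨c ^ a, K, σ.t0 + s + 1, by positivity, hK, fun g n I hn hcard hI1 hI2 => ?_⟩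
  obtain ⟨m, rfl⟩ := Nat.exists_eq_add_of_le hn
  have hb := hmain g I 1 m (by
    rw [Finset.filter_true_of_mem fun x hx => by have := (hI1 x hx).1; omega]; exact hcard)
    (fun x hx _ => by have := hI1 x hx; omega)
    (fun x hx y hy _ hxy => by have := hI2 x hx y hy hxy; omega)
  have hpos : σ.IsPos (PP s ^ s) := by
    intro f hf x
    rw [h0] at hf ⊢
    exact pow_nonneg' _ s f hf x
  have hb' := hb.map hpos Pat.x1
  have hu : σ.u m = σ.G ∅ 1 m := by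
    have := σ.G_skip ∅ m 1 0 (by simp)
    rw [add_zero] at this
    rw [this]; rfl
  rw [h0, hu] at hb'
  simp only [Pat.evV_apply] at hb'
  rw [count_eq π hs h σ h1 h2 h3 I m (fun i hi => by have := hI1 i hi; omega),
    count_eq π hs h σ h1 h2 h3 ∅ m (by simp)] at hb'
  have hd := mu_D_pos (s + m)
  obtain ⟨p1, p2⟩ := hb'
  rw [← mul_assoc] at p1 p2
  have q1 := le_of_mul_le_mul_right p1 hd
  have q2 := le_of_mul_le_mul_right p2 hd
  rw [abs_le]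
  constructor <;> linarith

lemma main_asc (π : Equiv.Perm (Fin (s + 1))) (hs : 2 ≤ s)
    (h : π ⟨s - 1, by omega⟩ < π ⟨s, by omega⟩) (a : ℕ) :
    ∃ C K : ℝ, 0 < C ∧ ∀ n : ℕ, 1 ≤ n → ∀ I : Finset ℕ, I.card = a →
      (∀ i ∈ I, √n ≤ i ∧ √n ≤ (n : ℝ) - i) → (∀ i ∈ I, ∀ j ∈ I, i < j → √n ≤ (j : ℝ) - i) →
      |(count π I n : ℝ) - C * count π ∅ n| ≤ K * (n : ℝ) ^ (-(1 / 2 : ℝ)) * C * count π ∅ n := by
  obtain ⟨C, K, d, hC, hK, hbig⟩ := big π hs h a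
  set d' := d + s + 1 with hd'
  set N := (2 * d') ^ 2 with hN
  refine ⟨C, 2 * K / C + (1 + C) * N.factorial * (2 * d') / C, hC, fun n hn I hcard hI1 hI2 => ?_⟩
  have hn0 : (0 : ℝ) < n := by exact_mod_cast hn
  have hsq : 0 < √(n : ℝ) := Real.sqrt_pos.mpr hn0
  have hpow : (n : ℝ) ^ (-(1 / 2 : ℝ)) = (√n)⁻¹ := by
    rw [Real.rpow_neg hn0.le, Real.sqrt_eq_rpow]
  have hc1 : (1 : ℝ) ≤ count π ∅ n := by exact_mod_cast count_pos π hs h n
  have e : (2 * K / C + (1 + C) * N.factorial * (2 * d') / C) * (√n)⁻¹ * C * count π ∅ n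
      = 2 * K / √n * count π ∅ n + (1 + C) * N.factorial * (2 * d' / √n) * count π ∅ n := by
    field_simp
  rw [hpow, e]
  have t1 : 0 ≤ 2 * K / √n * count π ∅ n := by positivity
  have t2 : 0 ≤ (1 + C) * N.factorial * (2 * d' / √n) * count π ∅ n := by positivity
  have hr1 : (Nat.sqrt n : ℝ) ≤ √n := Real.nat_sqrt_le_real_sqrt
  have hr2 : √(n : ℝ) ≤ Nat.sqrt n + 1 := Real.real_sqrt_le_nat_sqrt_succ
  by_cases hr : 2 * d' ≤ Nat.sqrt n
  · obtain ⟨g, hg⟩ : ∃ g, Nat.sqrt n = g + d := ⟨Nat.sqrt n - d, by omega⟩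
    have hle := Nat.sqrt_le_self n
    have h1 := hbig g n I (by omega) hcard (fun i hi => by
      obtain ⟨p1, p2⟩ := hI1 i hi
      rw [← hg]
      constructor
      · exact_mod_cast hr1.trans p1
      · have : (i : ℝ) + Nat.sqrt n ≤ n := by linarith
        exact_mod_cast this) (fun i hi j hj hij => by
      rw [← hg]
      have : (i : ℝ) + Nat.sqrt n ≤ j := by linarith [hI2 i hi j hj hij]
      exact_mod_cast this)
    have h2 : √(n : ℝ) ≤ 2 * (g + 1) := by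
      have : Nat.sqrt n + 1 ≤ 2 * (g + 1) := by omega
      have : (Nat.sqrt n : ℝ) + 1 ≤ 2 * (g + 1) := by exact_mod_cast this
      linarith
    have h3 : K / (g + 1) ≤ 2 * K / √n := by
      rw [div_le_div_iff₀ (by positivity) hsq]; nlinarith
    have h4 : K / (g + 1) * count π ∅ n ≤ 2 * K / √n * count π ∅ n := by gcongr
    linarith
  · have h1 : n ≤ N := by
      have := Nat.sqrt_lt'.mp (not_le.mp hr)
      omega
    have h2 : ∀ J, (count π J n : ℝ) ≤ N.factorial := fun J => by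
      exact_mod_cast (count_le π J n).trans (Nat.factorial_le h1)
    have h3 : 1 ≤ 2 * (d' : ℝ) / √n := by
      rw [le_div_iff₀ hsq, one_mul]
      have : Nat.sqrt n + 1 ≤ 2 * d' := by omega
      have : (Nat.sqrt n : ℝ) + 1 ≤ 2 * d' := by exact_mod_cast this
      linarith
    have h4 : (1 + C) * N.factorial * 1 * 1 ≤ (1 + C) * N.factorial * (2 * d' / √n) * count π ∅ n := by
      gcongr
    have h5 : (0 : ℝ) ≤ count π I n := Nat.cast_nonneg _
    have h6 := mul_le_mul_of_nonneg_left (h2 ∅) hC.le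
    have h7 : 0 ≤ C * count π ∅ n := by positivity
    rw [abs_le]
    constructor <;> nlinarith [h2 I]

lemma count_rev {k : ℕ} (π : Equiv.Perm (Fin k)) (I : Finset ℕ) (n : ℕ) :
    count (Fin.revPerm * π) I n = count π I n := by
  have key : ∀ w : Equiv.Perm (Fin n), occSet (Fin.revPerm * π) (Fin.revPerm * w) = occSet π w := by
    intro w
    ext i
    simp only [occSet, mem_ofPred_eq, Equiv.Perm.coe_mul, Function.comp, Fin.revPerm_apply,
      Fin.rev_lt_rev]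
    exact and_congr_right fun _ => and_congr_right fun _ =>
      ⟨fun h a b x y hx hy => h b a y x hy hx, fun h a b x y hx hy => h b a y x hy hx⟩
  symm
  exact Nat.card_congr (Equiv.subtypeEquiv (Equiv.mulLeft Fin.revPerm) fun w => by
    rw [Equiv.coe_mulLeft, key])

theorem main (k : ℕ) (hk : 3 ≤ k) (π : Equiv.Perm (Fin k)) (a : ℕ) :
    ∃ C K : ℝ, 0 < C ∧ ∀ n : ℕ, 1 ≤ n → ∀ I : Finset ℕ, I.card = a →
      (∀ i ∈ I, √n ≤ i ∧ √n ≤ (n : ℝ) - i) → (∀ i ∈ I, ∀ j ∈ I, i < j → √n ≤ (j : ℝ) - i) →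
      |(count π I n : ℝ) - C * count π ∅ n| ≤ K * (n : ℝ) ^ (-(1 / 2 : ℝ)) * C * count π ∅ n := by
  obtain ⟨s, rfl⟩ : ∃ s, k = s + 1 := ⟨k - 1, by omega⟩
  have hs : 2 ≤ s := by omega
  rcases lt_trichotomy (π ⟨s - 1, by omega⟩) (π ⟨s, by omega⟩) with h | h | h
  · exact main_asc π hs h a
  · have := π.injective h
    simp only [Fin.mk.injEq] at this
    omega
  · have := main_asc (Fin.revPerm * π) hs (by simpa using h) a
    simpa only [count_rev] using this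

lemma sep_all {x : ℝ} {n : ℕ} {I : Finset ℕ}
    (h1 : ∀ i ∈ I, (∀ j ∈ I, i ≤ j) → x ≤ (i : ℝ))
    (h2 : ∀ i ∈ I, ∀ j ∈ I, i < j → (∀ l ∈ I, l ≤ i ∨ j ≤ l) → x ≤ (j : ℝ) - i)
    (h3 : ∀ i ∈ I, (∀ j ∈ I, j ≤ i) → x ≤ (n : ℝ) - i) :
    (∀ i ∈ I, x ≤ i ∧ x ≤ (n : ℝ) - i) ∧ ∀ i ∈ I, ∀ j ∈ I, i < j → x ≤ (j : ℝ) - i := by
  refine ⟨fun i hi => ⟨?_, ?_⟩, fun i hi j hj hij => ?_⟩
  · have hne : I.Nonempty := ⟨i, hi⟩
    have p1 := h1 _ (I.min'_mem hne) fun j hj => I.min'_le j hj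
    have p2 : ((I.min' hne : ℕ) : ℝ) ≤ i := by exact_mod_cast I.min'_le i hi
    linarith
  · have hne : I.Nonempty := ⟨i, hi⟩
    have p1 := h3 _ (I.max'_mem hne) fun j hj => I.le_max' j hj
    have p2 : (i : ℝ) ≤ (I.max' hne : ℕ) := by exact_mod_cast I.le_max' i hi
    linarith
  · have hne : (I.filter (i < ·)).Nonempty := ⟨j, Finset.mem_filter.mpr ⟨hj, hij⟩⟩
    obtain ⟨q1, q2⟩ := Finset.mem_filter.mp ((I.filter (i < ·)).min'_mem hne)
    have p1 := h2 i hi _ q1 q2 fun l hl => by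
      by_cases h : l ≤ i
      · exact Or.inl h
      · exact Or.inr (Finset.min'_le _ l (Finset.mem_filter.mpr ⟨hl, not_le.mp h⟩))
    have p2 : (((I.filter (i < ·)).min' hne : ℕ) : ℝ) ≤ j := by
      exact_mod_cast Finset.min'_le _ j (Finset.mem_filter.mpr ⟨hj, hij⟩)
    linarith

end Pool.Agent.P.MP_114da7_co
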