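import Mathlib

set_option autoImplicit false

namespace Pool.Agent.P.MP_114da7_co

open MeasureTheory Set

/-- histories, most recent value first -/
abbrev Om := ℕ → ℝ

def push (t : ℝ) (x : Om) : Om := fun i => Nat.casesOn i t x

@[simp] lemma push_zero (t : ℝ) (x : Om) : push t x 0 = t := rfl
@[simp] lemma push_succ (t : ℝ) (x : Om) (i : ℕ) : push t x (i + 1) = x i := rfl

lemma measurable_push : Measurable (fun q : Om × ℝ => push q.2 q.1) := by
  refine measurable_pi_iff.mpr fun i => ?_
  cases i with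
  | zero => exact measurable_snd
  | succ i => exact (measurable_pi_apply i).comp measurable_fst

lemma measurable_push_left (x : Om) : Measurable (fun t : ℝ => push t x) :=
  measurable_push.comp (measurable_const.prodMk measurable_id)

/-- uniform measure on the unit interval -/
noncomputable def U : Measure ℝ := volume.restrict (Icc 0 1)

instance : IsProbabilityMeasure U := ⟨by simp [U]⟩

lemma U_Ioo {p q : ℝ} (hp : 0 ≤ p) (hpq : p ≤ q) (hq : q ≤ 1) : U.real (Ioo p q) = q - p := by
  have : Ioo p q ∩ Icc 0 1 = Ioo p q :=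
    inter_eq_left.mpr fun t ht => ⟨hp.trans ht.1.le, ht.2.le.trans hq⟩
  rw [U, measureReal_restrict_apply measurableSet_Ioo, this]
  simp [hpq]

lemma U_Icc_le {p q : ℝ} (hpq : p ≤ q) : U.real (Icc p q) ≤ q - p := by
  rw [U, measureReal_restrict_apply measurableSet_Icc]
  refine (measureReal_mono inter_subset_left (by simp)).trans ?_
  simp [hpq]

lemma U_ae : ∀ᵐ t ∂U, t ∈ Icc (0 : ℝ) 1 := ae_restrict_mem measurableSet_Icc

def Dep (d : ℕ) (f : Om → ℝ) : Prop := ∀ x y, (∀ i < d, x i = y i) → f x = f y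

/-- bounded measurable functions of the last `s` values -/
def V (s : ℕ) : Submodule ℝ (Om → ℝ) where
  carrier := {f | Measurable f ∧ (∃ C, ∀ x, |f x| ≤ C) ∧ Dep s f}
  add_mem' := by
    rintro f g ⟨h1, ⟨C, h2⟩, h3⟩ ⟨h4, ⟨D, h5⟩, h6⟩
    refine ⟨h1.add h4, ⟨C + D, fun x => (abs_add_le _ _).trans (add_le_add (h2 x) (h5 x))⟩,
      fun x y h => ?_⟩
    simp only [Pi.add_apply]; rw [h3 x y h, h6 x y h]
  zero_mem' := ⟨measurable_const, ⟨0, by simp⟩, fun _ _ _ => rfl⟩
  smul_mem' := by
    rintro c f ⟨h1, ⟨C, h2⟩, h3⟩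
    refine ⟨h1.const_smul c, ⟨|c| * C, fun x => ?_⟩, fun x y h => ?_⟩
    · simp only [Pi.smul_apply, smul_eq_mul, abs_mul]; gcongr; exact h2 x
    · simp only [Pi.smul_apply]; rw [h3 x y h]

structure Adm (s : ℕ) (A : Set Om) : Prop where
  meas : MeasurableSet A
  dep : ∀ x y : Om, (∀ i < s + 1, x i = y i) → x ∈ A → y ∈ A

variable {s : ℕ}

lemma integrable_ind {A : Set Om} (hA : MeasurableSet A) (f : V s) (x : Om) :
    Integrable (fun t => A.indicator f.1 (push t x)) U := by
  obtain ⟨h1, ⟨C, h2⟩, -⟩ := f.2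
  refine Integrable.of_bound (((h1.indicator hA).comp (measurable_push_left x)).aestronglyMeasurable)
    C (Filter.Eventually.of_forall fun t => ?_)
  by_cases h : push t x ∈ A
  · rw [indicator_of_mem h]; exact h2 _
  · rw [indicator_of_notMem h]; simpa using (abs_nonneg _).trans (h2 x)

/-- one step operator -/
noncomputable def Q {A : Set Om} (hA : Adm s A) : V s →ₗ[ℝ] V s where
  toFun f := ⟨fun x => ∫ t, A.indicator f.1 (push t x) ∂U, by
    obtain ⟨h1, ⟨C, h2⟩, h3⟩ := f.2
    refine ⟨?_, ⟨C, fun x => ?_⟩, fun x y h => ?_⟩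
    · exact (StronglyMeasurable.integral_prod_right' (ν := U)
        ((h1.indicator hA.meas).comp measurable_push).stronglyMeasurable).measurable
    · have := norm_integral_le_of_norm_le_const (μ := U) (C := C)
        (f := fun t => A.indicator f.1 (push t x)) (Filter.Eventually.of_forall fun t => by
          by_cases h : push t x ∈ A
          · rw [indicator_of_mem h]; exact h2 _
          · rw [indicator_of_notMem h]; simpa using (abs_nonneg _).trans (h2 x))
      simpa using this
    · refine congrArg (integral U) (funext fun t => ?_)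
      have hp : ∀ i < s + 1, push t x i = push t y i := by
        intro i hi
        cases i with
        | zero => rfl
        | succ i => exact h i (by omega)
      by_cases hx : push t x ∈ A
      · rw [indicator_of_mem hx, indicator_of_mem (hA.dep _ _ hp hx)]
        exact h3 _ _ fun i hi => hp i (by omega)
      · rw [indicator_of_notMem hx, indicator_of_notMem
          fun hy => hx (hA.dep _ _ (fun i hi => (hp i hi).symm) hy)]⟩
  map_add' f g := by
    ext x
    simp only [Submodule.coe_add, Pi.add_apply]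
    rw [← integral_add (integrable_ind hA.meas f x) (integrable_ind hA.meas g x)]
    congr 1; funext t
    by_cases h : push t x ∈ A <;> simp [h]
  map_smul' c f := by
    ext x
    simp only [Submodule.coe_smul, Pi.smul_apply, smul_eq_mul, RingHom.id_apply]
    rw [← integral_const_mul]
    congr 1; funext t
    by_cases h : push t x ∈ A <;> simp [h]

lemma Q_apply {A : Set Om} (hA : Adm s A) (f : V s) (x : Om) :
    (Q hA f).1 x = ∫ t, A.indicator f.1 (push t x) ∂U := rfl

/-- master comparison lemma -/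
lemma Q_cmp {A B : Set Om} (hA : Adm s A) (hB : Adm s B) (f g : V s) (x y : Om) (a b c : ℝ)
    {J : Set ℝ} (hJ : MeasurableSet J)
    (h : ∀ t ∈ Icc (0 : ℝ) 1, a * A.indicator f.1 (push t x) ≤
      b * B.indicator g.1 (push t y) + J.indicator (fun _ => c) t) :
    a * (Q hA f).1 x ≤ b * (Q hB g).1 y + U.real J * c := by
  rw [Q_apply, Q_apply, ← integral_const_mul, ← integral_const_mul]
  have h1 : U.real J * c = ∫ t, J.indicator (fun _ => c) t ∂U := by
    rw [integral_indicator hJ]; simp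
  have h2 : Integrable (J.indicator (fun _ => c)) U := (integrable_const c).indicator hJ
  rw [h1, ← integral_add ((integrable_ind hB.meas g y).const_mul b) h2]
  refine integral_mono_ae ((integrable_ind hA.meas f x).const_mul a)
    (((integrable_ind hB.meas g y).const_mul b).add h2) ?_
  filter_upwards [U_ae] with t ht using h t ht

lemma Q_le {A B : Set Om} (hA : Adm s A) (hB : Adm s B) (f g : V s) (x y : Om) (a b : ℝ)
    (h : ∀ t ∈ Icc (0 : ℝ) 1, a * A.indicator f.1 (push t x) ≤ b * B.indicator g.1 (push t y)) :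
    a * (Q hA f).1 x ≤ b * (Q hB g).1 y := by
  simpa using Q_cmp hA hB f g x y a b 0 MeasurableSet.empty (by simpa using h)

lemma Q_mono {A : Set Om} (hA : Adm s A) (f g : V s) (x : Om) (a b : ℝ)
    (h : ∀ t ∈ Icc (0 : ℝ) 1, push t x ∈ A → a * f.1 (push t x) ≤ b * g.1 (push t x)) :
    a * (Q hA f).1 x ≤ b * (Q hA g).1 x := by
  refine Q_le hA hA f g x x a b fun t ht => ?_
  by_cases hx : push t x ∈ A
  · simpa [hx] using h t ht hx
  · simp [hx]

lemma Q_nonneg {A : Set Om} (hA : Adm s A) (f : V s) (hf : ∀ x, 0 ≤ f.1 x) (x : Om) :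
    0 ≤ (Q hA f).1 x := by
  simpa using Q_mono hA f f x 0 1 (fun t _ _ => by simpa using hf _)

lemma Q_low {A : Set Om} (hA : Adm s A) (f : V s) (hf : ∀ x, 0 ≤ f.1 x) (x : Om) {J : Set ℝ}
    (hJ : MeasurableSet J) (b : ℝ)
    (h : ∀ t ∈ Icc (0 : ℝ) 1, t ∈ J → push t x ∈ A ∧ b ≤ f.1 (push t x)) :
    U.real J * b ≤ (Q hA f).1 x := by
  have := Q_cmp hA hA f f x x 0 1 (-b) hJ (fun t ht => by
    by_cases h1 : t ∈ J
    · obtain ⟨h2, h3⟩ := h t ht h1
      simp [h1, h2, h3]
    · by_cases h2 : push t x ∈ A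
      · simp [h1, h2, hf]
      · simp [h1, h2])
  linarith

lemma Q_upp {A : Set Om} (hA : Adm s A) (f : V s) (x : Om) {J : Set ℝ}
    (hJ : MeasurableSet J) {b : ℝ} (hb : 0 ≤ b)
    (h : ∀ t ∈ Icc (0 : ℝ) 1, push t x ∈ A → t ∈ J ∧ f.1 (push t x) ≤ b) :
    (Q hA f).1 x ≤ U.real J * b := by
  have := Q_cmp hA hA f f x x 1 0 b hJ (fun t ht => by
    by_cases h2 : push t x ∈ A
    · obtain ⟨h1, h3⟩ := h t ht h2
      simp [h1, h2, h3]
    · by_cases h1 : t ∈ J
      · simp [h1, h2, hb]
      · simp [h1, h2])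
  linarith

def oneV (s : ℕ) : V s := ⟨fun _ => 1, measurable_const, ⟨1, by simp⟩, fun _ _ _ => rfl⟩

@[simp] lemma oneV_apply (x : Om) : (oneV s).1 x = 1 := rfl

lemma Q_le_of_le {A : Set Om} (hA : Adm s A) (f : V s) (x : Om) {b : ℝ} (hb : 0 ≤ b)
    (h : ∀ y, f.1 y ≤ b) : (Q hA f).1 x ≤ b := by
  simpa using Q_upp hA f x MeasurableSet.univ hb (fun t _ _ => ⟨trivial, h _⟩)

lemma adm_first {J : Set ℝ} (hJ : MeasurableSet J) : Adm s {y | y 0 ∈ J} :=
  ⟨measurable_pi_apply 0 hJ, fun x y h hx => by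
    have := h 0 (by omega)
    simp only [mem_ofPred_eq] at hx ⊢
    rwa [← this]⟩

/-- a family of measurable sets -/
structure Fam where
  J : ℕ → Set ℝ
  meas : ∀ i, MeasurableSet (J i)

/-- chain of steps restricted to prescribed sets -/
noncomputable def QF (s : ℕ) (F : Fam) : ℕ → ℕ → (V s →ₗ[ℝ] V s)
  | _, 0 => 1
  | i, m + 1 => Q (adm_first (F.meas i)) * QF s F (i + 1) m

def Path (F : Fam) (i m : ℕ) (x z : Om) : Prop :=
  (∀ l < m, z l ∈ F.J (i + (m - 1 - l))) ∧ ∀ l, z (m + l) = x l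

lemma Path.zero (F : Fam) (i : ℕ) (x : Om) : Path F i 0 x x := ⟨by simp, by simp⟩

lemma Path.cons {F : Fam} {i m : ℕ} {x z : Om} {t : ℝ} (ht : t ∈ F.J i)
    (h : Path F (i + 1) m (push t x) z) : Path F i (m + 1) x z := by
  refine ⟨fun l hl => ?_, fun l => ?_⟩
  · rcases Nat.lt_succ_iff_lt_or_eq.mp hl with h1 | rfl
    · have := h.1 l h1
      have e : i + (m + 1 - 1 - l) = i + 1 + (m - 1 - l) := by omega
      rwa [e]
    · have := h.2 0
      simp only [add_zero, push_zero] at this
      simpa [this] using ht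
  · have := h.2 (l + 1)
    simp only [push_succ] at this
    rw [← this]; congr 1; omega

lemma QF_mono (F : Fam) (f g : V s) (a b : ℝ) (m : ℕ) : ∀ (i : ℕ) (x : Om),
    (∀ z, Path F i m x z → a * f.1 z ≤ b * g.1 z) →
    a * (QF s F i m f).1 x ≤ b * (QF s F i m g).1 x := by
  induction m with
  | zero => intro i x h; exact h x (Path.zero F i x)
  | succ m ih =>
    intro i x h
    exact Q_mono (adm_first (F.meas i)) _ _ x a b fun t _ ht => ih (i + 1) _ fun z hz => h z (Path.cons ht hz)

lemma QF_nonneg (F : Fam) (f : V s) (hf : ∀ x, 0 ≤ f.1 x) (i m : ℕ) (x : Om) :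
    0 ≤ (QF s F i m f).1 x := by
  simpa using QF_mono F f f 0 1 m i x (fun z _ => by simpa using hf z)

lemma pow_nonneg' {A : Set Om} (hA : Adm s A) (m : ℕ) (f : V s) (hf : ∀ x, 0 ≤ f.1 x) :
    ∀ x, 0 ≤ ((Q hA ^ m) f).1 x := by
  induction m with
  | zero => simpa using hf
  | succ m ih => rw [pow_succ']; exact Q_nonneg hA _ ih

lemma pow_mono {A : Set Om} (hA : Adm s A) (m : ℕ) (f g : V s) (a b : ℝ)
    (h : ∀ x, a * f.1 x ≤ b * g.1 x) : ∀ x, a * ((Q hA ^ m) f).1 x ≤ b * ((Q hA ^ m) g).1 x := by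
  induction m with
  | zero => simpa using h
  | succ m ih => intro x; rw [pow_succ']; exact Q_mono hA _ _ x a b fun t _ _ => ih _

lemma QF_le_pow {A : Set Om} (hA : Adm s A) (F : Fam) (g : V s) (hg : ∀ x, 0 ≤ g.1 x) (m : ℕ) :
    ∀ (i : ℕ) (x : Om), (∀ l < m, ∀ z, Path F i (l + 1) x z → z ∈ A) →
    (QF s F i m g).1 x ≤ ((Q hA ^ m) g).1 x := by
  induction m with
  | zero => intro i x _; exact le_rfl
  | succ m ih =>
    intro i x h
    rw [pow_succ']
    have := Q_le (adm_first (F.meas i)) hA (QF s F (i + 1) m g) ((Q hA ^ m) g) x x 1 1 (fun t _ => by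
      by_cases ht : t ∈ F.J i
      · have h1 : push t x ∈ A := h 0 (by omega) _ (Path.cons ht (Path.zero F _ _))
        rw [indicator_of_mem h1, indicator_of_mem (by simpa using ht), one_mul, one_mul]
        exact ih (i + 1) _ fun l hl z hz => h (l + 1) (by omega) z (Path.cons ht hz)
      · rw [indicator_of_notMem (by simpa using ht), one_mul, one_mul]
        exact indicator_nonneg (fun y _ => pow_nonneg' hA m g hg y) _)
    rw [one_mul, one_mul] at this
    exact this

lemma QF_dep (F : Fam) (g : V s) (m : ℕ) : ∀ (i d : ℕ), Dep (d + m) g.1 → Dep d (QF s F i m g).1 := by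
  induction m with
  | zero => intro i d h; exact h
  | succ m ih =>
    intro i d h x y hxy
    have h1 := ih (i + 1) (d + 1) (by rwa [add_assoc, add_comm 1 m])
    change (Q (adm_first (F.meas i)) _).1 x = (Q (adm_first (F.meas i)) _).1 y
    rw [Q_apply, Q_apply]
    congr 1; funext t
    by_cases ht : t ∈ F.J i
    · rw [indicator_of_mem (by simpa using ht), indicator_of_mem (by simpa using ht)]
      refine h1 _ _ fun j hj => ?_
      cases j with
      | zero => rfl
      | succ j => exact hxy j (by omega)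
    · rw [indicator_of_notMem (by simpa using ht), indicator_of_notMem (by simpa using ht)]

lemma QF_const (F : Fam) (g : V s) {m : ℕ} (hm : s ≤ m) (i : ℕ) (x y : Om) :
    (QF s F i m g).1 x = (QF s F i m g).1 y :=
  QF_dep F g m i 0 (fun x y h => g.2.2.2 x y fun j hj => h j (by omega)) x y (by simp)

lemma QF_one_pos (F : Fam) (m : ℕ) : ∀ i, (∀ l < m, 0 < U.real (F.J (i + l))) →
    ∃ c, 0 < c ∧ ∀ x, c ≤ (QF s F i m (oneV s)).1 x := by
  induction m with
  | zero => intro i _; exact ⟨1, one_pos, fun x => le_rfl⟩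
  | succ m ih =>
    intro i h
    obtain ⟨c, hc, h1⟩ := ih (i + 1) fun l hl => by
      have := h (l + 1) (by omega)
      rwa [← add_assoc, add_right_comm] at this
    refine ⟨U.real (F.J i) * c, mul_pos (h 0 (by omega)) hc, fun x => ?_⟩
    exact Q_low (adm_first (F.meas i)) _ (fun y => hc.le.trans (h1 y)) x (F.meas i) c fun t _ ht => ⟨ht, h1 _⟩

/-- the family of unrestricted steps -/
def Fu : Fam := ⟨fun _ => univ, fun _ => MeasurableSet.univ⟩

/-- the unrestricted step -/
noncomputable def PP (s : ℕ) : V s →ₗ[ℝ] V s := Q (adm_first MeasurableSet.univ)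

lemma QF_univ (F : Fam) (m : ℕ) : ∀ i, (∀ l, i ≤ l → F.J l = univ) → QF s F i m = PP s ^ m := by
  induction m with
  | zero => intro i _; rfl
  | succ m ih =>
    intro i h
    rw [pow_succ', QF, ih (i + 1) fun l hl => h l (by omega)]
    congr 1
    ext f x
    rw [PP, Q_apply, Q_apply, h i le_rfl]

lemma P_const (g : V s) {m : ℕ} (hm : s ≤ m) (x y : Om) : ((PP s ^ m) g).1 x = ((PP s ^ m) g).1 y := by
  rw [← QF_univ Fu m 0 fun _ _ => rfl]
  exact QF_const Fu g hm 0 x y

lemma Q_le_P {A : Set Om} (hA : Adm s A) (g : V s) (hg : ∀ x, 0 ≤ g.1 x) (x : Om) :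
    (Q hA g).1 x ≤ (PP s g).1 x := by
  have := Q_le hA (adm_first MeasurableSet.univ) g g x x 1 1 (fun t _ => by
    by_cases h : push t x ∈ A
    · simp [h]
    · simp [h, hg])
  rw [one_mul, one_mul] at this
  exact this

lemma pow_le_P {A : Set Om} (hA : Adm s A) (g : V s) (hg : ∀ x, 0 ≤ g.1 x) (m : ℕ) :
    ∀ x, ((Q hA ^ m) g).1 x ≤ ((PP s ^ m) g).1 x := by
  induction m with
  | zero => intro x; exact le_rfl
  | succ m ih =>
    intro x
    rw [pow_succ', pow_succ']
    refine (Q_le_P hA _ (pow_nonneg' hA m g hg) x).trans ?_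
    have := Q_mono (adm_first MeasurableSet.univ) ((Q hA ^ m) g) ((PP s ^ m) g) x 1 1
      (fun t _ _ => by simpa using ih _)
    rw [one_mul, one_mul] at this
    exact this

end Pool.Agent.P.MP_114da7_co
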