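import Pool.Agent.P.MP_114da7_co.Ops

set_option autoImplicit false

namespace Pool.Agent.P.MP_114da7_co

open MeasureTheory Set

/-- a pattern of length `s+1` indexed by recency, ending with an ascent -/
structure Pat (s : ℕ) where
  p : ℕ → ℕ
  hs : 2 ≤ s
  inj : ∀ i ≤ s, ∀ j ≤ s, p i = p j → i = j
  bd : ∀ i ≤ s, p i ≤ s
  asc : p 1 < p 0

namespace Pat

variable {s : ℕ} (π : Pat s)

def occ : Set Om := {x | ∀ i ≤ s, ∀ j ≤ s, x i < x j ↔ π.p i < π.p j}

lemma occ_dep (x y : Om) (h : ∀ i < s + 1, x i = y i) (hx : x ∈ π.occ) : y ∈ π.occ := by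
  intro i hi j hj
  rw [← h i (by omega), ← h j (by omega)]
  exact hx i hi j hj

lemma meas_occ : MeasurableSet π.occ := by
  unfold occ
  measurability

lemma adm_occ : Adm s π.occ := ⟨π.meas_occ, π.occ_dep⟩

lemma adm_nocc : Adm s π.occᶜ :=
  ⟨π.meas_occ.compl, fun x y h hx hy => hx (π.occ_dep y x (fun i hi => (h i hi).symm) hy)⟩

noncomputable def T : V s →ₗ[ℝ] V s := Q π.adm_nocc
noncomputable def S : V s →ₗ[ℝ] V s := Q π.adm_occ

lemma not_occ {x : Om} {i j : ℕ} (hi : i ≤ s) (hj : j ≤ s) (hp : π.p i < π.p j) (hx : x j ≤ x i) :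
    x ∈ π.occᶜ := fun h => absurd ((h i hi j hj).mpr hp) (not_lt.mpr hx)

lemma desc_safe {x : Om} (hx : x 0 ≤ x 1) : x ∈ π.occᶜ :=
  π.not_occ (by have := π.hs; omega) (by omega) π.asc hx

lemma Tpow_nonneg (m : ℕ) (f : V s) (hf : ∀ x, 0 ≤ f.1 x) : ∀ x, 0 ≤ ((π.T ^ m) f).1 x :=
  pow_nonneg' _ m f hf

lemma Tpow_mono (m : ℕ) (f g : V s) (a b : ℝ) (h : ∀ x, a * f.1 x ≤ b * g.1 x) :
    ∀ x, a * ((π.T ^ m) f).1 x ≤ b * ((π.T ^ m) g).1 x := pow_mono _ m f g a b h

noncomputable def u (m : ℕ) : V s := (π.T ^ m) (oneV s)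

lemma u_nonneg (m : ℕ) : ∀ x, 0 ≤ (π.u m).1 x := π.Tpow_nonneg m _ (by simp)

lemma u_succ (m : ℕ) : π.u (m + 1) = π.T (π.u m) := by rw [u, pow_succ']; rfl

lemma pow_u (m N : ℕ) : (π.T ^ m) (π.u N) = π.u (m + N) := by
  simp only [u, pow_add, Module.End.mul_apply]

lemma u_le_one (m : ℕ) : ∀ x, (π.u m).1 x ≤ 1 := by
  induction m with
  | zero => intro x; exact le_rfl
  | succ m ih => intro x; rw [u_succ]; exact Q_le_of_le _ _ x zero_le_one ih

lemma u_add_le (m j : ℕ) (x : Om) : (π.u (m + j)).1 x ≤ (π.u m).1 x := by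
  have := π.Tpow_mono m (π.u j) (oneV s) 1 1 (fun x => by simpa using π.u_le_one j x) x
  rw [one_mul, one_mul, pow_u] at this
  exact this

/-- indicator that coordinate `i` is at least one half -/
noncomputable def hi (s i : ℕ) (h : i < s) : V s :=
  ⟨{y : Om | 1 / 2 ≤ y i}.indicator 1,
    measurable_const.indicator (measurableSet_le measurable_const (measurable_pi_apply i)),
    ⟨1, fun x => by simp only [indicator]; split_ifs <;> simp⟩,
    fun x y hxy => by simp [indicator, hxy i h]⟩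

lemma hi_apply {i : ℕ} (h : i < s) (y : Om) : (hi s i h).1 y = if 1 / 2 ≤ y i then 1 else 0 := by
  simp [hi, indicator]

lemma hi_nonneg {i : ℕ} (h : i < s) (y : Om) : 0 ≤ (hi s i h).1 y := by
  rw [hi_apply]; split_ifs <;> norm_num

lemma s_pos (π : Pat s) : 0 < s := by have := π.hs; omega

noncomputable def gV : V s := hi s 0 π.s_pos

lemma gV_nonneg (y : Om) : 0 ≤ π.gV.1 y := hi_nonneg _ y

lemma half_le {y : Om} (h : ∀ t, 1 / 2 < t → push t y ∈ π.occᶜ) : 1 / 2 ≤ (π.T π.gV).1 y := by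
  have := Q_low π.adm_nocc π.gV π.gV_nonneg y (J := Ioo (1 / 2) 1) measurableSet_Ioo 1
    (fun t _ ht => ⟨h t ht.1, by rw [gV, hi_apply, if_pos (by simpa using ht.1.le)]⟩)
  rw [U_Ioo (by norm_num) (by norm_num) le_rfl] at this
  norm_num at this ⊢
  exact this

def GoodBound (t1 : ℕ) (C : ℝ) : Prop :=
  ∀ x M, (∀ i ≤ t1, ((π.T ^ i) π.gV).1 x ≤ M) → (π.u t1).1 x ≤ C * M

lemma T_hi (i : ℕ) : ∀ (h : i < s) (x : Om), ((π.T ^ i) (hi s i h)).1 x ≤ π.gV.1 x := by
  induction i with
  | zero => intro h x; exact le_rfl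
  | succ i ih =>
    intro h x
    refine le_trans ?_ (ih (by omega) x)
    have := π.Tpow_mono i (π.T (hi s (i + 1) h)) (hi s i (by omega)) 1 1 (fun y => by
      rw [one_mul, one_mul]
      have hi' : i < s := by omega
      have := Q_upp π.adm_nocc (hi s (i + 1) h) y MeasurableSet.univ (hi_nonneg hi' y)
        (fun t _ _ => ⟨trivial, by rw [hi_apply, hi_apply]; exact le_rfl⟩)
      rw [probReal_univ, one_mul] at this
      exact this) x
    rw [one_mul, one_mul] at this
    rw [pow_succ]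
    exact this

lemma case1 {j : ℕ} (hj : j < s) (hp : π.p 0 < π.p (j + 1)) : π.GoodBound (s + 1) (2 + s) := by
  intro x M hM
  have h1 : ∀ y, 1 * (oneV s).1 y ≤ 1 * ((2 : ℝ) • π.T π.gV + ∑ i : Fin s, hi s i i.2 : V s).1 y := by
    intro y
    simp only [one_mul, oneV_apply, Submodule.coe_add, Submodule.coe_smul, Submodule.coe_sum,
      Pi.add_apply, Pi.smul_apply, smul_eq_mul, Finset.sum_apply]
    have h2 : 0 ≤ (π.T π.gV).1 y := Q_nonneg _ _ π.gV_nonneg y
    have h3 : ∀ i : Fin s, (hi s i i.2).1 y ≤ ∑ i : Fin s, (hi s i i.2).1 y := fun i =>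
      Finset.single_le_sum (f := fun i : Fin s => (hi s i i.2).1 y) (fun i _ => hi_nonneg _ y)
        (Finset.mem_univ i)
    by_cases h : 1 / 2 ≤ y j
    · have := h3 ⟨j, hj⟩
      rw [hi_apply, if_pos h] at this
      linarith
    · have h4 := π.half_le (y := y) fun t ht =>
        π.not_occ (i := 0) (j := j + 1) (by omega) (by omega) hp (by simp; linarith)
      have := (hi_nonneg hj y).trans (h3 ⟨j, hj⟩)
      linarith
  have h2 := π.Tpow_mono s _ _ 1 1 h1 x
  simp only [one_mul, map_add, map_smul, map_sum, Submodule.coe_add, Submodule.coe_smul,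
    Submodule.coe_sum, Pi.add_apply, Pi.smul_apply, smul_eq_mul, Finset.sum_apply] at h2
  have h3 : ((π.T ^ s) (π.T π.gV)).1 x ≤ M := by
    have := hM (s + 1) le_rfl
    rwa [pow_succ] at this
  have h4 : ∀ i : Fin s, ((π.T ^ s) (hi s i i.2)).1 x ≤ M := by
    intro i
    have e : π.T ^ s = π.T ^ (s - i) * π.T ^ (i : ℕ) := by rw [← pow_add]; congr 1; omega
    have := π.Tpow_mono (s - i) _ _ 1 1 (fun y => by simpa using π.T_hi i i.2 y) x
    rw [one_mul, one_mul] at this
    rw [e]
    exact this.trans (hM _ (by omega))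
  have h5 : ∑ i : Fin s, ((π.T ^ s) (hi s i i.2)).1 x ≤ s * M := by
    simpa using Finset.sum_le_card_nsmul Finset.univ _ M fun i _ => h4 i
  have h6 := π.u_add_le s 1 x
  have h7 : (π.u s).1 x = ((π.T ^ s) (oneV s)).1 x := rfl
  linarith

def NF (y : Om) : Prop := ∃ t, push t y ∈ π.occ

lemma free_half {y : Om} (h : ¬ π.NF y) : 1 / 2 ≤ (π.T π.gV).1 y :=
  π.half_le fun t _ ht => h ⟨t, ht⟩

lemma NF.iff {π : Pat s} {y : Om} (h : π.NF y) {i j : ℕ} (hi : i < s) (hj : j < s) :
    y i < y j ↔ π.p (i + 1) < π.p (j + 1) := by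
  obtain ⟨t, ht⟩ := h
  exact ht (i + 1) hi (j + 1) hj

lemma anti_iff {α : Type} [LinearOrder α] (f : ℕ → α) (h : ∀ i, i + 1 ≤ s → f (i + 1) < f i) :
    ∀ i ≤ s, ∀ j ≤ s, f i < f j ↔ j < i := by
  have key : ∀ d j, j + d + 1 ≤ s → f (j + d + 1) < f j := by
    intro d
    induction d with
    | zero => intro j hj; exact h j hj
    | succ d ih => intro j hj; exact (h (j + d + 1) hj).trans (ih j (by omega))
  have key2 : ∀ i ≤ s, ∀ j, j < i → f i < f j := by
    intro i hi j hj
    obtain ⟨d, rfl⟩ := Nat.exists_eq_add_of_lt hj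
    exact key d j hi
  intro i hi j hj
  refine ⟨fun hlt => ?_, key2 i hi j⟩
  by_contra hn
  rcases Nat.lt_or_eq_of_le (not_lt.mp hn) with h1 | rfl
  · exact absurd (key2 j hj i h1) (not_lt.mpr hlt.le)
  · exact lt_irrefl _ hlt

lemma free_lemma (h21 : π.p 2 < π.p 1) {y : Om} {t : ℝ} (hy : π.NF y) (hz : π.NF (push t y)) :
    push t y ∈ π.occ := by
  have hs := π.hs
  have hp : ∀ i, i + 2 ≤ s → π.p (i + 2) < π.p (i + 1) := by
    intro i
    induction i with
    | zero => intro _; exact h21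
    | succ i ih =>
      intro hi
      have h1 := (hy.iff (i := i + 1) (j := i) (by omega) (by omega)).mpr (ih (by omega))
      exact (hz.iff (i := i + 2) (j := i + 1) (by omega) (by omega)).mp h1
  have hp' : ∀ i, i + 1 ≤ s → π.p (i + 1) < π.p i := by
    intro i hi
    cases i with
    | zero => exact π.asc
    | succ i => exact hp i hi
  have hz' : ∀ i, i + 1 ≤ s → push t y (i + 1) < push t y i := by
    intro i hi
    cases i with
    | zero => exact (hz.iff (i := 1) (j := 0) (by omega) (by omega)).mpr h21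
    | succ i => exact (hy.iff (i := i + 1) (j := i) (by omega) (by omega)).mpr (hp i hi)
  intro i hi j hj
  rw [anti_iff _ hz' i hi j hj, anti_iff _ hp' i hi j hj]

lemma case2 (h21 : π.p 2 < π.p 1) : π.GoodBound 2 2 := by
  intro x M hM
  refine (π.u_add_le 1 1 x).trans ?_
  by_cases hx : π.NF x
  · have h1 := Q_mono π.adm_nocc (oneV s) (π.T π.gV) x 1 2 (fun t _ ht => by
      have := π.free_half (y := push t x) fun hz => ht (π.free_lemma h21 hx hz)
      simp only [oneV_apply]; linarith)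
    have h2 := hM 2 le_rfl
    rw [pow_two] at h2
    rw [one_mul] at h1
    exact h1.trans (mul_le_mul_of_nonneg_left h2 (by norm_num))
  · have h1 := π.free_half hx
    have h2 := hM 1 (by omega)
    rw [pow_one] at h2
    linarith [π.u_le_one 1 x]

lemma case3 (hmax : ∀ j < s, π.p (j + 1) < π.p 0) (h12 : π.p 1 < π.p 2) : π.GoodBound 3 10 := by
  have hs := π.hs
  obtain ⟨j1, hj1, hj1max⟩ := Finset.exists_max_image (Finset.range s) (fun i => π.p (i + 1))
    ⟨0, by simp; omega⟩
  simp only [Finset.mem_range] at hj1 hj1max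
  obtain ⟨j, rfl⟩ : ∃ j, j1 = j + 1 := by
    cases j1 with
    | zero => have := hj1max 1 (by omega); simp at this; omega
    | succ j => exact ⟨j, rfl⟩
  have safe : ∀ (y : Om) (t : ℝ) (i : ℕ), i < s → t ≤ y i → push t y ∈ π.occᶜ := fun y t i hi ht =>
    π.not_occ (i := i + 1) (j := 0) hi (by omega) (hmax i hi) ht
  have nfmax : ∀ y, π.NF y → ∀ i < s, y i ≤ y (j + 1) := fun y hy i hi => by
    by_contra hn
    have := (hy.iff hj1 hi).mp (not_le.mp hn)
    have := hj1max i hi
    omega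
  have nfocc : ∀ y, π.NF y → ∀ t, y (j + 1) < t → push t y ∈ π.occ := by
    intro y hy t ht a ha b hb
    cases a with
    | zero =>
      cases b with
      | zero => simp
      | succ b =>
        have h1 := nfmax y hy b hb
        have h2 := hmax b hb
        simp only [push_zero, push_succ]
        constructor
        · intro h; linarith
        · intro h; omega
    | succ a =>
      cases b with
      | zero =>
        have h1 := nfmax y hy a ha
        have h2 := hmax a ha
        simp only [push_zero, push_succ]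
        constructor
        · intro _; exact h2
        · intro _; linarith
      | succ b => exact hy.iff ha hb
  have nfdesc : ∀ y, π.NF y → y 0 < y 1 := fun y hy =>
    (hy.iff (i := 0) (j := 1) (by omega) (by omega)).mpr h12
  intro x M hM
  refine (π.u_add_le 2 1 x).trans ?_
  set m := max 0 (min (x 0) 1) with hm
  set b := max 0 (min (x j) 1) with hb
  have hm0 : 0 ≤ m := le_max_left _ _
  have hb0 : 0 ≤ b := le_max_left _ _
  have hm1 : m ≤ 1 := max_le zero_le_one (min_le_right _ _)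
  have hb1 : b ≤ 1 := max_le zero_le_one (min_le_right _ _)
  have hT1 : ∀ y, 0 ≤ (π.T π.gV).1 y := Q_nonneg _ _ π.gV_nonneg
  have hT2 : ∀ y, 0 ≤ (π.T (π.T π.gV)).1 y := Q_nonneg _ _ hT1
  have hM2 : (π.T (π.T π.gV)).1 x ≤ M := by have := hM 2 (by omega); rwa [pow_two] at this
  have hM3 : (π.T (π.T (π.T π.gV))).1 x ≤ M := by
    have := hM 3 le_rfl; rwa [pow_succ, pow_two] at this
  have hM0 : 0 ≤ M := (hT2 x).trans hM2
  set c := if x 0 ≤ x j then b else 0 with hc
  have hc0 : 0 ≤ c := by rw [hc]; split_ifs <;> simp [hb0]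
  have up := Q_cmp π.adm_nocc π.adm_nocc (π.u 1) (π.T π.gV) x x 1 2 c (J := Icc 0 m) measurableSet_Icc
    (fun t ht => by
      have hind : 0 ≤ (Icc 0 m).indicator (fun _ => c) t := indicator_nonneg (fun _ _ => hc0) t
      by_cases h1 : push t x ∈ π.occᶜ
      · rw [indicator_of_mem h1, indicator_of_mem h1]
        by_cases h2 : π.NF (push t x)
        · have h3 := nfdesc _ h2
          have h4 := nfmax _ h2 1 (by omega)
          simp only [push_zero, push_succ] at h3 h4
          have h3' : t < x 0 := h3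
          have h4' : x 0 ≤ x j := h4
          have h5 : t ∈ Icc 0 m := ⟨ht.1, le_max_of_le_right (le_min h3'.le ht.2)⟩
          rw [indicator_of_mem h5, hc, if_pos h4']
          have h6 := Q_upp π.adm_nocc (oneV s) (push t x) (J := Icc 0 b) measurableSet_Icc zero_le_one
            (fun t' ht' h7 => ⟨⟨ht'.1, le_max_of_le_right (le_min (by
              by_contra hn
              exact h7 (nfocc _ h2 t' (not_le.mp hn))) ht'.2)⟩, le_rfl⟩)
          have h7 := U_Icc_le hb0
          have h8 : (π.u 1).1 (push t x) = (Q π.adm_nocc (oneV s)).1 (push t x) := by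
            rw [u, pow_one]; rfl
          linarith [hT1 (push t x)]
        · linarith [π.free_half h2, π.u_le_one 1 (push t x)]
      · rw [indicator_of_notMem h1, indicator_of_notMem h1]; linarith)
  have e2 : (π.u 2).1 x = (Q π.adm_nocc (π.u 1)).1 x := by rw [u_succ]; rfl
  have low : m * c ≤ 8 * M := by
    rw [hc]
    split_ifs with hx
    · have hmb : m ≤ b := max_le_max le_rfl (min_le_min hx le_rfl)
      have h1 := Q_low π.adm_nocc (π.T (π.T π.gV)) hT2 x (J := Ioo 0 (m / 2)) measurableSet_Ioo (b / 4)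
        (fun t _ ht => by
          have hmpos : 0 < m := by linarith [ht.1, ht.2]
          have hmx : m ≤ x 0 := by
            rcases le_total 0 (min (x 0) 1) with h | h
            · rw [hm, max_eq_right h]; exact min_le_left _ _
            · rw [hm, max_eq_left h] at hmpos; exact absurd hmpos (lt_irrefl _)
          have hbx : b ≤ x j := by
            rcases le_total 0 (min (x j) 1) with h | h
            · rw [hb, max_eq_right h]; exact min_le_left _ _
            · rw [hb, max_eq_left h] at hmb; linarith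
          refine ⟨safe x t 0 (by omega) (by linarith [ht.2]), ?_⟩
          have h2 := Q_low π.adm_nocc (π.T π.gV) hT1 (push t x) (J := Ioo (b / 2) b) measurableSet_Ioo
            (1 / 2) (fun t' _ ht' => ⟨safe _ t' (j + 1) hj1 (by simp; linarith [ht'.2]),
              π.free_half fun h => by
                have h3 : t' < t := nfdesc _ h
                linarith [ht.2, ht'.1]⟩)
          rw [U_Ioo (by linarith) (by linarith) hb1] at h2
          refine le_trans (le_of_eq (by ring)) h2)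
      rw [U_Ioo le_rfl (by linarith) (by linarith)] at h1
      have h2 : (Q π.adm_nocc (π.T (π.T π.gV))).1 x ≤ M := hM3
      linarith
    · linarith
  have h9 : U.real (Icc 0 m) * c ≤ m * c := by
    have := U_Icc_le hm0
    gcongr; linarith
  have h10 : (Q π.adm_nocc (π.T π.gV)).1 x ≤ M := hM2
  linarith

lemma exists_goodBound : ∃ t1 C, 0 < C ∧ π.GoodBound t1 C := by
  have hs := π.hs
  by_cases h : ∃ j < s, π.p 0 < π.p (j + 1)
  · obtain ⟨j, hj, hp⟩ := h
    exact ⟨_, _, by positivity, π.case1 hj hp⟩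
  · push Not at h
    have hmax : ∀ j < s, π.p (j + 1) < π.p 0 := fun j hj =>
      lt_of_le_of_ne (h j hj) fun he => by have := π.inj _ hj _ (by omega) he; omega
    rcases lt_trichotomy (π.p 1) (π.p 2) with h1 | h1 | h1
    · exact ⟨_, _, by norm_num, π.case3 hmax h1⟩
    · have := π.inj _ (by omega) _ hs h1; omega
    · exact ⟨_, _, by norm_num, π.case2 h1⟩

lemma halving {a b : ℝ} (ha : 0 < a) (hb : 0 ≤ b) (w : V s) (hw : ∀ x, 0 ≤ w.1 x)
    (h : ∀ y : Om, a ≤ y 0 → b ≤ w.1 y) (i : ℕ) : 2 ^ i * a ≤ 1 →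
    ∀ y : Om, 2 ^ i * a ≤ y 0 → a ^ i * b ≤ ((π.T ^ i) w).1 y := by
  induction i with
  | zero => intro _ y hy; simpa using h y (by simpa using hy)
  | succ i ih =>
    intro h1 y hy
    have h2 : (1 : ℝ) ≤ 2 ^ i := one_le_pow₀ (by norm_num)
    have h3 : 0 < 2 ^ i * a := by positivity
    rw [pow_succ 2 i] at h1 hy
    have := Q_low π.adm_nocc ((π.T ^ i) w) (π.Tpow_nonneg i w hw) y
      (J := Ioo (2 ^ i * a) (2 ^ i * 2 * a)) measurableSet_Ioo (a ^ i * b)
      (fun t _ ht => ⟨π.desc_safe (by simp; linarith [ht.2]),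
        ih (by linarith) _ (by simpa using ht.1.le)⟩)
    rw [U_Ioo h3.le (by linarith) h1] at this
    rw [pow_succ' π.T]
    refine le_trans ?_ this
    have e : 2 ^ i * 2 * a - 2 ^ i * a = 2 ^ i * a := by ring
    rw [e]
    calc a ^ (i + 1) * b = 1 * a * (a ^ i * b) := by ring
      _ ≤ _ := by gcongr

lemma G2 : ∃ t1 : ℕ, ∀ a : ℝ, 0 < a → 2 ^ t1 * a ≤ 1 / 2 → ∃ c : ℝ, 0 < c ∧
    ∀ (w : V s) (b : ℝ), (∀ x, 0 ≤ w.1 x) → 0 ≤ b → (∀ y : Om, a ≤ y 0 → b ≤ w.1 y) →
      ∀ x, c * b * (π.u t1).1 x ≤ ((π.T ^ t1) w).1 x := by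
  obtain ⟨t1, C, hC, h⟩ := π.exists_goodBound
  refine ⟨t1, fun a ha h1 => ⟨a ^ t1 / C, by positivity, fun w b hw hb h2 x => ?_⟩⟩
  have hp1 : (1 : ℝ) ≤ 2 ^ t1 := one_le_pow₀ (by norm_num)
  have ha1 : a ≤ 1 := by nlinarith
  rcases hb.eq_or_lt with rfl | hb'
  · simpa using π.Tpow_nonneg t1 w hw x
  have hab : 0 < a ^ t1 * b := by positivity
  have h3 := h x (((π.T ^ t1) w).1 x / (a ^ t1 * b)) (fun i hi => by
    rw [le_div_iff₀' hab]
    have e : π.T ^ t1 = π.T ^ i * π.T ^ (t1 - i) := by rw [← pow_add]; congr 1; omega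
    have := π.Tpow_mono i π.gV ((π.T ^ (t1 - i)) w) (a ^ t1 * b) 1 (fun y => by
      rw [gV, hi_apply, one_mul]
      split_ifs with hy
      · have h4 : (2 : ℝ) ^ (t1 - i) * a ≤ 2 ^ t1 * a := by
          gcongr
          · norm_num
          · omega
        refine le_trans ?_ (π.halving ha hb w hw h2 (t1 - i) (by linarith) y (by linarith))
        rw [mul_one]
        exact mul_le_mul_of_nonneg_right (pow_le_pow_of_le_one ha.le ha1 (by omega)) hb
      · simpa using π.Tpow_nonneg _ w hw y) x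
    rw [one_mul] at this
    rw [e]; exact this)
  rw [← mul_div_assoc, le_div_iff₀ hab] at h3
  rw [div_mul_eq_mul_div, div_mul_eq_mul_div, div_le_iff₀ hC]
  linarith

end Pat

end Pool.Agent.P.MP_114da7_co
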